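import Pool.Agent.Helper55_CRT.TubB

/-!
# MP_6bfaa3_an: module TUB, part C: bounds, assembly
-/

open Matrix Topology Filter
open scoped ContDiff Matrix.Norms.Operator

namespace Pool.Agent.CRT

variable {n : ℕ}

theorem smoothTransition_deriv_bound : ∃ L : ℝ, 0 ≤ L ∧ ∀ x ∈ Set.Icc (-2 : ℝ) 2,
    |deriv Real.smoothTransition x| ≤ L := by
  have hc : Continuous (deriv Real.smoothTransition) :=
    (Real.smoothTransition.contDiff (n := ⊤)).continuous_deriv (by simp)
  obtain ⟨L, hL⟩ := isCompact_Icc.exists_bound_of_continuousOn (s := Set.Icc (-2 : ℝ) 2)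
    hc.continuousOn
  refine ⟨max L 0, le_max_right _ _, fun x hx => ?_⟩
  exact (hL x hx).trans (le_max_left _ _)

namespace Cst

variable (k : Cst n)

theorem qq_le {B : Mat n} (h : k.T B) : qq B * SS B ^ 2 ≤ 1 ∧ qq B ≤ 1 := by
  have hS := one_le_SS h.1 (⟨0, k.hn⟩ : Fin n)
  have h1 := h.2
  have h2 := k.Cw_ge
  have h3 := qq_nonneg B
  unfold zz at h1
  have hS2 : 1 ≤ SS B ^ 2 := by nlinarith
  have h4 : 0 ≤ qq B * SS B ^ 2 := by positivity
  constructor
  · nlinarith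
  · nlinarith

theorem UU_bound {B : Mat n} (h : k.T B) : |k.UU B| ≤ 1 := by
  unfold UU
  rw [if_pos h.1]
  have h1 := Real.smoothTransition.nonneg (2 - 2 * k.zz B)
  have h2 := Real.smoothTransition.le_one (2 - 2 * k.zz B)
  have h3 := (k.qq_le h).2
  have h4 : (qq B) ^ (3 / 2 : ℝ) ≤ 1 := Real.rpow_le_one (qq_nonneg B) h3 (by norm_num)
  have h5 : 0 ≤ (qq B) ^ (3 / 2 : ℝ) := Real.rpow_nonneg (qq_nonneg B) _
  rw [abs_of_nonneg (mul_nonneg h1 h5)]
  nlinarith

/-- the derivative bound -/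
theorem UU_deriv {L : ℝ} (hL0 : 0 ≤ L) (hL : ∀ x ∈ Set.Icc (-2 : ℝ) 2, |deriv Real.smoothTransition x| ≤ L)
    {h : Mat n} (hT : k.T h) (Y : Mat n) :
    |fderiv ℝ k.UU h (Y * h)| ≤ (2 * L * (4 * n ^ 2 * 2 + 4 * 2) + 6 * n ^ 2) * ‖Y‖ := by
  have hnear := k.near_of_T hT
  have hc1 : k.c ≤ 1 := k.c_le.trans (by norm_num)
  have hpos := hT.1
  set V := Y * h with hV
  have hYn := norm_nonneg Y
  -- entries of V
  have hVb : ∀ i j, |V i j| ≤ ‖Y‖ * h j j := by
    intro i j
    rw [hV, Matrix.mul_apply]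
    calc |∑ l, Y i l * h l j| ≤ ∑ l, |Y i l * h l j| := Finset.abs_sum_le_sum_abs _ _
      _ ≤ ∑ l, |Y i l| * h j j := by
        refine Finset.sum_le_sum fun l _ => ?_
        rw [abs_mul]
        exact mul_le_mul_of_nonneg_left (hnear.col hc1 l j) (abs_nonneg _)
      _ = (∑ l, |Y i l|) * h j j := by rw [Finset.sum_mul]
      _ ≤ ‖Y‖ * h j j := by
        have := (hpos j).le
        gcongr
        exact row_sum_le Y i
  have hS1 := one_le_SS hpos (⟨0, k.hn⟩ : Fin n)
  set η := Real.sqrt (qq h) with hη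
  have hη0 : 0 ≤ η := Real.sqrt_nonneg _
  have hη2 : η ^ 2 = qq h := Real.sq_sqrt (qq_nonneg h)
  have hη1 : η ≤ 1 := by
    have := (k.qq_le hT).2
    rw [← hη2] at this
    nlinarith
  -- line
  have hl0 : h + (0 : ℝ) • V = h := by rw [zero_smul, add_zero]
  have hline : HasDerivAt (fun t : ℝ => h + t • V) V 0 := by
    have h2 : HasDerivAt (fun t : ℝ => t • V) ((1 : ℝ) • V) 0 := (hasDerivAt_id (0 : ℝ)).smul_const _
    rw [one_smul] at h2
    exact h2.const_add _
  have hent : ∀ i j, HasDerivAt (fun t : ℝ => (h + t • V) i j) (V i j) 0 := by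
    intro i j
    have h1 : (fun t : ℝ => (h + t • V) i j) = fun t => h i j + t * V i j := by
      funext t
      rw [Matrix.add_apply, Matrix.smul_apply, smul_eq_mul]
    rw [h1]
    have h2 : HasDerivAt (fun t : ℝ => t * V i j) (1 * V i j) 0 := (hasDerivAt_id (0 : ℝ)).mul_const _
    rw [one_mul] at h2
    exact h2.const_add _
  have hent0 : ∀ i j, (h + (0 : ℝ) • V) i j = h i j := fun i j => by rw [hl0]
  -- derivative of q
  obtain ⟨q', hq', hq'b⟩ : ∃ q' : ℝ, HasDerivAt (fun t : ℝ => qq (h + t • V)) q' 0 ∧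
      |q'| ≤ 4 * n ^ 2 * ‖Y‖ * SS h * η := by
    refine ⟨∑ i, ∑ j, if i = j then 0 else
      2 * (h i j / h i i) * ((V i j * h i i - h i j * V i i) / h i i ^ 2), ?_, ?_⟩
    · unfold qq
      refine HasDerivAt.fun_sum fun i _ => HasDerivAt.fun_sum fun j _ => ?_
      by_cases hij : i = j
      · simp only [hij, if_true]
        exact hasDerivAt_const _ _
      · simp only [hij, if_false]
        have h1 := (hent i j).fun_div (hent i i) (by rw [hent0]; exact (hpos i).ne')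
        have h2 := h1.fun_pow 2
        rw [hent0, hent0] at h2
        refine h2.congr_deriv ?_
        push_cast
        ring
    · calc |∑ i, ∑ j, if i = j then 0 else
            2 * (h i j / h i i) * ((V i j * h i i - h i j * V i i) / h i i ^ 2)|
          ≤ ∑ i, |∑ j, if i = j then 0 else
            2 * (h i j / h i i) * ((V i j * h i i - h i j * V i i) / h i i ^ 2)| :=
            Finset.abs_sum_le_sum_abs _ _
        _ ≤ ∑ i : Fin n, ∑ j : Fin n, 4 * ‖Y‖ * SS h * η := by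
          refine Finset.sum_le_sum fun i _ => (Finset.abs_sum_le_sum_abs _ _).trans
            (Finset.sum_le_sum fun j _ => ?_)
          split_ifs with hij
          · rw [abs_zero]
            have := SS_nonneg h
            positivity
          · have hr := abs_r_le h hij
            have hhi := hpos i
            have hhj := hpos j
            have h1 : |(V i j * h i i - h i j * V i i) / h i i ^ 2| ≤ 2 * ‖Y‖ * SS h := by
              have e1 : (V i j * h i i - h i j * V i i) / h i i ^ 2 =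
                  V i j / h i i - (h i j / h i i) * (V i i / h i i) := by
                field_simp
              rw [e1]
              have e2 : |V i j / h i i| ≤ ‖Y‖ * SS h := by
                rw [abs_div, abs_of_pos hhi, div_le_iff₀ hhi]
                have := ratio_le_SS hpos j i
                rw [div_le_iff₀ hhi] at this
                calc |V i j| ≤ ‖Y‖ * h j j := hVb i j
                  _ ≤ ‖Y‖ * (SS h * h i i) := by gcongr
                  _ = _ := by ring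
              have e3 : |V i i / h i i| ≤ ‖Y‖ := by
                rw [abs_div, abs_of_pos hhi, div_le_iff₀ hhi]
                exact hVb i i
              calc |V i j / h i i - (h i j / h i i) * (V i i / h i i)|
                  ≤ |V i j / h i i| + |(h i j / h i i) * (V i i / h i i)| := abs_sub _ _
                _ ≤ ‖Y‖ * SS h + 1 * ‖Y‖ := by
                  rw [abs_mul]
                  gcongr
                  exact hr.trans hη1
                _ ≤ 2 * ‖Y‖ * SS h := by nlinarith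
            rw [abs_mul, abs_mul, abs_two]
            calc 2 * |h i j / h i i| * |(V i j * h i i - h i j * V i i) / h i i ^ 2|
                ≤ 2 * η * (2 * ‖Y‖ * SS h) := by gcongr
              _ = 4 * ‖Y‖ * SS h * η := by ring
        _ = 4 * n ^ 2 * ‖Y‖ * SS h * η := by
          rw [Finset.sum_const, Finset.sum_const, Finset.card_univ, Fintype.card_fin]
          simp only [nsmul_eq_mul]
          ring
  -- derivative of S
  obtain ⟨S', hS', hS'b⟩ : ∃ S' : ℝ, HasDerivAt (fun t : ℝ => SS (h + t • V)) S' 0 ∧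
      |S'| ≤ 2 * ‖Y‖ * SS h := by
    refine ⟨∑ i, (2 * h i i * V i i + 2 * (h i i)⁻¹ * (-(V i i) / h i i ^ 2)), ?_, ?_⟩
    · unfold SS
      refine HasDerivAt.fun_sum fun i _ => ?_
      have h1 := (hent i i).fun_pow 2
      have h2 := ((hent i i).fun_inv (by rw [hent0]; exact (hpos i).ne')).fun_pow 2
      have h3 := h1.fun_add h2
      rw [hent0] at h3
      refine h3.congr_deriv ?_
      push_cast
      ring
    · calc |∑ i, (2 * h i i * V i i + 2 * (h i i)⁻¹ * (-(V i i) / h i i ^ 2))|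
          ≤ ∑ i, |2 * h i i * V i i + 2 * (h i i)⁻¹ * (-(V i i) / h i i ^ 2)| :=
            Finset.abs_sum_le_sum_abs _ _
        _ ≤ ∑ i, 2 * ‖Y‖ * (h i i ^ 2 + ((h i i)⁻¹) ^ 2) := by
          refine Finset.sum_le_sum fun i _ => ?_
          have hhi := hpos i
          have hVi := hVb i i
          refine (abs_add_le _ _).trans ?_
          have e1 : |2 * h i i * V i i| ≤ 2 * ‖Y‖ * h i i ^ 2 := by
            rw [abs_mul, abs_mul, abs_two, abs_of_pos hhi]
            calc 2 * h i i * |V i i| ≤ 2 * h i i * (‖Y‖ * h i i) := by gcongr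
              _ = _ := by ring
          have e2 : |2 * (h i i)⁻¹ * (-(V i i) / h i i ^ 2)| ≤ 2 * ‖Y‖ * ((h i i)⁻¹) ^ 2 := by
            rw [abs_mul, abs_mul, abs_two, abs_div, abs_neg, abs_inv, abs_of_pos hhi,
              abs_of_pos (by positivity : 0 < h i i ^ 2)]
            calc 2 * (h i i)⁻¹ * (|V i i| / h i i ^ 2) ≤ 2 * (h i i)⁻¹ * ((‖Y‖ * h i i) / h i i ^ 2) := by
                  gcongr
              _ = _ := by field_simp
          calc _ ≤ 2 * ‖Y‖ * h i i ^ 2 + 2 * ‖Y‖ * ((h i i)⁻¹) ^ 2 := add_le_add e1 e2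
            _ = _ := by ring
        _ = 2 * ‖Y‖ * SS h := by rw [← Finset.mul_sum]; rfl
  -- derivative of z
  set w := k.Cw * SS h ^ 2 with hw
  have hCw := k.Cw_pos
  have hw0 : 0 < w := by positivity
  have hz' : HasDerivAt (fun t : ℝ => k.zz (h + t • V))
      (q' * w + qq h * (k.Cw * (2 * SS h * S'))) 0 := by
    unfold zz
    have h1 := hq'.fun_mul ((hS'.fun_pow 2).const_mul k.Cw)
    simp only [hl0] at h1
    refine h1.congr_deriv ?_
    rw [hw]
    push_cast
    ring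
  set z' := q' * w + qq h * (k.Cw * (2 * SS h * S')) with hz'def
  have hz : qq h * w < 2 := hT.2
  have hz'b : |z'| ≤ 4 * n ^ 2 * ‖Y‖ * SS h * η * w + 4 * ‖Y‖ * (qq h * w) := by
    have e1 : |q' * w| ≤ 4 * n ^ 2 * ‖Y‖ * SS h * η * w := by
      rw [abs_mul, abs_of_pos hw0]
      gcongr
    have e2 : |qq h * (k.Cw * (2 * SS h * S'))| ≤ 4 * ‖Y‖ * (qq h * w) := by
      rw [abs_mul, abs_mul, abs_mul, abs_mul, abs_two, abs_of_nonneg (qq_nonneg h), abs_of_pos hCw,
        abs_of_nonneg (SS_nonneg h)]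
      calc qq h * (k.Cw * (2 * SS h * |S'|)) ≤ qq h * (k.Cw * (2 * SS h * (2 * ‖Y‖ * SS h))) := by
            have := qq_nonneg h
            have := SS_nonneg h
            gcongr
        _ = _ := by rw [hw]; ring
    exact (abs_add_le _ _).trans (add_le_add e1 e2)
  -- q^(3/2)
  have hrp : (qq h) ^ (3 / 2 : ℝ) = η ^ 3 := by
    rw [hη, Real.sqrt_eq_rpow, ← Real.rpow_natCast, ← Real.rpow_mul (qq_nonneg h)]
    norm_num
  have hrp2 : (qq h) ^ (3 / 2 - 1 : ℝ) = η := by
    rw [hη, Real.sqrt_eq_rpow]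
    norm_num
  have hpow : HasDerivAt (fun t : ℝ => (qq (h + t • V)) ^ (3 / 2 : ℝ)) (3 / 2 * η * q') 0 := by
    have h1 : HasDerivAt (fun x : ℝ => x ^ (3 / 2 : ℝ)) (3 / 2 * (qq (h + (0 : ℝ) • V)) ^ (3 / 2 - 1 : ℝ))
        (qq (h + (0 : ℝ) • V)) := Real.hasDerivAt_rpow_const (Or.inr (by norm_num))
    have h2 := h1.comp (0 : ℝ) hq'
    rw [hl0, hrp2] at h2
    exact h2
  -- smooth transition
  have hst : HasDerivAt (fun t : ℝ => Real.smoothTransition (2 - 2 * k.zz (h + t • V)))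
      (deriv Real.smoothTransition (2 - 2 * k.zz h) * (-(2 * z'))) 0 := by
    have h1 : HasDerivAt Real.smoothTransition (deriv Real.smoothTransition (2 - 2 * k.zz h))
        (2 - 2 * k.zz (h + (0 : ℝ) • V)) := by
      rw [hl0]
      exact ((Real.smoothTransition.contDiff (n := 1)).differentiable (by simp) _).hasDerivAt
    have h2 : HasDerivAt (fun t : ℝ => 2 - 2 * k.zz (h + t • V)) (-(2 * z')) 0 :=
      (hz'.const_mul 2).const_sub 2
    exact h1.comp (0 : ℝ) h2
  have hprod := hst.fun_mul hpow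
  simp only [hl0] at hprod
  have hUd : HasDerivAt (fun t : ℝ => k.UU (h + t • V)) (fderiv ℝ k.UU h V) 0 := by
    have h1 : HasFDerivAt k.UU (fderiv ℝ k.UU h) (h + (0 : ℝ) • V) := by
      rw [hl0]
      exact ((k.UU_c1 hpos).differentiableAt (by simp)).hasFDerivAt
    exact h1.comp_hasDerivAt (0 : ℝ) hline
  have heq : (fun t : ℝ => k.UU (h + t • V)) =ᶠ[𝓝 0] fun t =>
      Real.smoothTransition (2 - 2 * k.zz (h + t • V)) * (qq (h + t • V)) ^ (3 / 2 : ℝ) := by
    have hc : Tendsto (fun t : ℝ => h + t • V) (𝓝 0) (𝓝 h) := by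
      have := hline.continuousAt.tendsto
      rwa [hl0] at this
    exact hc.eventually (k.UU_near hpos)
  have hval := hUd.unique (hprod.congr_of_eventuallyEq heq)
  rw [hval, hrp]
  -- estimates
  have hzn := k.zz_nonneg h
  have hzl : k.zz h < 2 := hT.2
  have hstb := hL (2 - 2 * k.zz h) ⟨by linarith, by linarith⟩
  have hst0 := Real.smoothTransition.nonneg (2 - 2 * k.zz h)
  have hst1 := Real.smoothTransition.le_one (2 - 2 * k.zz h)
  have hSq : SS h * η ^ 2 ≤ 1 := by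
    rw [hη2]
    have := (k.qq_le hT).1
    have h0 := qq_nonneg h
    nlinarith [mul_nonneg h0 (SS_nonneg h)]
  have hS0 := SS_nonneg h
  have b1 : |z'| * η ^ 3 ≤ (4 * n ^ 2 * 2 + 4 * 2) * ‖Y‖ := by
    have e1 : |z'| * η ^ 3 ≤ (4 * n ^ 2 * ‖Y‖ * SS h * η * w + 4 * ‖Y‖ * (qq h * w)) * η ^ 3 := by
      gcongr
    have e2 : (4 * n ^ 2 * ‖Y‖ * SS h * η * w + 4 * ‖Y‖ * (qq h * w)) * η ^ 3 =
        4 * n ^ 2 * ‖Y‖ * ((SS h * η ^ 2) * (qq h * w)) + 4 * ‖Y‖ * ((qq h * w) * η ^ 3) := by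
      rw [← hη2]; ring
    rw [e2] at e1
    have hqw : 0 ≤ qq h * w := mul_nonneg (qq_nonneg h) hw0.le
    have e3 : (SS h * η ^ 2) * (qq h * w) ≤ 1 * 2 := by
      gcongr
    have e4 : (qq h * w) * η ^ 3 ≤ 2 * 1 := by
      gcongr
      exact pow_le_one₀ hη0 hη1
    have e5 : 4 * n ^ 2 * ‖Y‖ * ((SS h * η ^ 2) * (qq h * w)) ≤ 4 * n ^ 2 * ‖Y‖ * (1 * 2) := by gcongr
    have e6 : 4 * ‖Y‖ * ((qq h * w) * η ^ 3) ≤ 4 * ‖Y‖ * (2 * 1) := by gcongr
    calc |z'| * η ^ 3 ≤ _ := e1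
      _ ≤ 4 * n ^ 2 * ‖Y‖ * (1 * 2) + 4 * ‖Y‖ * (2 * 1) := add_le_add e5 e6
      _ = _ := by ring
  have b2 : η * |q'| ≤ 4 * n ^ 2 * ‖Y‖ := by
    calc η * |q'| ≤ η * (4 * n ^ 2 * ‖Y‖ * SS h * η) := by gcongr
      _ = 4 * n ^ 2 * ‖Y‖ * (SS h * η ^ 2) := by ring
      _ ≤ 4 * n ^ 2 * ‖Y‖ * 1 := by gcongr
      _ = _ := by ring
  have c1 : |deriv Real.smoothTransition (2 - 2 * k.zz h) * (-(2 * z')) * η ^ 3| ≤
      2 * L * ((4 * n ^ 2 * 2 + 4 * 2) * ‖Y‖) := by
    rw [abs_mul, abs_mul, abs_neg, abs_mul, abs_two, abs_of_nonneg (pow_nonneg hη0 3)]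
    calc |deriv Real.smoothTransition (2 - 2 * k.zz h)| * (2 * |z'|) * η ^ 3
        ≤ L * (2 * |z'|) * η ^ 3 := by gcongr
      _ = 2 * L * (|z'| * η ^ 3) := by ring
      _ ≤ _ := by gcongr
  have c2 : |Real.smoothTransition (2 - 2 * k.zz h) * (3 / 2 * η * q')| ≤ 6 * n ^ 2 * ‖Y‖ := by
    rw [abs_mul, abs_of_nonneg hst0]
    have e1 : |3 / 2 * η * q'| = 3 / 2 * (η * |q'|) := by
      rw [abs_mul, abs_mul, abs_of_nonneg hη0, abs_of_nonneg (by norm_num : (0 : ℝ) ≤ 3 / 2)]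
      ring
    rw [e1]
    have hb0 : 0 ≤ η * |q'| := mul_nonneg hη0 (abs_nonneg _)
    calc Real.smoothTransition (2 - 2 * k.zz h) * (3 / 2 * (η * |q'|)) ≤ 1 * (3 / 2 * (4 * n ^ 2 * ‖Y‖)) := by
          gcongr
      _ = _ := by ring
  refine (abs_add_le _ _).trans ((add_le_add c1 c2).trans (le_of_eq ?_))
  ring

theorem uu_bound (g : G n) : |k.uu (g : Mat n)| ≤ 1 := by
  by_cases hex : ∃ γ : G n, γ ∈ Gam n ∧ k.T ((g : Mat n) * (γ : Mat n))
  · obtain ⟨γ, hγ, hT⟩ := hex
    rw [k.uu_eq hγ hT]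
    exact k.UU_bound hT
  · unfold uu
    rw [dif_neg hex, abs_zero]
    exact zero_le_one

theorem uu_deriv {L : ℝ} (hL0 : 0 ≤ L) (hL : ∀ x ∈ Set.Icc (-2 : ℝ) 2, |deriv Real.smoothTransition x| ≤ L)
    (g : G n) (Y : Mat n) :
    |fderiv ℝ k.uu (g : Mat n) (Y * (g : Mat n))| ≤
      (2 * L * (4 * n ^ 2 * 2 + 4 * 2) + 6 * n ^ 2) * ‖Y‖ := by
  by_cases hex : ∃ γ : G n, γ ∈ Gam n ∧ k.T ((g : Mat n) * (γ : Mat n))
  · obtain ⟨γ, hγ, hT⟩ := hex
    have h1 : k.uu =ᶠ[𝓝 (g : Mat n)] fun B => k.UU (B * (γ : Mat n)) := k.uu_near hγ hT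
    have h2 := h1.fderiv_eq (𝕜 := ℝ)
    have h3 : HasFDerivAt (fun B : Mat n => B * (γ : Mat n))
        ((ContinuousLinearMap.mul ℝ (Mat n)).flip (γ : Mat n)) (g : Mat n) :=
      ((ContinuousLinearMap.mul ℝ (Mat n)).flip (γ : Mat n)).hasFDerivAt
    have h4 : HasFDerivAt k.UU (fderiv ℝ k.UU ((g : Mat n) * (γ : Mat n))) ((g : Mat n) * (γ : Mat n)) :=
      ((k.UU_c1 hT.1).differentiableAt (by simp)).hasFDerivAt
    have h5 := (HasFDerivAt.comp (f := fun B : Mat n => B * (γ : Mat n)) _ h4 h3).fderiv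
    have h6 : fderiv ℝ k.uu (g : Mat n) (Y * (g : Mat n)) =
        fderiv ℝ k.UU ((g : Mat n) * (γ : Mat n)) (Y * ((g : Mat n) * (γ : Mat n))) := by
      have e1 := congrArg (fun L : Mat n →L[ℝ] ℝ => L (Y * (g : Mat n))) (h2.trans h5)
      refine e1.trans ?_
      change fderiv ℝ k.UU ((g : Mat n) * (γ : Mat n)) ((Y * (g : Mat n)) * (γ : Mat n)) = _
      rw [mul_assoc]
    rw [h6]
    exact k.UU_deriv hL0 hL hT Y
  · push Not at hex
    have h1 : k.uu =ᶠ[𝓝 (g : Mat n)] fun _ => (0 : ℝ) := k.uu_zero_near hex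
    have h2 := h1.fderiv_eq (𝕜 := ℝ)
    have h3 : fderiv ℝ k.uu (g : Mat n) (Y * (g : Mat n)) = 0 := by
      have e1 := congrArg (fun L : Mat n →L[ℝ] ℝ => L (Y * (g : Mat n))) h2
      refine e1.trans ?_
      simp
    rw [h3, abs_zero]
    positivity

theorem qq_D {d : G n} (hd : d ∈ D n) : qq (d : Mat n) = 0 := by
  unfold qq
  refine Finset.sum_eq_zero fun i _ => Finset.sum_eq_zero fun j _ => ?_
  split_ifs with h
  · rfl
  · rw [hd.1 i j h, zero_div]; ring

theorem D_mul_apply {a : G n} (ha : a ∈ D n) (B : Mat n) (i j : Fin n) :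
    ((a : Mat n) * B) i j = (a : Mat n) i i * B i j := by
  rw [Matrix.mul_apply]
  apply Finset.sum_eq_single i
  · intro l _ hl
    rw [ha.1 i l (Ne.symm hl), zero_mul]
  · intro h
    exact absurd (Finset.mem_univ i) h

theorem qq_left {a : G n} (ha : a ∈ D n) (B : Mat n) : qq ((a : Mat n) * B) = qq B := by
  unfold qq
  refine Finset.sum_congr rfl fun i _ => Finset.sum_congr rfl fun j _ => ?_
  rw [D_mul_apply ha, D_mul_apply ha, mul_div_mul_left _ _ (ha.2 i).ne']

/-- the core: z < 1/2 -/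
def core (B : Mat n) : Prop := Pos B ∧ k.zz B < 1 / 2

theorem core_T {B : Mat n} (h : k.core B) : k.T B := ⟨h.1, by linarith [h.2]⟩

theorem core_UU {B : Mat n} (h : k.core B) : k.UU B = (qq B) ^ (3 / 2 : ℝ) := by
  unfold UU
  rw [if_pos h.1, Real.smoothTransition.one_of_one_le (by linarith [h.2]), one_mul]

theorem core_eventually {B : Mat n} (hB : k.core B) : ∀ᶠ B' : Mat n in 𝓝 B, k.core B' := by
  have h1 : ∀ᶠ B' : Mat n in 𝓝 B, k.zz B' < 1 / 2 :=
    ((k.contDiffAt_zz (m := 0) hB.1).continuousAt.tendsto).eventually (gt_mem_nhds hB.2)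
  filter_upwards [pos_eventually hB.1, h1] with B' h2 h3
  exact ⟨h2, h3⟩

theorem core_D {d : G n} (hd : d ∈ D n) : k.core (d : Mat n) := by
  refine ⟨hd.2, ?_⟩
  unfold zz
  rw [qq_D hd, zero_mul]
  norm_num

theorem uu_local (a g : G n) (ha : a ∈ D n) (hg : ∃ γ ∈ Gam n, g * γ ∈ D n) :
    ∀ᶠ p : G n × G n in 𝓝 (a, g), p.1 ∈ D n → k.uu ((p.1 * p.2 : G n) : Mat n) = k.uu (p.2 : Mat n) := by
  obtain ⟨γ, hγ, hd⟩ := hg
  have h1 := k.core_eventually (k.core_D hd)
  have h2 := k.core_eventually (k.core_D ((D n).mul_mem ha hd))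
  have c1 : Tendsto (fun p : G n × G n => ((p.2 * γ : G n) : Mat n)) (𝓝 (a, g)) (𝓝 ((g * γ : G n) : Mat n)) :=
    (continuous_coe.comp (continuous_snd.mul continuous_const)).tendsto (a, g)
  have c2 : Tendsto (fun p : G n × G n => ((p.1 * (p.2 * γ) : G n) : Mat n)) (𝓝 (a, g))
      (𝓝 ((a * (g * γ) : G n) : Mat n)) :=
    (continuous_coe.comp (continuous_fst.mul (continuous_snd.mul continuous_const))).tendsto (a, g)
  filter_upwards [c1.eventually h1, c2.eventually h2] with p hp1 hp2 hpD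
  have e1 : ((p.1 * (p.2 * γ) : G n) : Mat n) = ((p.1 * p.2 : G n) : Mat n) * (γ : Mat n) := by
    rw [← Matrix.SpecialLinearGroup.coe_mul, mul_assoc]
  have e2 : ((p.2 * γ : G n) : Mat n) = (p.2 : Mat n) * (γ : Mat n) := Matrix.SpecialLinearGroup.coe_mul _ _
  have f1 : k.uu ((p.1 * p.2 : G n) : Mat n) = (qq ((p.1 * (p.2 * γ) : G n) : Mat n)) ^ (3 / 2 : ℝ) := by
    rw [k.uu_eq (B := ((p.1 * p.2 : G n) : Mat n)) hγ (by rw [← e1]; exact k.core_T hp2), ← e1,
      k.core_UU hp2]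
  have f2 : k.uu (p.2 : Mat n) = (qq ((p.2 * γ : G n) : Mat n)) ^ (3 / 2 : ℝ) := by
    rw [k.uu_eq (B := (p.2 : Mat n)) hγ (by rw [← e2]; exact k.core_T hp1), ← e2, k.core_UU hp1]
  rw [f1, f2, Matrix.SpecialLinearGroup.coe_mul p.1, qq_left hpD]

theorem qq_root {i j : Fin n} (hij : i ≠ j) (t : ℝ) : qq ((rootG hij t : G n) : Mat n) = t ^ 2 := by
  have hent : ∀ a b : Fin n, ((rootG hij t : G n) : Mat n) a b =
      (if a = b then 1 else 0) + (if i = a ∧ j = b then t else 0) := by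
    intro a b
    rw [rootG_coe, Matrix.add_apply, Matrix.smul_apply, rootE, Matrix.single_apply, Matrix.one_apply,
      smul_eq_mul, mul_ite, mul_one, mul_zero]
  unfold qq
  rw [Finset.sum_eq_single i, Finset.sum_eq_single j]
  · rw [if_neg hij, hent, hent, if_neg hij, if_pos ⟨rfl, rfl⟩, if_pos rfl, if_neg (by
      rintro ⟨-, h⟩; exact hij h.symm)]
    simp
  · intro b _ hb
    split_ifs with h
    · rfl
    · rw [hent i b, if_neg h, if_neg (by rintro ⟨-, h2⟩; exact hb h2.symm)]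
      simp
  · intro h; exact absurd (Finset.mem_univ j) h
  · intro a _ ha
    refine Finset.sum_eq_zero fun b _ => ?_
    split_ifs with h
    · rfl
    · rw [hent a b, if_neg h, if_neg (by rintro ⟨h2, -⟩; exact ha h2.symm)]
      simp
  · intro h; exact absurd (Finset.mem_univ i) h

theorem uu_root (i j : Fin n) (hij : i ≠ j) :
    ∀ᶠ t : ℝ in 𝓝 0, k.uu ((rootG hij t : G n) : Mat n) = |t| ^ 3 := by
  have h1 := k.core_eventually (k.core_D (one_mem (D n)))
  have c1 : Tendsto (fun t : ℝ => ((rootG hij t : G n) : Mat n)) (𝓝 0) (𝓝 ((1 : G n) : Mat n)) := by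
    have := (continuous_coe.comp (continuous_rootG hij)).tendsto 0
    simp only [Function.comp, rootG_zero] at this
    exact this
  filter_upwards [c1.eventually h1] with t ht
  have e1 : ((rootG hij t : G n) : Mat n) * ((1 : G n) : Mat n) = ((rootG hij t : G n) : Mat n) := by
    rw [Matrix.SpecialLinearGroup.coe_one, mul_one]
  rw [k.uu_eq (γ := 1) (one_mem _) (by rw [e1]; exact k.core_T ht), e1, k.core_UU ht, qq_root hij t]
  rw [← sq_abs t, ← Real.rpow_natCast (|t|) 2, ← Real.rpow_mul (abs_nonneg t), ← Real.rpow_natCast (|t|) 3]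
  norm_num

end Cst

theorem tub : TubStmt := by
  intro n hn
  obtain ⟨k⟩ := exists_Cst (n := n) (by omega)
  obtain ⟨L, hL0, hL⟩ := smoothTransition_deriv_bound
  refine ⟨k.uu, 1 + (2 * L * (4 * n ^ 2 * 2 + 4 * 2) + 6 * n ^ 2), ?_⟩
  have hC : (0 : ℝ) ≤ 2 * L * (4 * n ^ 2 * 2 + 4 * 2) + 6 * n ^ 2 := by positivity
  exact
    { pos := by linarith
      inv := fun g γ hγ => k.uu_inv g γ hγ
      smooth := fun g hg => k.uu_smooth g hg
      c1 := fun g => k.uu_c1 g
      local_inv := fun a g ha hg => k.uu_local a g ha hg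
      root := fun i j hij => k.uu_root i j hij
      bound := fun g => (k.uu_bound g).trans (by linarith)
      bound' := fun g Y => (k.uu_deriv hL0 hL g Y).trans (by
        have := norm_nonneg Y
        nlinarith) }

end Pool.Agent.CRT
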