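import Pool.Agent.Helper55_CRT.Pig
import Pool.Agent.Helper55_CRT.TubC

/-!
# MP_6bfaa3_an: module BAI (Baire category) and the final assembly
-/

open Matrix Topology Filter
open scoped ContDiff Matrix.Norms.Operator

namespace Pool.Agent.CRT

theorem nhds_ball {n : ℕ} (g : G n) {U : Set (G n)} (hU : U ∈ 𝓝 g) :
    ∃ ε : ℝ, 0 < ε ∧ ∀ g' : G n, ‖(g' : Mat n) - (g : Mat n)‖ < ε → g' ∈ U := by
  have h0 : 𝓝 g = comap (fun g : G n => (g : Mat n)) (𝓝 (g : Mat n)) :=
    Topology.IsInducing.subtypeVal.nhds_eq_comap g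
  rw [h0, Filter.mem_comap] at hU
  obtain ⟨t, ht, hsub⟩ := hU
  obtain ⟨ε, hε, hball⟩ := Metric.mem_nhds_iff.mp ht
  refine ⟨ε, hε, fun g' hg' => hsub (hball ?_)⟩
  rw [Metric.mem_ball, dist_eq_norm]
  exact hg'

theorem rec_stmt : RecStmt := by
  intro n a L hL
  have : LocallyCompactSpace (G n) := by
    have : LocallyCompactSpace (Matrix (Fin n) (Fin n) ℝ) :=
      inferInstanceAs (LocallyCompactSpace (Fin n → Fin n → ℝ))
    exact (Matrix.SpecialLinearGroup.isClosedEmbedding_val (n := Fin n) (R := ℝ)).locallyCompactSpace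
  have : T2Space (G n) := by
    have : T2Space (Matrix (Fin n) (Fin n) ℝ) := inferInstanceAs (T2Space (Fin n → Fin n → ℝ))
    exact (Matrix.SpecialLinearGroup.isClosedEmbedding_val (n := Fin n) (R := ℝ)).isEmbedding.t2Space
  -- the open dense sets
  let R : ℕ → Set (G n) := fun j => {g | ∃ k : ℕ, j ≤ k ∧ ∃ γ ∈ Gam n,
    ‖((a ^ k * g * γ : G n) : Mat n) - (g : Mat n)‖ < 1 / ((j : ℝ) + 1)}
  have hRo : ∀ j, IsOpen (R j) := by
    intro j
    have : R j = ⋃ k : ℕ, ⋃ _ : j ≤ k, ⋃ γ : G n, ⋃ _ : γ ∈ Gam n,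
        {g | ‖((a ^ k * g * γ : G n) : Mat n) - (g : Mat n)‖ < 1 / ((j : ℝ) + 1)} := by
      ext g
      simp only [Set.mem_iUnion, R]
      constructor
      · rintro ⟨k, hk, γ, hγ, h⟩
        exact ⟨k, hk, γ, hγ, h⟩
      · rintro ⟨k, hk, γ, hγ, h⟩
        exact ⟨k, hk, γ, hγ, h⟩
    rw [this]
    refine isOpen_iUnion fun k => isOpen_iUnion fun _ => isOpen_iUnion fun γ => isOpen_iUnion fun _ => ?_
    refine isOpen_lt ?_ continuous_const
    exact ((continuous_coe.comp ((continuous_const.mul continuous_id).mul continuous_const)).sub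
      continuous_coe).norm
  have hRd : ∀ j, Dense (R j) := by
    intro j
    rw [dense_iff_inter_open]
    intro W hW hWne
    obtain ⟨g₀, hg₀⟩ := hWne
    have hj : 0 < 1 / (2 * ((j : ℝ) + 1)) := by positivity
    have hU : IsOpen (W ∩ {g : G n | ‖(g : Mat n) - (g₀ : Mat n)‖ < 1 / (2 * ((j : ℝ) + 1))}) :=
      hW.inter (isOpen_lt ((continuous_coe.sub continuous_const).norm) continuous_const)
    have hUne : (W ∩ {g : G n | ‖(g : Mat n) - (g₀ : Mat n)‖ < 1 / (2 * ((j : ℝ) + 1))}).Nonempty :=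
      ⟨g₀, hg₀, by
        change ‖(g₀ : Mat n) - (g₀ : Mat n)‖ < 1 / (2 * ((j : ℝ) + 1))
        rw [sub_self, norm_zero]; exact hj⟩
    obtain ⟨k, hk, g, hg, γ, hγ, hgγ⟩ := pig n a _ hU hUne j
    refine ⟨g, hg.1, k, hk, γ, hγ, ?_⟩
    have h1 : ‖((a ^ k * g * γ : G n) : Mat n) - (g₀ : Mat n)‖ < 1 / (2 * ((j : ℝ) + 1)) := hgγ.2
    have h2 : ‖(g : Mat n) - (g₀ : Mat n)‖ < 1 / (2 * ((j : ℝ) + 1)) := hg.2
    have h3 : ((a ^ k * g * γ : G n) : Mat n) - (g : Mat n) =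
        (((a ^ k * g * γ : G n) : Mat n) - (g₀ : Mat n)) - ((g : Mat n) - (g₀ : Mat n)) := by abel
    rw [h3]
    calc _ ≤ ‖((a ^ k * g * γ : G n) : Mat n) - (g₀ : Mat n)‖ + ‖(g : Mat n) - (g₀ : Mat n)‖ := norm_sub_le _ _
      _ < 1 / (2 * ((j : ℝ) + 1)) + 1 / (2 * ((j : ℝ) + 1)) := add_lt_add h1 h2
      _ = 1 / ((j : ℝ) + 1) := by field_simp; ring
  have hRrec : ∀ g : G n, (∀ j, g ∈ R j) → Rec a g := by
    intro g hg U hU N
    obtain ⟨ε, hε, hball⟩ := nhds_ball g hU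
    obtain ⟨m, hm⟩ := exists_nat_one_div_lt hε
    obtain ⟨k, hk, γ, hγ, h⟩ := hg (max N m)
    refine ⟨k, (le_max_left _ _).trans hk, γ, hγ, hball _ (h.trans_le ?_)⟩
    have h1 : 1 / (((max N m : ℕ) : ℝ) + 1) ≤ 1 / ((m : ℝ) + 1) := by
      apply one_div_le_one_div_of_le (by positivity)
      have : (m : ℝ) ≤ ((max N m : ℕ) : ℝ) := by exact_mod_cast le_max_right _ _
      linarith
    exact h1.trans hm.le
  -- the homeomorphism
  let e : G n × ℝ ≃ₜ G n × ℝ :=
    { toFun := fun p => (L p.2 * p.1, p.2)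
      invFun := fun p => ((L p.2)⁻¹ * p.1, p.2)
      left_inv := fun p => by simp
      right_inv := fun p => by simp
      continuous_toFun := ((hL.comp continuous_snd).mul continuous_fst).prodMk continuous_snd
      continuous_invFun := ((hL.comp continuous_snd).inv.mul continuous_fst).prodMk continuous_snd }
  have hopen1 : ∀ j, IsOpen ((fun p : G n × ℝ => p.1) ⁻¹' (R j)) := fun j => (hRo j).preimage continuous_fst
  have hdense1 : ∀ j, Dense ((fun p : G n × ℝ => p.1) ⁻¹' (R j)) := fun j =>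
    (hRd j).preimage isOpenMap_fst
  have hopen2 : ∀ j, IsOpen (e ⁻¹' ((fun p : G n × ℝ => p.1) ⁻¹' (R j))) := fun j =>
    (hopen1 j).preimage e.continuous
  have hdense2 : ∀ j, Dense (e ⁻¹' ((fun p : G n × ℝ => p.1) ⁻¹' (R j))) := fun j =>
    (hdense1 j).preimage e.isOpenMap
  have hall := dense_iInter_of_isOpen_nat
    (f := fun j => ((fun p : G n × ℝ => p.1) ⁻¹' (R j)) ∩ (e ⁻¹' ((fun p : G n × ℝ => p.1) ⁻¹' (R j))))
    (fun j => (hopen1 j).inter (hopen2 j)) (fun j => (hdense1 j).inter_of_isOpen_left (hdense2 j) (hopen1 j))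
  refine hall.mono ?_
  intro p hp
  rw [Set.mem_iInter] at hp
  exact ⟨hRrec _ fun j => (hp j).1, hRrec _ fun j => (hp j).2⟩

theorem fin_stmt : FinStmt := by
  intro n hn A hA hA1 K hK ε hε
  obtain ⟨u, C, hu⟩ := tub n hn
  -- a direction
  let i₀ : Fin n := ⟨0, by omega⟩
  let i₁ : Fin n := ⟨1, by omega⟩
  have h01 : i₀ ≠ i₁ := by
    intro h
    have := congrArg Fin.val h
    simp [i₀, i₁] at this
  let H : Fin n → ℝ := fun i => (if i = i₀ then 1 else 0) - (if i = i₁ then 1 else 0)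
  have hH : ∑ i, H i = 0 := by
    simp only [H, Finset.sum_sub_distrib, Finset.sum_ite_eq', Finset.mem_univ, if_true, sub_self]
  have hH0 : H ≠ 0 := by
    intro h
    have := congrFun h i₀
    simp [H, h01] at this
  -- the compact set in G
  have hK' : IsCompact ((fun a : A => (a : G n)) '' K) := hK.image continuous_subtype_val
  have hKD : ((fun a : A => (a : G n)) '' K) ⊆ D n := by
    rintro _ ⟨a, -, rfl⟩
    exact hA a.2
  obtain ⟨κ, hκ, α, hclose, hact⟩ := inv_stmt n u C hn hu H hH _ hK' hKD ε hε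
  let ι : A → D n := fun a => ⟨a, hA a.2⟩
  have hι : Continuous ι := continuous_subtype_val.subtype_mk _
  refine ⟨⟨fun a => α.act (ι a), ?_, ?_, ?_⟩, ?_, ?_⟩
  · intro x
    exact α.act_one x
  · intro a b x
    exact α.act_mul (ι a) (ι b) x
  · intro a g
    obtain ⟨Φ, hΦ, hev⟩ := α.smooth (ι a) g
    refine ⟨Φ, hΦ, ?_⟩
    have hc : Tendsto (fun p : A × G n => (ι p.1, p.2)) (𝓝 (a, g)) (𝓝 (ι a, g)) :=
      ((hι.comp continuous_fst).prodMk continuous_snd).tendsto (a, g)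
    exact hc.eventually hev
  · intro a ha
    exact hclose (ι a) ⟨a, ha, rfl⟩
  · intro ρ h hh hs hconj
    refine rig rec_stmt n u C hn hu H hH hH0 κ hκ A hA hA1 ρ h hh hs ?_
    intro a g
    have h1 := hconj a (mk (shear H hH κ u g))
    have h2 := hact (ι a) g
    rw [← h1]
    exact congrArg h h2.symm

end Pool.Agent.CRT
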