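import Mathlib

/-!
# MP_6bfaa3_an: definitions (actions on SL(n,R)/SL(n,Z))
-/

open Matrix Topology Filter
open scoped ContDiff Matrix.Norms.Operator

namespace Pool.Agent.CRT

/-- Real square matrices. -/
abbrev Mat (n : ℕ) := Matrix (Fin n) (Fin n) ℝ

/-- The Lie group SL(n,R), a closed submanifold of the space of matrices. -/
abbrev G (n : ℕ) := Matrix.SpecialLinearGroup (Fin n) ℝ

/-- The lattice SL(n,Z) in SL(n,R). -/
def Gam (n : ℕ) : Subgroup (G n) :=
  (Matrix.SpecialLinearGroup.map (n := Fin n) (Int.castRingHom ℝ)).range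

/-- The homogeneous space SL(n,R)/SL(n,Z). -/
abbrev X (n : ℕ) := G n ⧸ Gam n

/-- The point g SL(n,Z) of the homogeneous space. -/
def mk {n : ℕ} (g : G n) : X n := QuotientGroup.mk g

/-- The split Cartan subgroup: diagonal matrices with positive entries. -/
def D (n : ℕ) : Subgroup (G n) where
  carrier := {g | (∀ i j, i ≠ j → (g : Mat n) i j = 0) ∧ ∀ i, 0 < (g : Mat n) i i}
  one_mem' := by
    refine ⟨fun i j h => ?_, fun i => ?_⟩
    · simp [h]
    · simp
  mul_mem' := by
    rintro a b ⟨ha, ha'⟩ ⟨hb, hb'⟩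
    have key : ∀ i j, ((a * b : G n) : Mat n) i j = (a : Mat n) i i * (b : Mat n) i j := by
      intro i j
      rw [Matrix.SpecialLinearGroup.coe_mul, Matrix.mul_apply]
      apply Finset.sum_eq_single i
      · intro k _ hk
        rw [ha i k (Ne.symm hk), zero_mul]
      · intro h
        exact absurd (Finset.mem_univ i) h
    refine ⟨fun i j h => ?_, fun i => ?_⟩
    · rw [key, hb i j h, mul_zero]
    · rw [key]
      exact mul_pos (ha' i) (hb' i)
  inv_mem' := by
    rintro a ⟨ha, ha'⟩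
    have hd : (a : Mat n) = Matrix.diagonal (fun i => (a : Mat n) i i) := by
      ext i j
      by_cases h : i = j
      · subst h
        simp
      · simp [h, ha i j h]
    have key : ((a⁻¹ : G n) : Mat n) = Matrix.diagonal (fun i => ((a : Mat n) i i)⁻¹) := by
      have h1 : (a : Mat n) * ((a⁻¹ : G n) : Mat n) = 1 := by
        rw [← Matrix.SpecialLinearGroup.coe_mul, mul_inv_cancel]
        rfl
      have h2 : Matrix.diagonal (fun i => ((a : Mat n) i i)⁻¹) * (a : Mat n) = 1 := by
        conv_lhs => rw [hd]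
        rw [Matrix.diagonal_mul_diagonal]
        rw [← Matrix.diagonal_one]
        congr 1
        funext i
        simp only [Matrix.diagonal_apply_eq]
        exact inv_mul_cancel₀ (ha' i).ne'
      calc ((a⁻¹ : G n) : Mat n)
          = (Matrix.diagonal (fun i => ((a : Mat n) i i)⁻¹) * (a : Mat n)) * ((a⁻¹ : G n) : Mat n) := by
            rw [h2, one_mul]
        _ = Matrix.diagonal (fun i => ((a : Mat n) i i)⁻¹) := by
            rw [mul_assoc, h1, mul_one]
    refine ⟨fun i j h => ?_, fun i => ?_⟩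
    · rw [key]
      simp [h]
    · rw [key]
      simp [ha' i]

/-- The matrix valued map Phi, defined on the space of all matrices, is near g in SL(n,R) a local lift
to SL(n,R) of the self map f of SL(n,R)/SL(n,Z). -/
def IsLift {n : ℕ} (f : X n → X n) (Φ : Mat n → Mat n) (g : G n) : Prop :=
  ∀ᶠ g' : G n in 𝓝 g, ∃ k : G n, (k : Mat n) = Φ (g' : Mat n) ∧ f (mk g') = mk k

/-- A self map of SL(n,R)/SL(n,Z) is smooth if near every point it has a smooth local lift. -/
def Smooth {n : ℕ} (f : X n → X n) : Prop :=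
  ∀ g : G n, ∃ Φ : Mat n → Mat n, ContDiffAt ℝ ∞ Φ (g : Mat n) ∧ IsLift f Φ g

/-- A smooth action of the subgroup A of SL(n,R) on SL(n,R)/SL(n,Z): smooth as a map
on the product. -/
structure SmoothAction {n : ℕ} (A : Subgroup (G n)) where
  act : A → X n → X n
  act_one : ∀ x, act 1 x = x
  act_mul : ∀ a b x, act (a * b) x = act a (act b x)
  smooth : ∀ (a : A) (g : G n), ∃ Φ : Mat n × Mat n → Mat n,
    ContDiffAt ℝ ∞ Φ (((a : G n) : Mat n), (g : Mat n)) ∧
    ∀ᶠ p : A × G n in 𝓝 (a, g), ∃ k : G n,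
      (k : Mat n) = Φ (((p.1 : G n) : Mat n), (p.2 : Mat n)) ∧ act p.1 (mk p.2) = mk k

/-- Two self maps of SL(n,R)/SL(n,Z) are eps-close in the uniform C^1 distance of the right invariant
framing: near every point they have C^1 local lifts whose values differ by an element eps-close to 1,
and whose derivatives along the right invariant vector fields, read in the right invariant framing,
differ by at most eps. -/
def C1Close {n : ℕ} (ε : ℝ) (f₁ f₂ : X n → X n) : Prop :=
  ∀ g : G n, ∃ Φ₁ Φ₂ : Mat n → Mat n,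
    ContDiffAt ℝ 1 Φ₁ (g : Mat n) ∧ ContDiffAt ℝ 1 Φ₂ (g : Mat n) ∧
    IsLift f₁ Φ₁ g ∧ IsLift f₂ Φ₂ g ∧
    ‖Φ₁ g * (Φ₂ g)⁻¹ - 1‖ < ε ∧
    ∀ Y : Mat n, Y.trace = 0 → ‖Y‖ ≤ 1 →
      ‖fderiv ℝ Φ₁ (g : Mat n) (Y * g) * (Φ₁ g)⁻¹ - fderiv ℝ Φ₂ (g : Mat n) (Y * g) * (Φ₂ g)⁻¹‖ < ε

end Pool.Agent.CRT
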