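import Pool.Agent.Helper55_CRT.Rig3

/-!
# MP_6bfaa3_an: module INV, part 1: the inverse of the shear
-/

open Matrix Topology Filter
open scoped ContDiff Matrix.Norms.Operator

namespace Pool.Agent.CRT

variable {n : ℕ}

theorem tauMat_add (H : Fin n → ℝ) (s t : ℝ) : tauMat H (s + t) = tauMat H s * tauMat H t := by
  rw [tauMat, tauMat, tauMat, Matrix.diagonal_mul_diagonal]
  congr 1
  funext i
  rw [add_mul, Real.exp_add]

theorem tauMat_zero (H : Fin n → ℝ) : tauMat H 0 = 1 := by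
  rw [tauMat]
  have : (fun i => Real.exp (0 * H i)) = fun _ => (1 : ℝ) := by
    funext i; simp
  rw [this]
  exact Matrix.diagonal_one

theorem tauMat_neg_mul (H : Fin n → ℝ) (s : ℝ) : tauMat H (-s) * tauMat H s = 1 := by
  rw [← tauMat_add, neg_add_cancel, tauMat_zero]

theorem tauMat_mul_neg (H : Fin n → ℝ) (s : ℝ) : tauMat H s * tauMat H (-s) = 1 := by
  rw [← tauMat_add, add_neg_cancel, tauMat_zero]

theorem tau_coe (H : Fin n → ℝ) (hH : ∑ i, H i = 0) (s : ℝ) : ((tau H hH s : G n) : Mat n) = tauMat H s :=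
  rfl

theorem tau_add (H : Fin n → ℝ) (hH : ∑ i, H i = 0) (s t : ℝ) :
    tau H hH (s + t) = tau H hH s * tau H hH t := by
  apply Subtype.ext
  exact tauMat_add H s t

theorem tau_zero (H : Fin n → ℝ) (hH : ∑ i, H i = 0) : tau H hH 0 = 1 := by
  apply Subtype.ext
  exact tauMat_zero H

theorem tau_mem (H : Fin n → ℝ) (hH : ∑ i, H i = 0) (s : ℝ) : tau H hH s ∈ D n := by
  refine ⟨fun i j h => ?_, fun i => ?_⟩
  · rw [tau_coe, tauMat, Matrix.diagonal_apply_ne _ h]
  · rw [tau_coe, tauMat, Matrix.diagonal_apply_eq]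
    exact Real.exp_pos _

theorem hasDerivAt_tauMat (H : Fin n → ℝ) (s : ℝ) :
    HasDerivAt (tauMat H) (Matrix.diagonal H * tauMat H s) s := by
  have h1 : HasDerivAt (fun s : ℝ => fun i : Fin n => Real.exp (s * H i))
      (fun i => Real.exp (s * H i) * (1 * H i)) s := by
    rw [hasDerivAt_pi]
    intro i
    exact ((hasDerivAt_id s).mul_const (H i)).exp
  have h2 := ((Matrix.diagonalLinearMap (Fin n) ℝ ℝ).toContinuousLinearMap).hasFDerivAt.comp_hasDerivAt s h1
  refine h2.congr_deriv ?_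
  change Matrix.diagonal (fun i => Real.exp (s * H i) * (1 * H i)) = _
  rw [tauMat, Matrix.diagonal_mul_diagonal]
  congr 1
  funext i
  ring

theorem diag_comm {a b : G n} (ha : a ∈ D n) (hb : b ∈ D n) : a * b = b * a := by
  have hda : (a : Mat n) = Matrix.diagonal (fun i => (a : Mat n) i i) := by
    ext i j
    by_cases h : i = j
    · subst h; simp
    · simp [h, ha.1 i j h]
  have hdb : (b : Mat n) = Matrix.diagonal (fun i => (b : Mat n) i i) := by
    ext i j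
    by_cases h : i = j
    · subst h; simp
    · simp [h, hb.1 i j h]
  apply Subtype.ext
  change ((a * b : G n) : Mat n) = ((b * a : G n) : Mat n)
  rw [Matrix.SpecialLinearGroup.coe_mul, Matrix.SpecialLinearGroup.coe_mul]
  generalize (a : Mat n) = A at *
  generalize (b : Mat n) = B at *
  rw [hda, hdb, Matrix.diagonal_mul_diagonal, Matrix.diagonal_mul_diagonal]
  congr 1
  funext i
  ring

/-- derivative of s ↦ u (tau(-s) g) -/
theorem hasDerivAt_u_tau {u : Mat n → ℝ} (hu : ∀ g : G n, ContDiffAt ℝ 1 u (g : Mat n))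
    (H : Fin n → ℝ) (hH : ∑ i, H i = 0) (g : G n) (s : ℝ) :
    HasDerivAt (fun s : ℝ => u (tauMat H (-s) * (g : Mat n)))
      (-(fderiv ℝ u (tauMat H (-s) * (g : Mat n)) (Matrix.diagonal H * (tauMat H (-s) * (g : Mat n))))) s := by
  have h0 : tauMat H (-s) * (g : Mat n) = ((tau H hH (-s) * g : G n) : Mat n) := by
    rw [Matrix.SpecialLinearGroup.coe_mul, tau_coe]
  have h1 : HasDerivAt (fun s : ℝ => tauMat H (-s)) ((-1 : ℝ) • (Matrix.diagonal H * tauMat H (-s))) s :=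
    HasDerivAt.scomp (h := fun s : ℝ => -s) s (hasDerivAt_tauMat H (-s)) (hasDerivAt_neg s)
  have h2 : HasDerivAt (fun s : ℝ => tauMat H (-s) * (g : Mat n))
      (((-1 : ℝ) • (Matrix.diagonal H * tauMat H (-s))) * (g : Mat n)) s := h1.mul_const _
  have h3 : HasFDerivAt u (fderiv ℝ u (tauMat H (-s) * (g : Mat n))) (tauMat H (-s) * (g : Mat n)) := by
    rw [h0]
    exact ((hu _).differentiableAt one_ne_zero).hasFDerivAt
  have h4 := h3.comp_hasDerivAt s h2
  refine h4.congr_deriv ?_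
  rw [smul_mul_assoc, map_smul, mul_assoc, neg_one_smul]
  rfl

theorem tube_lip {u : Mat n → ℝ} {C : ℝ} (hu : Tube n u C)
    (H : Fin n → ℝ) (hH : ∑ i, H i = 0) (g : G n) (s t : ℝ) :
    |u (tauMat H (-s) * (g : Mat n)) - u (tauMat H (-t) * (g : Mat n))| ≤
      C * ‖Matrix.diagonal H‖ * |s - t| := by
  have hb : ∀ x ∈ Set.univ, ‖-(fderiv ℝ u (tauMat H (-x) * (g : Mat n))
      (Matrix.diagonal H * (tauMat H (-x) * (g : Mat n))))‖ ≤ C * ‖Matrix.diagonal H‖ := by
    intro x _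
    have h0 : tauMat H (-x) * (g : Mat n) = ((tau H hH (-x) * g : G n) : Mat n) := by
      rw [Matrix.SpecialLinearGroup.coe_mul, tau_coe]
    rw [norm_neg, Real.norm_eq_abs, h0]
    exact hu.bound' _ _
  have h1 := Convex.norm_image_sub_le_of_norm_hasDerivWithin_le (s := Set.univ)
    (f := fun s : ℝ => u (tauMat H (-s) * (g : Mat n)))
    (fun x _ => (hasDerivAt_u_tau hu.c1 H hH g x).hasDerivWithinAt) hb convex_univ
    (Set.mem_univ t) (Set.mem_univ s)
  simpa only [Real.norm_eq_abs] using h1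

theorem exists_sig {u : Mat n → ℝ} {C : ℝ} (hu : Tube n u C)
    (H : Fin n → ℝ) (hH : ∑ i, H i = 0) {κ : ℝ} (hκ : 0 < κ)
    (hκ2 : κ * (C * ‖Matrix.diagonal H‖) ≤ 1 / 2) (g : G n) :
    ∃ s : ℝ, s = κ * u (tauMat H (-s) * (g : Mat n)) ∧
      ∀ t : ℝ, t = κ * u (tauMat H (-t) * (g : Mat n)) → t = s := by
  have hL : LipschitzWith (1 / 2) (fun s : ℝ => κ * u (tauMat H (-s) * (g : Mat n))) := by
    apply LipschitzWith.of_dist_le_mul
    intro s t
    rw [Real.dist_eq, Real.dist_eq, ← mul_sub, abs_mul, abs_of_pos hκ]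
    have h1 := tube_lip hu H hH g s t
    calc κ * |u (tauMat H (-s) * (g : Mat n)) - u (tauMat H (-t) * (g : Mat n))|
        ≤ κ * (C * ‖Matrix.diagonal H‖ * |s - t|) := mul_le_mul_of_nonneg_left h1 hκ.le
      _ = κ * (C * ‖Matrix.diagonal H‖) * |s - t| := by ring
      _ ≤ 1 / 2 * |s - t| := mul_le_mul_of_nonneg_right hκ2 (abs_nonneg _)
      _ = ((1 / 2 : NNReal) : ℝ) * |s - t| := by norm_num
  have hC : ContractingWith (1 / 2) (fun s : ℝ => κ * u (tauMat H (-s) * (g : Mat n))) :=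
    ⟨by rw [← NNReal.coe_lt_coe]; norm_num, hL⟩
  refine ⟨ContractingWith.fixedPoint _ hC, ?_, ?_⟩
  · exact (hC.fixedPoint_isFixedPt).symm
  · intro t ht
    exact hC.fixedPoint_unique ht.symm

/-- the data: a tube function, a direction and a small constant -/
structure Dat (n : ℕ) where
  u : Mat n → ℝ
  C : ℝ
  hu : Tube n u C
  H : Fin n → ℝ
  hH : ∑ i, H i = 0
  κ : ℝ
  hκ : 0 < κ
  hκ2 : κ * (C * ‖Matrix.diagonal H‖) ≤ 1 / 2

namespace Dat

variable (d : Dat n)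

noncomputable def sig (g : G n) : ℝ := (exists_sig d.hu d.H d.hH d.hκ d.hκ2 g).choose

theorem sig_spec (g : G n) : d.sig g = d.κ * d.u (tauMat d.H (-(d.sig g)) * (g : Mat n)) :=
  (exists_sig d.hu d.H d.hH d.hκ d.hκ2 g).choose_spec.1

theorem sig_unique (g : G n) {t : ℝ} (ht : t = d.κ * d.u (tauMat d.H (-t) * (g : Mat n))) : t = d.sig g :=
  (exists_sig d.hu d.H d.hH d.hκ d.hκ2 g).choose_spec.2 t ht

noncomputable def sh (g : G n) : G n := shear d.H d.hH d.κ d.u g

noncomputable def hi (g : G n) : G n := tau d.H d.hH (-(d.sig g)) * g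

theorem sh_hi (g : G n) : d.sh (d.hi g) = g := by
  have h1 : ((d.hi g : G n) : Mat n) = tauMat d.H (-(d.sig g)) * (g : Mat n) := by
    rw [hi, Matrix.SpecialLinearGroup.coe_mul, tau_coe]
  rw [sh, shear, h1, ← d.sig_spec g, hi, ← mul_assoc, ← tau_add, add_neg_cancel, tau_zero, one_mul]

theorem hi_sh (g : G n) : d.hi (d.sh g) = g := by
  have h1 : d.κ * d.u (g : Mat n) = d.sig (d.sh g) := by
    apply d.sig_unique
    congr 2
    rw [sh, shear_coe, shearM, ← mul_assoc, tauMat_neg_mul, one_mul]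
  rw [hi, ← h1, sh, shear, ← mul_assoc, ← tau_add, neg_add_cancel, tau_zero, one_mul]

theorem sig_eq (g : G n) : d.sig g = d.κ * d.u ((d.hi g : G n) : Mat n) := by
  conv_lhs => rw [d.sig_spec g]
  rw [hi, Matrix.SpecialLinearGroup.coe_mul, tau_coe]

theorem abs_sig_le (g : G n) : |d.sig g| ≤ d.κ * d.C := by
  rw [d.sig_eq, abs_mul, abs_of_pos d.hκ]
  exact mul_le_mul_of_nonneg_left (d.hu.bound _) d.hκ.le

theorem sig_mul_gam (g γ : G n) (hγ : γ ∈ Gam n) : d.sig (g * γ) = d.sig g := by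
  symm
  apply d.sig_unique
  have h1 : tauMat d.H (-(d.sig g)) * ((g * γ : G n) : Mat n) = ((d.hi g * γ : G n) : Mat n) := by
    rw [Matrix.SpecialLinearGroup.coe_mul, Matrix.SpecialLinearGroup.coe_mul, hi,
      Matrix.SpecialLinearGroup.coe_mul, tau_coe, mul_assoc]
  rw [h1, d.hu.inv _ _ hγ]
  exact d.sig_eq g

theorem hi_mul_gam (g γ : G n) (hγ : γ ∈ Gam n) : d.hi (g * γ) = d.hi g * γ := by
  rw [hi, hi, d.sig_mul_gam g γ hγ, mul_assoc]

theorem sh_mul_gam (g γ : G n) (hγ : γ ∈ Gam n) : d.sh (g * γ) = d.sh g * γ :=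
  shear_mul_gam d.H d.hH d.κ g γ (d.hu.inv g γ hγ)

theorem continuous_sig : Continuous d.sig := by
  rw [continuous_iff_continuousAt]
  intro g₀
  -- |sig g - sig g₀| ≤ 2 κ |u (tau (-sig g₀) g) - u (tau (-sig g₀) g₀)|
  have hb : ∀ g : G n, |d.sig g - d.sig g₀| ≤
      2 * (d.κ * |d.u (tauMat d.H (-(d.sig g₀)) * (g : Mat n)) -
        d.u (tauMat d.H (-(d.sig g₀)) * (g₀ : Mat n))|) := by
    intro g
    have h1 := tube_lip d.hu d.H d.hH g (d.sig g) (d.sig g₀)
    have h2 : d.sig g - d.sig g₀ =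
        d.κ * (d.u (tauMat d.H (-(d.sig g)) * (g : Mat n)) - d.u (tauMat d.H (-(d.sig g₀)) * (g : Mat n))) +
        d.κ * (d.u (tauMat d.H (-(d.sig g₀)) * (g : Mat n)) -
          d.u (tauMat d.H (-(d.sig g₀)) * (g₀ : Mat n))) := by
      conv_lhs => rw [d.sig_spec g, d.sig_spec g₀]
      ring
    have h3 : |d.sig g - d.sig g₀| ≤ d.κ * (d.C * ‖Matrix.diagonal d.H‖) * |d.sig g - d.sig g₀| +
        d.κ * |d.u (tauMat d.H (-(d.sig g₀)) * (g : Mat n)) -
          d.u (tauMat d.H (-(d.sig g₀)) * (g₀ : Mat n))| := by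
      have e1 := mul_le_mul_of_nonneg_left h1 d.hκ.le
      have e2 := abs_add_le (d.κ * (d.u (tauMat d.H (-(d.sig g)) * (g : Mat n)) - d.u (tauMat d.H (-(d.sig g₀)) * (g : Mat n)))) (d.κ * (d.u (tauMat d.H (-(d.sig g₀)) * (g : Mat n)) - d.u (tauMat d.H (-(d.sig g₀)) * (g₀ : Mat n))))
      have e3 := abs_mul d.κ (d.u (tauMat d.H (-(d.sig g)) * (g : Mat n)) - d.u (tauMat d.H (-(d.sig g₀)) * (g : Mat n)))
      have e4 := abs_mul d.κ (d.u (tauMat d.H (-(d.sig g₀)) * (g : Mat n)) - d.u (tauMat d.H (-(d.sig g₀)) * (g₀ : Mat n)))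
      rw [abs_of_pos d.hκ] at e3 e4
      rw [e3, e4, ← h2] at e2
      linarith
    have h4 : d.κ * (d.C * ‖Matrix.diagonal d.H‖) * |d.sig g - d.sig g₀| ≤ 1 / 2 * |d.sig g - d.sig g₀| :=
      mul_le_mul_of_nonneg_right d.hκ2 (abs_nonneg _)
    linarith
  have hc : ContinuousAt (fun g : G n => d.u (tauMat d.H (-(d.sig g₀)) * (g : Mat n))) g₀ := by
    have h1 : ContinuousAt d.u (tauMat d.H (-(d.sig g₀)) * (g₀ : Mat n)) := by
      have h0 : tauMat d.H (-(d.sig g₀)) * (g₀ : Mat n) = ((tau d.H d.hH (-(d.sig g₀)) * g₀ : G n) : Mat n) := by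
        rw [Matrix.SpecialLinearGroup.coe_mul, tau_coe]
      rw [h0]
      exact (d.hu.c1 _).continuousAt
    exact ContinuousAt.comp (f := fun g : G n => tauMat d.H (-(d.sig g₀)) * (g : Mat n)) (g := d.u) h1
      (continuous_const.mul continuous_coe).continuousAt
  have ht : Tendsto (fun g : G n => 2 * (d.κ * |d.u (tauMat d.H (-(d.sig g₀)) * (g : Mat n)) -
        d.u (tauMat d.H (-(d.sig g₀)) * (g₀ : Mat n))|)) (𝓝 g₀) (𝓝 0) := by
    have h1 := ((hc.tendsto.sub_const (d.u (tauMat d.H (-(d.sig g₀)) * (g₀ : Mat n)))).abs.const_mul d.κ).const_mul 2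
    simpa using h1
  have h2 : Tendsto (fun g : G n => d.sig g - d.sig g₀) (𝓝 g₀) (𝓝 0) :=
    squeeze_zero_norm (fun g => by rw [Real.norm_eq_abs]; exact hb g) ht
  have h3 := h2.add_const (d.sig g₀)
  simp only [sub_add_cancel, zero_add] at h3
  exact h3

theorem continuous_hi : Continuous d.hi := by
  have h1 : Continuous (fun s : ℝ => tau d.H d.hH s) := by
    apply Topology.IsInducing.subtypeVal.continuous_iff.mpr
    exact (contDiff_tauMat (m := 0) d.H).continuous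
  exact (h1.comp (continuous_neg.comp d.continuous_sig)).mul continuous_id

/-- the singular set -/
def Sing (g : G n) : Prop := ∃ γ ∈ Gam n, g * γ ∈ D n

theorem sing_left {a g : G n} (ha : a ∈ D n) : Sing (a * g) ↔ Sing g := by
  constructor
  · rintro ⟨γ, hγ, h⟩
    refine ⟨γ, hγ, ?_⟩
    have := (D n).mul_mem ((D n).inv_mem ha) h
    rwa [mul_assoc, inv_mul_cancel_left] at this
  · rintro ⟨γ, hγ, h⟩
    refine ⟨γ, hγ, ?_⟩
    rw [mul_assoc]
    exact (D n).mul_mem ha h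

theorem sing_hi (g : G n) : Sing (d.hi g) ↔ Sing g := sing_left (tau_mem _ _ _)

theorem invertible_of_ne {f : ℝ →L[ℝ] ℝ} (h : f 1 ≠ 0) : f.IsInvertible := by
  refine ⟨ContinuousLinearEquiv.smulLeft (Units.mk0 (f 1) h), ?_⟩
  ext
  simp [ContinuousLinearEquiv.smulLeft, Units.smul_def]

/-- local smooth version of sig off the singular set, with the derivative identity -/
theorem sig_smooth {g : G n} (hg : ¬ Sing g) :
    ∃ σ : Mat n → ℝ, ContDiffAt ℝ ∞ σ (g : Mat n) ∧ (∀ᶠ g' : G n in 𝓝 g, σ (g' : Mat n) = d.sig g') ∧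
      ∀ Y : Mat n, |fderiv ℝ σ (g : Mat n) (Y * (g : Mat n))| ≤
        2 * (d.κ * d.C * ‖tauMat d.H (-(d.sig g)) * Y * tauMat d.H (d.sig g)‖) := by
  set s₀ := d.sig g with hs₀
  have hg1 : ¬ Sing (d.hi g) := fun h => hg ((d.sing_hi g).mp h)
  have hgm : ((d.hi g : G n) : Mat n) = tauMat d.H (-s₀) * (g : Mat n) := by
    rw [hi, Matrix.SpecialLinearGroup.coe_mul, tau_coe]
  have husm : ContDiffAt ℝ ∞ d.u (tauMat d.H (-s₀) * (g : Mat n)) := by
    rw [← hgm]
    exact d.hu.smooth _ hg1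
  let P : Mat n × ℝ → ℝ := fun p => p.2 - d.κ * d.u (tauMat d.H (-p.2) * p.1)
  have hinner : ContDiff ℝ ∞ (fun p : Mat n × ℝ => tauMat d.H (-p.2) * p.1) := by
    have h1 : ContDiff ℝ ∞ (fun p : Mat n × ℝ => tauMat d.H (-p.2)) :=
      (contDiff_tauMat d.H).comp contDiff_snd.neg
    exact h1.mul contDiff_fst
  have hucomp : ContDiffAt ℝ ∞ (fun p : Mat n × ℝ => d.u (tauMat d.H (-p.2) * p.1)) ((g : Mat n), s₀) :=
    ContDiffAt.comp (f := fun p : Mat n × ℝ => tauMat d.H (-p.2) * p.1) (g := d.u) _ husm hinner.contDiffAt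
  have hP : ContDiffAt ℝ ∞ P ((g : Mat n), s₀) := contDiffAt_snd.sub (contDiffAt_const.mul hucomp)
  -- derivative in the second variable
  have hPd : HasFDerivAt P (fderiv ℝ P ((g : Mat n), s₀)) ((g : Mat n), s₀) :=
    (hP.differentiableAt (by simp)).hasFDerivAt
  have hder1 : HasDerivAt (fun s : ℝ => P ((g : Mat n), s))
      ((fderiv ℝ P ((g : Mat n), s₀) ∘L .inr ℝ (Mat n) ℝ) 1) s₀ := by
    have h1 : HasDerivAt (fun s : ℝ => ((g : Mat n), s)) ((0 : Mat n), (1 : ℝ)) s₀ :=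
      (hasDerivAt_const s₀ (g : Mat n)).prodMk (hasDerivAt_id s₀)
    exact hPd.comp_hasDerivAt s₀ h1
  have hder2 : HasDerivAt (fun s : ℝ => P ((g : Mat n), s))
      (1 - d.κ * (-(fderiv ℝ d.u (tauMat d.H (-s₀) * (g : Mat n))
        (Matrix.diagonal d.H * (tauMat d.H (-s₀) * (g : Mat n)))))) s₀ :=
    (hasDerivAt_id s₀).sub ((hasDerivAt_u_tau d.hu.c1 d.H d.hH g s₀).const_mul d.κ)
  have hval := hder1.unique hder2
  have hbd : |fderiv ℝ d.u (tauMat d.H (-s₀) * (g : Mat n))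
        (Matrix.diagonal d.H * (tauMat d.H (-s₀) * (g : Mat n)))| ≤ d.C * ‖Matrix.diagonal d.H‖ := by
    rw [← hgm]
    exact d.hu.bound' _ _
  have hne : (fderiv ℝ P ((g : Mat n), s₀) ∘L .inr ℝ (Mat n) ℝ) 1 ≠ 0 := by
    rw [hval]
    have h1 := abs_le.mp hbd
    have h2 := d.hκ2
    have h3 := d.hκ
    have h4 := mul_le_mul_of_nonneg_left h1.1 h3.le
    intro h
    nlinarith
  have hinv := invertible_of_ne hne
  have hne0 : (∞ : ℕ∞ω) ≠ 0 := by simp
  have hev := hP.eventually_apply_implicitFunction hne0 hinv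
  have hP0 : P ((g : Mat n), s₀) = 0 := by
    change s₀ - d.κ * d.u (tauMat d.H (-s₀) * (g : Mat n)) = 0
    rw [sub_eq_zero]
    exact d.sig_spec g
  rw [hP0] at hev
  refine ⟨hP.implicitFunction hne0 hinv, hP.contDiffAt_implicitFunction hne0 hinv, ?_, ?_⟩
  · have h1 : ∀ᶠ g' : G n in 𝓝 g, P ((g' : Mat n), hP.implicitFunction hne0 hinv (g' : Mat n)) = 0 :=
      continuous_coe.continuousAt.eventually hev
    filter_upwards [h1] with g' h2
    apply d.sig_unique
    exact sub_eq_zero.mp h2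
  · intro Y
    set σ := hP.implicitFunction hne0 hinv with hσ
    have hσ0 : σ (g : Mat n) = s₀ := hP.implicitFunction_apply_self hne0 hinv
    have hσd : HasFDerivAt σ (fderiv ℝ σ (g : Mat n)) (g : Mat n) :=
      ((hP.contDiffAt_implicitFunction hne0 hinv).differentiableAt hne0).hasFDerivAt
    set V := Y * (g : Mat n) with hV
    set σ' := fderiv ℝ σ (g : Mat n) V with hσ'
    -- curve t ↦ g + t V
    have hline : HasDerivAt (fun t : ℝ => (g : Mat n) + t • V) V 0 := by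
      have h2 : HasDerivAt (fun t : ℝ => t • V) ((1 : ℝ) • V) 0 := (hasDerivAt_id (0 : ℝ)).smul_const _
      rw [one_smul] at h2
      exact h2.const_add _
    have hl0 : (g : Mat n) + (0 : ℝ) • V = (g : Mat n) := by rw [zero_smul, add_zero]
    have hσc : HasDerivAt (fun t : ℝ => σ ((g : Mat n) + t • V)) σ' 0 := by
      have h1 : HasFDerivAt σ (fderiv ℝ σ (g : Mat n)) ((g : Mat n) + (0 : ℝ) • V) := by rw [hl0]; exact hσd
      exact h1.comp_hasDerivAt (0 : ℝ) hline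
    -- derivative of tau (-σ) (g + t V)
    have hτ : HasDerivAt (fun t : ℝ => tauMat d.H (-(σ ((g : Mat n) + t • V))))
        ((-σ') • (Matrix.diagonal d.H * tauMat d.H (-s₀))) 0 := by
      have h1 : HasDerivAt (tauMat d.H) (Matrix.diagonal d.H * tauMat d.H (-s₀))
          (-(σ ((g : Mat n) + (0 : ℝ) • V))) := by
        rw [hl0, hσ0]; exact hasDerivAt_tauMat d.H (-s₀)
      exact HasDerivAt.scomp (h := fun t : ℝ => -(σ ((g : Mat n) + t • V))) 0 h1 hσc.neg
    have hin := hτ.mul hline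
    simp only [hl0, hσ0] at hin
    have hu1 : HasFDerivAt d.u (fderiv ℝ d.u (tauMat d.H (-s₀) * (g : Mat n)))
        (tauMat d.H (-(σ ((g : Mat n) + (0 : ℝ) • V))) * ((g : Mat n) + (0 : ℝ) • V)) := by
      rw [hl0, hσ0]
      exact (husm.differentiableAt (by simp)).hasFDerivAt
    have hcomp := (hu1.comp_hasDerivAt (0 : ℝ) hin).const_mul d.κ
    have hevl : ∀ᶠ t : ℝ in 𝓝 0, σ ((g : Mat n) + t • V) =
        d.κ * d.u (tauMat d.H (-(σ ((g : Mat n) + t • V))) * ((g : Mat n) + t • V)) := by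
      have hc : Tendsto (fun t : ℝ => (g : Mat n) + t • V) (𝓝 0) (𝓝 (g : Mat n)) := by
        have := hline.continuousAt.tendsto
        rwa [hl0] at this
      filter_upwards [hc.eventually hev] with t ht
      exact sub_eq_zero.mp ht
    have hfin := hσc.unique (hcomp.congr_of_eventuallyEq hevl)
    -- rewrite the direction
    have hdir : (-σ') • (Matrix.diagonal d.H * tauMat d.H (-s₀)) * (g : Mat n) + tauMat d.H (-s₀) * V =
        ((-σ') • Matrix.diagonal d.H + tauMat d.H (-s₀) * Y * tauMat d.H s₀) *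
          (tauMat d.H (-s₀) * (g : Mat n)) := by
      rw [add_mul, smul_mul_assoc, smul_mul_assoc, mul_assoc (Matrix.diagonal d.H), hV]
      congr 1
      calc tauMat d.H (-s₀) * (Y * (g : Mat n))
          = tauMat d.H (-s₀) * Y * ((tauMat d.H s₀ * tauMat d.H (-s₀)) * (g : Mat n)) := by
            rw [tauMat_mul_neg, one_mul, mul_assoc]
        _ = _ := by simp only [mul_assoc]
    rw [hdir] at hfin
    have hb2 : |fderiv ℝ d.u (tauMat d.H (-s₀) * (g : Mat n))
        (((-σ') • Matrix.diagonal d.H + tauMat d.H (-s₀) * Y * tauMat d.H s₀) *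
          (tauMat d.H (-s₀) * (g : Mat n)))| ≤
        d.C * (|σ'| * ‖Matrix.diagonal d.H‖ + ‖tauMat d.H (-s₀) * Y * tauMat d.H s₀‖) := by
      have h1 := d.hu.bound' (d.hi g) ((-σ') • Matrix.diagonal d.H + tauMat d.H (-s₀) * Y * tauMat d.H s₀)
      rw [hgm] at h1
      refine h1.trans (mul_le_mul_of_nonneg_left ?_ d.hu.pos.le)
      calc ‖(-σ') • Matrix.diagonal d.H + tauMat d.H (-s₀) * Y * tauMat d.H s₀‖
          ≤ ‖(-σ') • Matrix.diagonal d.H‖ + ‖tauMat d.H (-s₀) * Y * tauMat d.H s₀‖ := norm_add_le _ _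
        _ = _ := by rw [norm_smul, norm_neg, Real.norm_eq_abs]
    have h5 : |σ'| ≤ d.κ * (d.C * (|σ'| * ‖Matrix.diagonal d.H‖ +
        ‖tauMat d.H (-s₀) * Y * tauMat d.H s₀‖)) := by
      conv_lhs => rw [hfin]
      rw [abs_mul, abs_of_pos d.hκ]
      exact mul_le_mul_of_nonneg_left hb2 d.hκ.le
    have h6 : d.κ * (d.C * ‖Matrix.diagonal d.H‖) * |σ'| ≤ 1 / 2 * |σ'| :=
      mul_le_mul_of_nonneg_right d.hκ2 (abs_nonneg _)
    nlinarith [h5, h6]

end Dat

end Pool.Agent.CRT
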