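import Pool.Agent.Helper55_CRT.Inv1

/-!
# MP_6bfaa3_an: module INV, part 2: the action
-/

open Matrix Topology Filter
open scoped ContDiff Matrix.Norms.Operator

namespace Pool.Agent.CRT

variable {n : ℕ}

/-- descent of a right equivariant self map of G -/
def desc (φ : G n → G n) (h : ∀ g γ : G n, γ ∈ Gam n → φ (g * γ) = φ g * γ) : X n → X n :=
  Quotient.lift (fun g => mk (φ g)) (by
    intro g g' hgg
    have h1 : g⁻¹ * g' ∈ Gam n := QuotientGroup.leftRel_apply.mp hgg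
    have h2 : g' = g * (g⁻¹ * g') := by rw [mul_inv_cancel_left]
    change mk (φ g) = mk (φ g')
    rw [h2, h g _ h1, mk_mul_gam _ _ h1])

theorem desc_mk (φ : G n → G n) (h : ∀ g γ : G n, γ ∈ Gam n → φ (g * γ) = φ g * γ) (g : G n) :
    desc φ h (mk g) = mk (φ g) := rfl

theorem mk_surj (x : X n) : ∃ g : G n, mk g = x := Quotient.exists_rep x

namespace Dat

variable (d : Dat n)

noncomputable def aa (a : G n) (g : G n) : G n := d.sh (a * d.hi g)

theorem aa_gam (a : G n) (g γ : G n) (hγ : γ ∈ Gam n) : d.aa a (g * γ) = d.aa a g * γ := by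
  rw [aa, aa, d.hi_mul_gam g γ hγ, ← mul_assoc, d.sh_mul_gam _ _ hγ]

theorem aa_one (g : G n) : d.aa 1 g = g := by rw [aa, one_mul, d.sh_hi]

theorem aa_mul (a b g : G n) : d.aa (a * b) g = d.aa a (d.aa b g) := by
  rw [aa, aa, aa, d.hi_sh, mul_assoc]

theorem aa_sh (a g : G n) : d.aa a (d.sh g) = d.sh (a * g) := by rw [aa, d.hi_sh]

/-- near a singular point the action is the unperturbed one -/
theorem aa_sing {a g : G n} (ha : a ∈ D n) (hg : Sing g) :
    ∀ᶠ p : G n × G n in 𝓝 (a, g), p.1 ∈ D n → d.aa p.1 p.2 = p.1 * p.2 := by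
  have h1 := d.hu.local_inv a (d.hi g) ha ((d.sing_hi g).mpr hg)
  have hc : Tendsto (fun p : G n × G n => (p.1, d.hi p.2)) (𝓝 (a, g)) (𝓝 (a, d.hi g)) :=
    (continuous_fst.prodMk (d.continuous_hi.comp continuous_snd)).tendsto (a, g)
  filter_upwards [hc.eventually h1] with p hp hpa
  have h2 := hp hpa
  rw [aa, sh, shear, h2, ← d.sig_eq, ← mul_assoc, diag_comm (tau_mem d.H d.hH _) hpa, mul_assoc, hi,
    ← mul_assoc (tau d.H d.hH _), ← tau_add, add_neg_cancel, tau_zero, one_mul]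

theorem D_comm_tauMat {a : G n} (ha : a ∈ D n) (H : Fin n → ℝ) (hH : ∑ i, H i = 0) (s : ℝ) :
    (a : Mat n) * tauMat H s = tauMat H s * (a : Mat n) := by
  have h := congrArg (fun g : G n => (g : Mat n)) (diag_comm ha (tau_mem H hH s))
  simp only [Matrix.SpecialLinearGroup.coe_mul, tau_coe] at h
  exact h

/-- local formula off the singular set -/
theorem aa_formula {a g : G n} (ha : a ∈ D n) :
    ((d.aa a g : G n) : Mat n) = tauMat d.H
      (d.κ * d.u ((a : Mat n) * (tauMat d.H (-(d.sig g)) * (g : Mat n))) - d.sig g) *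
        ((a : Mat n) * (g : Mat n)) := by
  have h1 : ((d.hi g : G n) : Mat n) = tauMat d.H (-(d.sig g)) * (g : Mat n) := by
    rw [hi, Matrix.SpecialLinearGroup.coe_mul, tau_coe]
  have h2 : (a : Mat n) * (tauMat d.H (-(d.sig g)) * (g : Mat n)) =
      tauMat d.H (-(d.sig g)) * ((a : Mat n) * (g : Mat n)) := by
    rw [← mul_assoc, D_comm_tauMat ha d.H d.hH, mul_assoc]
  rw [aa, sh, shear_coe, shearM, Matrix.SpecialLinearGroup.coe_mul, h1, sub_eq_add_neg, tauMat_add,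
    mul_assoc, ← h2]

theorem smooth_act (a g : G n) (ha : a ∈ D n) : ∃ Φ : Mat n × Mat n → Mat n,
    ContDiffAt ℝ ∞ Φ ((a : Mat n), (g : Mat n)) ∧
    ∀ᶠ p : G n × G n in 𝓝 (a, g), p.1 ∈ D n →
      ((d.aa p.1 p.2 : G n) : Mat n) = Φ ((p.1 : Mat n), (p.2 : Mat n)) := by
  by_cases hg : Sing g
  · refine ⟨fun p => p.1 * p.2, (contDiff_fst.mul contDiff_snd).contDiffAt, ?_⟩
    filter_upwards [d.aa_sing ha hg] with p hp hpa
    rw [hp hpa, Matrix.SpecialLinearGroup.coe_mul]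
  · obtain ⟨σ, hσ, hev, -⟩ := d.sig_smooth hg
    refine ⟨fun p => tauMat d.H (d.κ * d.u (p.1 * (tauMat d.H (-(σ p.2)) * p.2)) - σ p.2) * (p.1 * p.2),
      ?_, ?_⟩
    · have hσ2 : ContDiffAt ℝ ∞ (fun p : Mat n × Mat n => σ p.2) ((a : Mat n), (g : Mat n)) :=
        ContDiffAt.comp (f := fun p : Mat n × Mat n => p.2) (g := σ) _ hσ contDiffAt_snd
      have hin : ContDiffAt ℝ ∞ (fun p : Mat n × Mat n => p.1 * (tauMat d.H (-(σ p.2)) * p.2))
          ((a : Mat n), (g : Mat n)) := by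
        have h1 : ContDiffAt ℝ ∞ (fun p : Mat n × Mat n => tauMat d.H (-(σ p.2))) ((a : Mat n), (g : Mat n)) :=
          ContDiffAt.comp (f := fun p : Mat n × Mat n => -(σ p.2)) (g := tauMat d.H) _
            (contDiff_tauMat d.H).contDiffAt hσ2.neg
        exact contDiffAt_fst.mul (h1.mul contDiffAt_snd)
      have hσg : σ (g : Mat n) = d.sig g := hev.self_of_nhds
      have hmat : (a : Mat n) * (tauMat d.H (-(σ (g : Mat n))) * (g : Mat n)) =
          ((a * d.hi g : G n) : Mat n) := by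
        rw [hσg, Matrix.SpecialLinearGroup.coe_mul, hi, Matrix.SpecialLinearGroup.coe_mul, tau_coe]
      have hns : ¬ Sing (a * d.hi g) := by
        rw [sing_left ha, d.sing_hi]
        exact hg
      have hu : ContDiffAt ℝ ∞ d.u ((a : Mat n) * (tauMat d.H (-(σ (g : Mat n))) * (g : Mat n))) := by
        rw [hmat]
        exact d.hu.smooth _ hns
      have hu2 : ContDiffAt ℝ ∞ (fun p : Mat n × Mat n => d.u (p.1 * (tauMat d.H (-(σ p.2)) * p.2)))
          ((a : Mat n), (g : Mat n)) :=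
        ContDiffAt.comp (f := fun p : Mat n × Mat n => p.1 * (tauMat d.H (-(σ p.2)) * p.2)) (g := d.u) _
          hu hin
      have ht : ContDiffAt ℝ ∞ (fun p : Mat n × Mat n =>
          tauMat d.H (d.κ * d.u (p.1 * (tauMat d.H (-(σ p.2)) * p.2)) - σ p.2))
          ((a : Mat n), (g : Mat n)) :=
        ContDiffAt.comp (f := fun p : Mat n × Mat n =>
          d.κ * d.u (p.1 * (tauMat d.H (-(σ p.2)) * p.2)) - σ p.2) (g := tauMat d.H) _
            (contDiff_tauMat d.H).contDiffAt ((contDiffAt_const.mul hu2).sub hσ2)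
      exact ht.mul (contDiffAt_fst.mul contDiffAt_snd)
    · have h1 : ∀ᶠ p : G n × G n in 𝓝 (a, g), σ (p.2 : Mat n) = d.sig p.2 :=
        (continuous_snd.tendsto (a, g)).eventually hev
      filter_upwards [h1] with p hp hpa
      rw [d.aa_formula hpa]
      simp only [hp]

noncomputable def action : SmoothAction (D n) where
  act a := desc (d.aa a) (d.aa_gam a)
  act_one := by
    intro x
    obtain ⟨g, rfl⟩ := mk_surj x
    rw [desc_mk]
    change CRT.mk (d.aa 1 g) = CRT.mk g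
    rw [d.aa_one]
  act_mul := by
    intro a b x
    obtain ⟨g, rfl⟩ := mk_surj x
    rw [desc_mk, desc_mk, desc_mk]
    change CRT.mk (d.aa ((a : G n) * b) g) = _
    rw [d.aa_mul]
  smooth := by
    intro a g
    obtain ⟨Φ, hΦ, hev⟩ := d.smooth_act (a : G n) g a.2
    refine ⟨Φ, hΦ, ?_⟩
    have hc : Tendsto (fun p : D n × G n => ((p.1 : G n), p.2)) (𝓝 (a, g)) (𝓝 ((a : G n), g)) :=
      ((continuous_subtype_val.comp continuous_fst).prodMk continuous_snd).tendsto (a, g)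
    filter_upwards [hc.eventually hev] with p hp
    exact ⟨d.aa p.1 p.2, hp p.1.2, rfl⟩

theorem action_mk (a : D n) (g : G n) : d.action.act a (CRT.mk g) = CRT.mk (d.aa a g) := rfl

/-- derivative bound for the exponent -/
theorem cdiff_bound {a g : G n} (ha : a ∈ D n) (hg : ¬ Sing g) {R : ℝ} (hR1 : 1 ≤ R)
    (hRa : ‖(a : Mat n)‖ ≤ R) (hRa' : ‖((a⁻¹ : G n) : Mat n)‖ ≤ R)
    (hτ : ∀ s : ℝ, |s| ≤ d.κ * d.C → ‖tauMat d.H s‖ ≤ 2)
    (hκ3 : 8 * (d.κ * d.C) * ‖Matrix.diagonal d.H‖ ≤ 4) :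
    ∃ c : Mat n → ℝ, ContDiffAt ℝ 1 c (g : Mat n) ∧
      (∀ᶠ g' : G n in 𝓝 g, ((d.aa a g' : G n) : Mat n) =
        tauMat d.H (c (g' : Mat n)) * ((a : Mat n) * (g' : Mat n))) ∧
      |c (g : Mat n)| ≤ 2 * (d.κ * d.C) ∧
      ∀ Y : Mat n, ‖Y‖ ≤ 1 → |fderiv ℝ c (g : Mat n) (Y * (g : Mat n))| ≤
        d.κ * d.C * (8 * R ^ 2 + 8) := by
  obtain ⟨σ, hσ, hev, hσb⟩ := d.sig_smooth hg
  have hσg : σ (g : Mat n) = d.sig g := hev.self_of_nhds
  have hmat : (a : Mat n) * (tauMat d.H (-(σ (g : Mat n))) * (g : Mat n)) =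
      ((a * d.hi g : G n) : Mat n) := by
    rw [hσg, Matrix.SpecialLinearGroup.coe_mul, hi, Matrix.SpecialLinearGroup.coe_mul, tau_coe]
  have hns : ¬ Sing (a * d.hi g) := by
    rw [sing_left ha, d.sing_hi]
    exact hg
  have hu : ContDiffAt ℝ ∞ d.u ((a : Mat n) * (tauMat d.H (-(σ (g : Mat n))) * (g : Mat n))) := by
    rw [hmat]
    exact d.hu.smooth _ hns
  have hin : ContDiffAt ℝ ∞ (fun B : Mat n => (a : Mat n) * (tauMat d.H (-(σ B)) * B)) (g : Mat n) := by
    have h1 : ContDiffAt ℝ ∞ (fun B : Mat n => tauMat d.H (-(σ B))) (g : Mat n) :=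
      ContDiffAt.comp (f := fun B : Mat n => -(σ B)) (g := tauMat d.H) _
        (contDiff_tauMat d.H).contDiffAt hσ.neg
    exact contDiffAt_const.mul (h1.mul contDiffAt_id)
  have hu2 : ContDiffAt ℝ ∞ (fun B : Mat n => d.u ((a : Mat n) * (tauMat d.H (-(σ B)) * B))) (g : Mat n) :=
    ContDiffAt.comp (f := fun B : Mat n => (a : Mat n) * (tauMat d.H (-(σ B)) * B)) (g := d.u) _ hu hin
  have hc : ContDiffAt ℝ ∞ (fun B : Mat n =>
      d.κ * d.u ((a : Mat n) * (tauMat d.H (-(σ B)) * B)) - σ B) (g : Mat n) :=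
    (contDiffAt_const.mul hu2).sub hσ
  refine ⟨fun B => d.κ * d.u ((a : Mat n) * (tauMat d.H (-(σ B)) * B)) - σ B, hc.of_le (by simp), ?_, ?_, ?_⟩
  · filter_upwards [hev] with g' hg'
    rw [d.aa_formula ha]
    simp only [hg']
  · simp only
    rw [hmat, hσg]
    have h1 := d.hu.bound (a * d.hi g)
    have h2 := d.abs_sig_le g
    have h3 : |d.κ * d.u ((a * d.hi g : G n) : Mat n)| ≤ d.κ * d.C := by
      rw [abs_mul, abs_of_pos d.hκ]
      exact mul_le_mul_of_nonneg_left h1 d.hκ.le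
    calc _ ≤ |d.κ * d.u ((a * d.hi g : G n) : Mat n)| + |d.sig g| := abs_sub _ _
      _ ≤ _ := by linarith
  · intro Y hY
    have hσY := hσb Y
    set s₀ := d.sig g with hs₀
    have hs₀b : |s₀| ≤ d.κ * d.C := d.abs_sig_le g
    have hY1 : ‖tauMat d.H (-s₀) * Y * tauMat d.H s₀‖ ≤ 4 := by
      have h1 := hτ s₀ hs₀b
      have h2 := hτ (-s₀) (by rw [abs_neg]; exact hs₀b)
      calc ‖tauMat d.H (-s₀) * Y * tauMat d.H s₀‖ ≤ ‖tauMat d.H (-s₀) * Y‖ * ‖tauMat d.H s₀‖ := norm_mul_le _ _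
        _ ≤ (‖tauMat d.H (-s₀)‖ * ‖Y‖) * ‖tauMat d.H s₀‖ := by
          gcongr
          exact norm_mul_le _ _
        _ ≤ (2 * 1) * 2 := by gcongr
        _ = 4 := by norm_num
    set V := Y * (g : Mat n) with hV
    set σ' := fderiv ℝ σ (g : Mat n) V with hσ'
    have hκC : 0 ≤ d.κ * d.C := mul_nonneg d.hκ.le d.hu.pos.le
    have hσ8 : |σ'| ≤ 8 * (d.κ * d.C) := by
      refine hσY.trans ?_
      nlinarith [mul_le_mul_of_nonneg_left hY1 hκC]
    have hline : HasDerivAt (fun t : ℝ => (g : Mat n) + t • V) V 0 := by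
      have h2 : HasDerivAt (fun t : ℝ => t • V) ((1 : ℝ) • V) 0 := (hasDerivAt_id (0 : ℝ)).smul_const _
      rw [one_smul] at h2
      exact h2.const_add _
    have hl0 : (g : Mat n) + (0 : ℝ) • V = (g : Mat n) := by rw [zero_smul, add_zero]
    have hσc : HasDerivAt (fun t : ℝ => σ ((g : Mat n) + t • V)) σ' 0 := by
      have h1 : HasFDerivAt σ (fderiv ℝ σ (g : Mat n)) ((g : Mat n) + (0 : ℝ) • V) := by
        rw [hl0]; exact (hσ.differentiableAt (by simp)).hasFDerivAt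
      exact h1.comp_hasDerivAt (0 : ℝ) hline
    have hτd : HasDerivAt (fun t : ℝ => tauMat d.H (-(σ ((g : Mat n) + t • V))))
        ((-σ') • (Matrix.diagonal d.H * tauMat d.H (-s₀))) 0 := by
      have h1 : HasDerivAt (tauMat d.H) (Matrix.diagonal d.H * tauMat d.H (-s₀))
          (-(σ ((g : Mat n) + (0 : ℝ) • V))) := by
        rw [hl0, hσg]; exact hasDerivAt_tauMat d.H (-s₀)
      exact HasDerivAt.scomp (h := fun t : ℝ => -(σ ((g : Mat n) + t • V))) 0 h1 hσc.neg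
    have hin2 := (hτd.mul hline).const_mul (a : Mat n)
    simp only [hl0, hσg] at hin2
    have hu1 : HasFDerivAt d.u (fderiv ℝ d.u ((a : Mat n) * (tauMat d.H (-s₀) * (g : Mat n))))
        ((a : Mat n) * (tauMat d.H (-(σ ((g : Mat n) + (0 : ℝ) • V))) * ((g : Mat n) + (0 : ℝ) • V))) := by
      rw [hl0, hσg]
      rw [hσg] at hu
      exact (hu.differentiableAt (by simp)).hasFDerivAt
    have hcomp := ((hu1.comp_hasDerivAt (0 : ℝ) hin2).const_mul d.κ).sub hσc
    have hcd : HasDerivAt (fun t : ℝ => d.κ * d.u ((a : Mat n) *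
        (tauMat d.H (-(σ ((g : Mat n) + t • V))) * ((g : Mat n) + t • V))) - σ ((g : Mat n) + t • V))
        (fderiv ℝ (fun B : Mat n => d.κ * d.u ((a : Mat n) * (tauMat d.H (-(σ B)) * B)) - σ B)
          (g : Mat n) V) 0 := by
      have h1 : HasFDerivAt (fun B : Mat n => d.κ * d.u ((a : Mat n) * (tauMat d.H (-(σ B)) * B)) - σ B)
          (fderiv ℝ (fun B : Mat n => d.κ * d.u ((a : Mat n) * (tauMat d.H (-(σ B)) * B)) - σ B) (g : Mat n))
          ((g : Mat n) + (0 : ℝ) • V) := by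
        rw [hl0]; exact (hc.differentiableAt (by simp)).hasFDerivAt
      exact h1.comp_hasDerivAt (0 : ℝ) hline
    have hfin := hcd.unique hcomp
    rw [hfin]
    have hagm : (a : Mat n) * (tauMat d.H (-s₀) * (g : Mat n)) = ((a * d.hi g : G n) : Mat n) := by
      rw [← hmat, hσg]
    have hdir : (a : Mat n) * ((-σ') • (Matrix.diagonal d.H * tauMat d.H (-s₀)) * (g : Mat n) +
        tauMat d.H (-s₀) * V) =
        ((a : Mat n) * ((-σ') • Matrix.diagonal d.H + tauMat d.H (-s₀) * Y * tauMat d.H s₀) *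
          ((a⁻¹ : G n) : Mat n)) * ((a * d.hi g : G n) : Mat n) := by
      rw [← hagm]
      have e1 : ((a⁻¹ : G n) : Mat n) * ((a : Mat n) * (tauMat d.H (-s₀) * (g : Mat n))) =
          tauMat d.H (-s₀) * (g : Mat n) := by
        rw [← mul_assoc, coe_inv_mul, one_mul]
      rw [mul_assoc, e1, mul_assoc]
      congr 1
      rw [add_mul, smul_mul_assoc, smul_mul_assoc, mul_assoc (Matrix.diagonal d.H), hV]
      congr 1
      calc tauMat d.H (-s₀) * (Y * (g : Mat n))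
          = tauMat d.H (-s₀) * Y * ((tauMat d.H s₀ * tauMat d.H (-s₀)) * (g : Mat n)) := by
            rw [tauMat_mul_neg, one_mul, mul_assoc]
        _ = _ := by simp only [mul_assoc]
    have hb1 := d.hu.bound' (a * d.hi g)
      ((a : Mat n) * ((-σ') • Matrix.diagonal d.H + tauMat d.H (-s₀) * Y * tauMat d.H s₀) *
          ((a⁻¹ : G n) : Mat n))
    rw [← hdir, ← hagm] at hb1
    have hn1 : ‖(a : Mat n) * ((-σ') • Matrix.diagonal d.H + tauMat d.H (-s₀) * Y * tauMat d.H s₀) *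
          ((a⁻¹ : G n) : Mat n)‖ ≤ R * 8 * R := by
      have h1 : ‖(-σ') • Matrix.diagonal d.H + tauMat d.H (-s₀) * Y * tauMat d.H s₀‖ ≤ 8 := by
        calc ‖(-σ') • Matrix.diagonal d.H + tauMat d.H (-s₀) * Y * tauMat d.H s₀‖
            ≤ ‖(-σ') • Matrix.diagonal d.H‖ + ‖tauMat d.H (-s₀) * Y * tauMat d.H s₀‖ := norm_add_le _ _
          _ ≤ |σ'| * ‖Matrix.diagonal d.H‖ + 4 := by
            rw [norm_smul, norm_neg, Real.norm_eq_abs]
            linarith
          _ ≤ 8 * (d.κ * d.C) * ‖Matrix.diagonal d.H‖ + 4 := by gcongr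
          _ ≤ 8 := by linarith
      calc _ ≤ ‖(a : Mat n) * ((-σ') • Matrix.diagonal d.H + tauMat d.H (-s₀) * Y * tauMat d.H s₀)‖ *
          ‖((a⁻¹ : G n) : Mat n)‖ := norm_mul_le _ _
        _ ≤ (‖(a : Mat n)‖ * ‖(-σ') • Matrix.diagonal d.H + tauMat d.H (-s₀) * Y * tauMat d.H s₀‖) *
          ‖((a⁻¹ : G n) : Mat n)‖ := by
            gcongr
            exact norm_mul_le _ _
        _ ≤ (R * 8) * R := by gcongr
    have hb2 := mul_le_mul_of_nonneg_left (hb1.trans (mul_le_mul_of_nonneg_left hn1 d.hu.pos.le)) d.hκ.le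
    rw [← abs_of_pos d.hκ, ← abs_mul, abs_of_pos d.hκ] at hb2
    refine (abs_sub _ _).trans ((add_le_add hb2 hσ8).trans (le_of_eq ?_))
    ring

end Dat

end Pool.Agent.CRT
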