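import Pool.Agent.Helper55_CRT.Inv2

/-!
# MP_6bfaa3_an: module INV, part 3: closeness
-/

open Matrix Topology Filter
open scoped ContDiff Matrix.Norms.Operator

namespace Pool.Agent.CRT

variable {n : ℕ}

theorem fderiv_mul_left (a B V : Mat n) : fderiv ℝ (fun B : Mat n => a * B) B V = a * V := by
  have h : HasFDerivAt (fun B : Mat n => a * B) (ContinuousLinearMap.mul ℝ (Mat n) a) B :=
    (ContinuousLinearMap.mul ℝ (Mat n) a).hasFDerivAt
  exact congrArg (fun L : Mat n →L[ℝ] Mat n => L V) h.fderiv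

theorem tau_inv_coe (H : Fin n → ℝ) (hH : ∑ i, H i = 0) (s : ℝ) :
    (((tau H hH s)⁻¹ : G n) : Mat n) = tauMat H (-s) := by
  have h : (tau H hH s)⁻¹ = tau H hH (-s) := by
    rw [inv_eq_iff_mul_eq_one, ← tau_add, add_neg_cancel, tau_zero]
  rw [h, tau_coe]

theorem fderiv_prod (H : Fin n → ℝ) (c : Mat n → ℝ) (a g : G n) (hc : ContDiffAt ℝ 1 c (g : Mat n))
    (Y : Mat n) : fderiv ℝ (fun B : Mat n => tauMat H (c B) * ((a : Mat n) * B)) (g : Mat n)
      (Y * (g : Mat n)) = (fderiv ℝ c (g : Mat n) (Y * (g : Mat n))) •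
        (Matrix.diagonal H * tauMat H (c (g : Mat n))) * ((a : Mat n) * (g : Mat n)) +
      tauMat H (c (g : Mat n)) * ((a : Mat n) * (Y * (g : Mat n))) := by
  set V := Y * (g : Mat n) with hV
  have hline : HasDerivAt (fun t : ℝ => (g : Mat n) + t • V) V 0 := by
    have h2 : HasDerivAt (fun t : ℝ => t • V) ((1 : ℝ) • V) 0 := (hasDerivAt_id (0 : ℝ)).smul_const _
    rw [one_smul] at h2
    exact h2.const_add _
  have hl0 : (g : Mat n) + (0 : ℝ) • V = (g : Mat n) := by rw [zero_smul, add_zero]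
  have hcc : HasDerivAt (fun t : ℝ => c ((g : Mat n) + t • V)) (fderiv ℝ c (g : Mat n) V) 0 := by
    have h1 : HasFDerivAt c (fderiv ℝ c (g : Mat n)) ((g : Mat n) + (0 : ℝ) • V) := by
      rw [hl0]; exact (hc.differentiableAt (by simp)).hasFDerivAt
    exact h1.comp_hasDerivAt (0 : ℝ) hline
  have hτ : HasDerivAt (fun t : ℝ => tauMat H (c ((g : Mat n) + t • V)))
      ((fderiv ℝ c (g : Mat n) V) • (Matrix.diagonal H * tauMat H (c (g : Mat n)))) 0 := by
    have h1 : HasDerivAt (tauMat H) (Matrix.diagonal H * tauMat H (c (g : Mat n)))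
        (c ((g : Mat n) + (0 : ℝ) • V)) := by
      rw [hl0]; exact hasDerivAt_tauMat H _
    exact HasDerivAt.scomp (h := fun t : ℝ => c ((g : Mat n) + t • V)) 0 h1 hcc
  have h3 := hτ.mul (hline.const_mul (a : Mat n))
  simp only [hl0] at h3
  have hΦ : ContDiffAt ℝ 1 (fun B : Mat n => tauMat H (c B) * ((a : Mat n) * B)) (g : Mat n) := by
    have h1 : ContDiffAt ℝ 1 (fun B : Mat n => tauMat H (c B)) (g : Mat n) :=
      ContDiffAt.comp (f := c) (g := tauMat H) _ (contDiff_tauMat H).contDiffAt hc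
    exact h1.mul (contDiffAt_const.mul contDiffAt_id)
  have h4 : HasDerivAt (fun t : ℝ => tauMat H (c ((g : Mat n) + t • V)) * ((a : Mat n) * ((g : Mat n) + t • V)))
      (fderiv ℝ (fun B : Mat n => tauMat H (c B) * ((a : Mat n) * B)) (g : Mat n) V) 0 := by
    have h1 : HasFDerivAt (fun B : Mat n => tauMat H (c B) * ((a : Mat n) * B))
        (fderiv ℝ (fun B : Mat n => tauMat H (c B) * ((a : Mat n) * B)) (g : Mat n))
        ((g : Mat n) + (0 : ℝ) • V) := by
      rw [hl0]; exact (hΦ.differentiableAt (by simp)).hasFDerivAt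
    exact h1.comp_hasDerivAt (0 : ℝ) hline
  exact h4.unique h3

theorem norm_one_le : ‖(1 : Mat n)‖ ≤ 1 := by
  rcases Nat.eq_zero_or_pos n with h | h
  · subst h
    have : (1 : Mat 0) = 0 := by ext i; exact i.elim0
    rw [this, norm_zero]
    exact zero_le_one
  · haveI : Nonempty (Fin n) := ⟨⟨0, h⟩⟩
    exact norm_one.le

theorem inv_stmt : InvStmt := by
  intro n u C hn hu H hH K hK hKD ε hε
  -- bounds on K
  obtain ⟨R₁, hR₁⟩ := hK.exists_bound_of_continuousOn (f := fun a : G n => (a : Mat n))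
    continuous_coe.continuousOn
  obtain ⟨R₂, hR₂⟩ := hK.exists_bound_of_continuousOn (f := fun a : G n => ((a⁻¹ : G n) : Mat n))
    (continuous_coe.comp continuous_inv).continuousOn
  obtain ⟨R, hR1, hRa, hRb⟩ : ∃ R : ℝ, 1 ≤ R ∧ (∀ a ∈ K, ‖(a : Mat n)‖ ≤ R) ∧
      ∀ a ∈ K, ‖((a⁻¹ : G n) : Mat n)‖ ≤ R :=
    ⟨max 1 (max R₁ R₂), le_max_left _ _,
      fun a ha => (hR₁ a ha).trans ((le_max_left _ _).trans (le_max_right _ _)),
      fun a ha => (hR₂ a ha).trans ((le_max_right _ _).trans (le_max_right _ _))⟩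
  have hR0 : 0 < R := by linarith
  -- continuity of tauMat at 0
  set η : ℝ := min 1 (min (ε / 2) (ε / (8 * R ^ 2))) with hη
  have hη0 : 0 < η := by
    apply lt_min one_pos
    apply lt_min (by positivity)
    positivity
  have hη1 : η ≤ 1 := min_le_left _ _
  have hη2 : η ≤ ε / 2 := (min_le_right _ _).trans (min_le_left _ _)
  have hη3 : η ≤ ε / (8 * R ^ 2) := (min_le_right _ _).trans (min_le_right _ _)
  have hηR : 3 * η * R ^ 2 < ε / 2 := by
    rw [le_div_iff₀ (by positivity)] at hη3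
    nlinarith [hη3, hη0, sq_nonneg R]
  have hcont : ContinuousAt (tauMat H) 0 := (contDiff_tauMat (m := 0) H).continuous.continuousAt
  obtain ⟨δ, hδ, hδ2⟩ := Metric.continuousAt_iff.mp hcont η hη0
  have hδ3 : ∀ s : ℝ, |s| < δ → ‖tauMat H s - 1‖ < η := by
    intro s hs
    have := hδ2 (x := s) (by rwa [Real.dist_eq, sub_zero])
    rwa [tauMat_zero, dist_eq_norm] at this
  -- choice of κ
  set M : ℝ := C * (‖(Matrix.diagonal H : Mat n)‖ + 1) * (8 * R ^ 2 + 8) * 2 with hM
  have hCpos := hu.pos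
  have hHn : 0 ≤ ‖(Matrix.diagonal H : Mat n)‖ := norm_nonneg _
  have hM0 : 0 < M := by positivity
  set θ : ℝ := min (1 / 2) (min (δ / 2) (ε / 4)) with hθ
  have hθ0 : 0 < θ := by
    apply lt_min (by norm_num)
    apply lt_min (by positivity) (by positivity)
  have hκM : θ / M * M = θ := div_mul_cancel₀ _ hM0.ne'
  set κ := θ / M with hκdef
  have hκ0 : 0 < κ := div_pos hθ0 hM0
  have hθ1 : θ ≤ 1 / 2 := min_le_left _ _
  have hθ2 : θ ≤ δ / 2 := (min_le_right _ _).trans (min_le_left _ _)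
  have hθ3 : θ ≤ ε / 4 := (min_le_right _ _).trans (min_le_right _ _)
  have hR2 : 0 ≤ R ^ 2 := sq_nonneg R
  have hκC0 : 0 < κ * C := mul_pos hκ0 hCpos
  have e1 : 2 * (κ * C) ≤ κ * M := by
    rw [hM]
    have : 1 ≤ (‖(Matrix.diagonal H : Mat n)‖ + 1) * (8 * R ^ 2 + 8) := by nlinarith
    nlinarith [mul_le_mul_of_nonneg_left this hκC0.le]
  have e2 : κ * C * (8 * R ^ 2 + 8) * ‖(Matrix.diagonal H : Mat n)‖ ≤ κ * M := by
    rw [hM]
    have h8 : 0 ≤ 8 * R ^ 2 + 8 := by positivity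
    have : (8 * R ^ 2 + 8) * ‖(Matrix.diagonal H : Mat n)‖ ≤
        (‖(Matrix.diagonal H : Mat n)‖ + 1) * (8 * R ^ 2 + 8) * 2 := by nlinarith
    nlinarith [mul_le_mul_of_nonneg_left this hκC0.le]
  have e3 : κ * (C * ‖(Matrix.diagonal H : Mat n)‖) ≤ κ * M := by
    rw [hM]
    have : ‖(Matrix.diagonal H : Mat n)‖ ≤ (‖(Matrix.diagonal H : Mat n)‖ + 1) * (8 * R ^ 2 + 8) * 2 := by
      nlinarith
    nlinarith [mul_le_mul_of_nonneg_left this hκC0.le]
  have hκM' : κ * M = θ := hκM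
  rw [hκM'] at e1 e2 e3
  let d : Dat n := ⟨u, C, hu, H, hH, κ, hκ0, e3.trans hθ1⟩
  have hτ2 : ∀ s : ℝ, |s| < δ → ‖tauMat H s‖ ≤ 2 := by
    intro s hs
    have h1 := hδ3 s hs
    calc ‖tauMat H s‖ = ‖(tauMat H s - 1) + 1‖ := by rw [sub_add_cancel]
      _ ≤ ‖tauMat H s - 1‖ + ‖(1 : Mat n)‖ := norm_add_le _ _
      _ ≤ η + 1 := add_le_add h1.le norm_one_le
      _ ≤ 2 := by linarith
  refine ⟨κ, hκ0, d.action, ?_, ?_⟩
  · intro a haK g
    by_cases hg : Dat.Sing g
    · have hev : ∀ᶠ g' : G n in 𝓝 g, d.aa (a : G n) g' = (a : G n) * g' := by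
        have h1 := d.aa_sing (a := (a : G n)) (g := g) a.2 hg
        have hc : Tendsto (fun g' : G n => ((a : G n), g')) (𝓝 g) (𝓝 ((a : G n), g)) :=
          (continuous_const.prodMk continuous_id).tendsto g
        filter_upwards [hc.eventually h1] with g' hg'
        exact hg' a.2
      refine ⟨fun B => ((a : G n) : Mat n) * B, fun B => ((a : G n) : Mat n) * B,
        (contDiff_const.mul contDiff_id).contDiffAt, (contDiff_const.mul contDiff_id).contDiffAt,
        ?_, ?_, ?_, ?_⟩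
      · filter_upwards [hev] with g' hg'
        refine ⟨(a : G n) * g', Matrix.SpecialLinearGroup.coe_mul _ _, ?_⟩
        rw [d.action_mk, hg']
      · exact Filter.Eventually.of_forall fun g' =>
          ⟨(a : G n) * g', Matrix.SpecialLinearGroup.coe_mul _ _, rfl⟩
      · change ‖((a : G n) : Mat n) * (g : Mat n) * (((a : G n) : Mat n) * (g : Mat n))⁻¹ - 1‖ < ε
        rw [← Matrix.SpecialLinearGroup.coe_mul, coe_inv_eq, coe_mul_inv, sub_self, norm_zero]
        exact hε
      · intro Y _ _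
        rw [sub_self, norm_zero]
        exact hε
    · obtain ⟨c, hc, hev, hcb, hcd⟩ := d.cdiff_bound (a := (a : G n)) (g := g) a.2 hg hR1
        (hRa _ haK) (hRb _ haK) (fun s hs => hτ2 s (by
          have : |s| ≤ κ * C := hs
          linarith)) (by
          change 8 * (κ * C) * ‖(Matrix.diagonal H : Mat n)‖ ≤ 4
          linarith [e3, hθ1])
      change |c (g : Mat n)| ≤ 2 * (κ * C) at hcb
      change ∀ Y : Mat n, ‖Y‖ ≤ 1 → |fderiv ℝ c (g : Mat n) (Y * (g : Mat n))| ≤
        κ * C * (8 * R ^ 2 + 8) at hcd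
      change ∀ᶠ g' : G n in 𝓝 g, ((d.aa a g' : G n) : Mat n) =
        tauMat H (c (g' : Mat n)) * (((a : G n) : Mat n) * (g' : Mat n)) at hev
      have hcδ : |c (g : Mat n)| < δ := by linarith
      have hcδ' : |-(c (g : Mat n))| < δ := by rw [abs_neg]; exact hcδ
      refine ⟨fun B => tauMat H (c B) * (((a : G n) : Mat n) * B), fun B => ((a : G n) : Mat n) * B,
        ?_, (contDiff_const.mul contDiff_id).contDiffAt, ?_, ?_, ?_, ?_⟩
      · have h1 : ContDiffAt ℝ 1 (fun B : Mat n => tauMat H (c B)) (g : Mat n) :=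
          ContDiffAt.comp (f := c) (g := tauMat H) _ (contDiff_tauMat H).contDiffAt hc
        exact h1.mul (contDiffAt_const.mul contDiffAt_id)
      · filter_upwards [hev] with g' hg'
        exact ⟨d.aa (a : G n) g', hg', rfl⟩
      · exact Filter.Eventually.of_forall fun g' =>
          ⟨(a : G n) * g', Matrix.SpecialLinearGroup.coe_mul _ _, rfl⟩
      · have h1 : tauMat H (c (g : Mat n)) * (((a : G n) : Mat n) * (g : Mat n)) *
            (((a : G n) : Mat n) * (g : Mat n))⁻¹ = tauMat H (c (g : Mat n)) := by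
          rw [← Matrix.SpecialLinearGroup.coe_mul, coe_inv_eq, mul_assoc, coe_mul_inv, mul_one]
        simp only [h1]
        exact (hδ3 _ hcδ).trans_le (hη2.trans (by linarith))
      · intro Y _ hY
        rw [fderiv_prod H c (a : G n) g hc Y, fderiv_mul_left]
        set c' := fderiv ℝ c (g : Mat n) (Y * (g : Mat n)) with hc'
        have hc'b : |c'| ≤ κ * C * (8 * R ^ 2 + 8) := hcd Y hY
        have hΦ1 : tauMat H (c (g : Mat n)) * (((a : G n) : Mat n) * (g : Mat n)) =
            ((tau H hH (c (g : Mat n)) * ((a : G n) * g) : G n) : Mat n) := by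
          rw [Matrix.SpecialLinearGroup.coe_mul, Matrix.SpecialLinearGroup.coe_mul, tau_coe]
        have hinv1 : (tauMat H (c (g : Mat n)) * (((a : G n) : Mat n) * (g : Mat n)))⁻¹ =
            ((g⁻¹ : G n) : Mat n) * ((((a : G n)⁻¹ : G n) : Mat n) * tauMat H (-(c (g : Mat n)))) := by
          rw [hΦ1, coe_inv_eq, _root_.mul_inv_rev, _root_.mul_inv_rev, Matrix.SpecialLinearGroup.coe_mul,
            Matrix.SpecialLinearGroup.coe_mul, tau_inv_coe, mul_assoc]
        have hinv2 : (((a : G n) : Mat n) * (g : Mat n))⁻¹ =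
            ((g⁻¹ : G n) : Mat n) * (((a : G n)⁻¹ : G n) : Mat n) := by
          rw [← Matrix.SpecialLinearGroup.coe_mul, coe_inv_eq, _root_.mul_inv_rev,
            Matrix.SpecialLinearGroup.coe_mul]
        set τ := tauMat H (c (g : Mat n)) with hτ
        set τ' := tauMat H (-(c (g : Mat n))) with hτ'
        have hττ : τ * τ' = 1 := tauMat_mul_neg H _
        set A := ((a : G n) : Mat n) with hA
        set A' := (((a : G n)⁻¹ : G n) : Mat n) with hA'
        have hAA : A * A' = 1 := coe_mul_inv _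
        set g₁ := (g : Mat n) with hg₁
        set g₁' := ((g⁻¹ : G n) : Mat n) with hg₁'
        have hgg : g₁ * g₁' = 1 := coe_mul_inv _
        have e4 : (c' • (Matrix.diagonal H * τ) * (A * g₁) + τ * (A * (Y * g₁))) * (τ * (A * g₁))⁻¹ -
            A * (Y * g₁) * (A * g₁)⁻¹ = c' • Matrix.diagonal H + ((τ - 1) * (A * Y * A') * τ' +
              (A * Y * A') * (τ' - 1)) := by
          rw [hinv1, hinv2]
          have f1 : c' • (Matrix.diagonal H * τ) * (A * g₁) * (g₁' * (A' * τ')) = c' • Matrix.diagonal H := by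
            calc c' • (Matrix.diagonal H * τ) * (A * g₁) * (g₁' * (A' * τ'))
                = c' • (Matrix.diagonal H * (τ * ((A * ((g₁ * g₁') * A')) * τ'))) := by
                  simp only [mul_assoc, smul_mul_assoc]
              _ = _ := by rw [hgg, one_mul, hAA, one_mul, hττ, mul_one]
          have f2 : τ * (A * (Y * g₁)) * (g₁' * (A' * τ')) = τ * (A * Y * A') * τ' := by
            calc τ * (A * (Y * g₁)) * (g₁' * (A' * τ'))
                = τ * (A * (Y * ((g₁ * g₁') * (A' * τ')))) := by simp only [mul_assoc]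
              _ = _ := by rw [hgg, one_mul]; simp only [mul_assoc]
          have f3 : A * (Y * g₁) * (g₁' * A') = A * Y * A' := by
            calc A * (Y * g₁) * (g₁' * A') = A * (Y * ((g₁ * g₁') * A')) := by simp only [mul_assoc]
              _ = _ := by rw [hgg, one_mul]; simp only [mul_assoc]
          rw [add_mul, f1, f2, f3]
          simp only [sub_mul, mul_sub, one_mul, mul_one]
          abel
        rw [e4]
        have hZ : ‖A * Y * A'‖ ≤ R ^ 2 := by
          calc ‖A * Y * A'‖ ≤ ‖A * Y‖ * ‖A'‖ := norm_mul_le _ _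
            _ ≤ (‖A‖ * ‖Y‖) * ‖A'‖ := by gcongr; exact norm_mul_le _ _
            _ ≤ (R * 1) * R := by
              gcongr
              · exact hRa _ haK
              · exact hRb _ haK
            _ = R ^ 2 := by ring
        have hτ1 : ‖τ - 1‖ ≤ η := (hδ3 _ hcδ).le
        have hτ1' : ‖τ' - 1‖ ≤ η := (hδ3 _ hcδ').le
        have hτ22 : ‖τ'‖ ≤ 2 := hτ2 _ hcδ'
        have g1 : ‖(τ - 1) * (A * Y * A') * τ'‖ ≤ η * R ^ 2 * 2 := by
          calc ‖(τ - 1) * (A * Y * A') * τ'‖ ≤ ‖(τ - 1) * (A * Y * A')‖ * ‖τ'‖ := norm_mul_le _ _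
            _ ≤ (‖τ - 1‖ * ‖A * Y * A'‖) * ‖τ'‖ := by gcongr; exact norm_mul_le _ _
            _ ≤ (η * R ^ 2) * 2 := by gcongr
        have g2 : ‖(A * Y * A') * (τ' - 1)‖ ≤ R ^ 2 * η := by
          calc ‖(A * Y * A') * (τ' - 1)‖ ≤ ‖A * Y * A'‖ * ‖τ' - 1‖ := norm_mul_le _ _
            _ ≤ R ^ 2 * η := by gcongr
        have g3 : ‖c' • (Matrix.diagonal H : Mat n)‖ ≤ θ := by
          rw [norm_smul, Real.norm_eq_abs]
          refine le_trans (mul_le_mul_of_nonneg_right hc'b (norm_nonneg _)) e2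
        calc ‖c' • (Matrix.diagonal H : Mat n) + ((τ - 1) * (A * Y * A') * τ' + (A * Y * A') * (τ' - 1))‖
            ≤ ‖c' • (Matrix.diagonal H : Mat n)‖ +
              ‖(τ - 1) * (A * Y * A') * τ' + (A * Y * A') * (τ' - 1)‖ := norm_add_le _ _
          _ ≤ θ + (η * R ^ 2 * 2 + R ^ 2 * η) := by
            refine add_le_add g3 ((norm_add_le _ _).trans (add_le_add g1 g2))
          _ < ε := by nlinarith [hηR, hθ3]
  · intro a g
    rw [d.action_mk]
    change mk (d.aa (a : G n) (d.sh g)) = mk (d.sh ((a : G n) * g))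
    rw [d.aa_sh]

end Pool.Agent.CRT
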