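import Pool.Agent.CRT.Stmts

/-!
# Squad CRT, row PSI: elementary properties of the kernel
-/

namespace Pool.Agent.CRT.H55

open Set Filter Topology MeasureTheory

noncomputable section

/-- primitive of the box kernel -/
def cl (s y : ℝ) : ℝ := max (-s) (min s y) / (2 * s)

theorem cl_cont (s : ℝ) : Continuous (cl s) := by
  unfold cl
  exact (continuous_const.max (continuous_const.min continuous_id)).div_const _

theorem cl_ge {s y : ℝ} (hs : 0 < s) (h : s ≤ y) : cl s y = 1 / 2 := by
  unfold cl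
  rw [min_eq_left h, max_eq_right (by linarith)]
  field_simp

theorem cl_le {s y : ℝ} (hs : 0 < s) (h : y ≤ -s) : cl s y = -(1 / 2) := by
  unfold cl
  rw [min_eq_right (by linarith), max_eq_left h]
  field_simp

theorem cl_mid {s y : ℝ} (h1 : -s ≤ y) (h2 : y ≤ s) : cl s y = y / (2 * s) := by
  unfold cl
  rw [min_eq_right h2, max_eq_right h1]

theorem cl_bd {s : ℝ} (hs : 0 < s) (y : ℝ) : -(1 / 2) ≤ cl s y ∧ cl s y ≤ 1 / 2 := by
  unfold cl
  have h2 : 0 < 2 * s := by linarith
  rw [le_div_iff₀ h2, div_le_iff₀ h2]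
  constructor
  · have := le_max_left (-s) (min s y)
    linarith
  · have := max_le (show -s ≤ s by linarith) (min_le_left s y)
    linarith

theorem cl_nonneg {s y : ℝ} (hs : 0 < s) (hy : 0 ≤ y) : 0 ≤ cl s y := by
  unfold cl
  exact div_nonneg (le_max_of_le_right (le_min hs.le hy)) (by linarith)

theorem cl_nonpos {s y : ℝ} (hs : 0 < s) (hy : y ≤ 0) : cl s y ≤ 0 := by
  unfold cl
  exact div_nonpos_of_nonpos_of_nonneg (max_le (by linarith) (le_trans (min_le_right _ _) hy))
    (by linarith)

theorem bx_ind (s : ℝ) : bx s = (Icc (-s) s).indicator fun _ => 1 / (2 * s) := by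
  funext y
  unfold bx
  by_cases h : |y| ≤ s
  · rw [if_pos h, indicator_of_mem]
    exact ⟨(abs_le.1 h).1, (abs_le.1 h).2⟩
  · rw [if_neg h, indicator_of_notMem]
    intro h1
    exact h (abs_le.2 ⟨h1.1, h1.2⟩)

theorem bx_int (s : ℝ) : Integrable (bx s) := by
  rw [bx_ind]
  refine (integrableOn_const ?_).integrable_indicator measurableSet_Icc
  rw [Real.volume_Icc]
  exact ENNReal.ofReal_ne_top

theorem cl_deriv {s : ℝ} (hs : 0 < s) {y : ℝ} (h : y ∉ ({-s, s} : Set ℝ)) :
    HasDerivAt (cl s) (bx s y) y := by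
  have h1 : y ≠ -s := fun h' => h (by rw [h']; simp)
  have h2 : y ≠ s := fun h' => h (by rw [h']; simp)
  rcases lt_or_gt_of_ne h1 with h3 | h3
  · have e1 : bx s y = 0 := by
      unfold bx
      rw [if_neg]
      intro h4
      have := (abs_le.1 h4).1
      linarith
    rw [e1]
    refine (hasDerivAt_const y (-(1 / 2) : ℝ)).congr_of_eventuallyEq ?_
    filter_upwards [Iio_mem_nhds h3] with z hz
    exact cl_le hs (le_of_lt hz)
  · rcases lt_or_gt_of_ne h2 with h4 | h4
    · have e1 : bx s y = 1 / (2 * s) := by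
        unfold bx
        rw [if_pos (abs_le.2 ⟨h3.le, h4.le⟩)]
      rw [e1]
      refine ((hasDerivAt_id y).div_const (2 * s)).congr_of_eventuallyEq ?_
      filter_upwards [Ioo_mem_nhds h3 h4] with z hz
      exact cl_mid hz.1.le hz.2.le
    · have e1 : bx s y = 0 := by
        unfold bx
        rw [if_neg]
        intro h5
        have := (abs_le.1 h5).2
        linarith
      rw [e1]
      refine (hasDerivAt_const y (1 / 2 : ℝ)).congr_of_eventuallyEq ?_
      filter_upwards [Ioi_mem_nhds h4] with z hz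
      exact cl_ge hs (le_of_lt hz)

theorem bx_prim {s : ℝ} (hs : 0 < s) (u v : ℝ) : ∫ y in u..v, bx s y = cl s v - cl s u := by
  refine MeasureTheory.integral_eq_of_hasDerivAt_off_countable (cl s) (bx s) (s := {-s, s})
    (Set.toFinite _).countable (cl_cont s).continuousOn ?_ (bx_int s).intervalIntegrable
  intro x hx
  exact cl_deriv hs hx.2

/-- primitive of `ps` -/
def Ps (a y : ℝ) : ℝ := cl a y - cl (6 * a) y

theorem Ps_cont (a : ℝ) : Continuous (Ps a) := (cl_cont a).sub (cl_cont (6 * a))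

theorem Ps_zero {a y : ℝ} (ha : 0 < a) (h : 6 * a ≤ |y|) : Ps a y = 0 := by
  unfold Ps
  rcases le_abs.1 h with h1 | h1
  · rw [cl_ge ha (by linarith), cl_ge (by linarith) h1, sub_self]
  · rw [cl_le ha (by linarith), cl_le (by linarith) (by linarith), sub_self]

theorem Ps_bd {a : ℝ} (ha : 0 < a) (y : ℝ) : |Ps a y| ≤ 1 / 2 := by
  unfold Ps
  have h6 : 0 < 6 * a := by linarith
  obtain ⟨h1, h2⟩ := cl_bd ha y
  obtain ⟨h3, h4⟩ := cl_bd h6 y
  rw [abs_le]
  rcases le_total 0 y with h | h
  · have h5 := cl_nonneg ha h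
    have h7 := cl_nonneg h6 h
    constructor <;> linarith
  · have h5 := cl_nonpos ha h
    have h7 := cl_nonpos h6 h
    constructor <;> linarith

/-- the box mean -/
theorem box_mean {s : ℝ} (hs : 0 < s) (g : ℝ → ℝ) :
    ∫ z, bx s z * g z = 1 / (2 * s) * ∫ z in (-s)..s, g z := by
  have e1 : (fun z => bx s z * g z) = (Icc (-s) s).indicator fun z => 1 / (2 * s) * g z := by
    funext z
    rw [bx_ind]
    by_cases h : z ∈ Icc (-s) s
    · rw [indicator_of_mem h, indicator_of_mem h]
    · rw [indicator_of_notMem h, indicator_of_notMem h, zero_mul]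
  rw [e1, integral_indicator measurableSet_Icc, integral_Icc_eq_integral_Ioc,
    ← intervalIntegral.integral_of_le (by linarith), intervalIntegral.integral_const_mul]

theorem box_int (s : ℝ) (g : ℝ → ℝ) (hg : Integrable g) : Integrable fun z => bx s z * g z := by
  have e1 : (fun z => bx s z * g z) = (Icc (-s) s).indicator fun z => 1 / (2 * s) * g z := by
    funext z
    rw [bx_ind]
    by_cases h : z ∈ Icc (-s) s
    · rw [indicator_of_mem h, indicator_of_mem h]
    · rw [indicator_of_notMem h, indicator_of_notMem h, zero_mul]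
  rw [e1]
  exact (hg.const_mul _).indicator measurableSet_Icc

theorem PS_eq {κ T : ℝ} (hκ : 0 < κ) (hT : 0 < T) (y : ℝ) : PS κ T y =
    1 / (2 * (κ / T)) * (Ps (κ / T) (y + κ / T) - Ps (κ / T) (y - κ / T)) -
    1 / (2 * (6 * (κ / T))) * (Ps (κ / T) (y + 6 * (κ / T)) - Ps (κ / T) (y - 6 * (κ / T))) := by
  obtain ⟨a, ha⟩ : ∃ a, a = κ / T := ⟨_, rfl⟩
  have ha0 : 0 < a := by rw [ha]; positivity
  have e6 : 6 * κ / T = 6 * a := by rw [ha]; ring
  have hps : ps κ T = fun y => bx a y - bx (6 * a) y := by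
    funext y
    unfold ps
    rw [e6, ← ha]
  rw [← ha]
  have hpi : Integrable (ps κ T) := by
    rw [hps]
    exact (bx_int a).sub (bx_int (6 * a))
  have hpy : Integrable fun z => ps κ T (z + y) := hpi.comp_add_right y
  have hprim : ∀ s : ℝ, ∫ z in (-s)..s, ps κ T (z + y) = Ps a (y + s) - Ps a (y - s) := by
    intro s
    rw [intervalIntegral.integral_comp_add_right (fun z => ps κ T z) y, hps]
    rw [intervalIntegral.integral_sub (bx_int a).intervalIntegrable
      (bx_int (6 * a)).intervalIntegrable, bx_prim ha0, bx_prim (by linarith)]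
    unfold Ps
    rw [show -s + y = y - s by ring, show s + y = y + s by ring]
    ring
  unfold PS
  have e1 : ∀ z, ps κ T z * ps κ T (z + y) =
      bx a z * ps κ T (z + y) - bx (6 * a) z * ps κ T (z + y) := by
    intro z
    have h1 : ps κ T z = bx a z - bx (6 * a) z := by rw [hps]
    rw [h1, sub_mul]
  simp only [e1]
  rw [integral_sub (box_int a _ hpy) (box_int (6 * a) _ hpy), box_mean ha0,
    box_mean (by linarith), hprim, hprim]

theorem psi : PsiStmt := by
  intro κ T hκ hT
  obtain ⟨a, ha⟩ : ∃ a, a = κ / T := ⟨_, rfl⟩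
  have ha0 : 0 < a := by rw [ha]; positivity
  have e12 : 12 * κ / T = 12 * a := by rw [ha]; ring
  have eT : T / κ = 1 / a := by rw [ha]; field_simp
  have hPS : ∀ y, PS κ T y = 1 / (2 * a) * (Ps a (y + a) - Ps a (y - a)) -
      1 / (2 * (6 * a)) * (Ps a (y + 6 * a) - Ps a (y - 6 * a)) := by
    intro y
    rw [PS_eq hκ hT y, ← ha]
  have hfun : PS κ T = fun y => 1 / (2 * a) * (Ps a (y + a) - Ps a (y - a)) -
      1 / (2 * (6 * a)) * (Ps a (y + 6 * a) - Ps a (y - 6 * a)) := funext hPS
  have hc := Ps_cont a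
  rw [e12, eT]
  have hbd : ∀ s y : ℝ, |Ps a (y + s) - Ps a (y - s)| ≤ 1 := by
    intro s y
    have h1 := Ps_bd ha0 (y + s)
    have h2 := Ps_bd ha0 (y - s)
    rw [abs_le] at h1 h2 ⊢
    constructor <;> linarith [h1.1, h1.2, h2.1, h2.2]
  have hz : ∀ s y : ℝ, 0 ≤ s → s ≤ 6 * a → 12 * a ≤ |y| → ∀ x ∈ uIcc (y - s) (y + s),
      Ps a x = 0 := by
    intro s y hs0 hs hy x hx
    rw [uIcc_of_le (by linarith)] at hx
    refine Ps_zero ha0 ?_
    rcases le_abs.1 hy with h | h
    · exact le_abs.2 (Or.inl (by linarith [hx.1]))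
    · exact le_abs.2 (Or.inr (by linarith [hx.2]))
  refine ⟨?_, ?_, ?_, ?_⟩
  · rw [hfun]
    have h1 : ∀ s : ℝ, Continuous fun y => Ps a (y + s) := fun s =>
      hc.comp (continuous_id.add continuous_const)
    have h2 : ∀ s : ℝ, Continuous fun y => Ps a (y - s) := fun s =>
      hc.comp (continuous_id.sub continuous_const)
    exact (((h1 a).sub (h2 a)).const_mul _).sub (((h1 (6 * a)).sub (h2 (6 * a))).const_mul _)
  · intro y
    rw [hPS]
    have h1 := hbd a y
    have h2 := hbd (6 * a) y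
    have h3 : |1 / (2 * a) * (Ps a (y + a) - Ps a (y - a))| ≤ 1 / (2 * a) * 1 := by
      rw [abs_mul, abs_of_pos (by positivity : (0 : ℝ) < 1 / (2 * a))]
      exact mul_le_mul_of_nonneg_left h1 (by positivity)
    have h4 : |1 / (2 * (6 * a)) * (Ps a (y + 6 * a) - Ps a (y - 6 * a))| ≤
        1 / (2 * (6 * a)) * 1 := by
      rw [abs_mul, abs_of_pos (by positivity : (0 : ℝ) < 1 / (2 * (6 * a)))]
      exact mul_le_mul_of_nonneg_left h2 (by positivity)
    refine le_trans (abs_sub _ _) (le_trans (add_le_add h3 h4) ?_)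
    rw [mul_one, mul_one, div_add_div _ _ (by positivity) (by positivity),
      div_le_div_iff₀ (by positivity) ha0]
    nlinarith [mul_pos ha0 ha0]
  · intro y hy
    rw [hPS, hz a y ha0.le (by linarith) hy _ right_mem_uIcc,
      hz a y ha0.le (by linarith) hy _ left_mem_uIcc,
      hz (6 * a) y (by linarith) le_rfl hy _ right_mem_uIcc,
      hz (6 * a) y (by linarith) le_rfl hy _ left_mem_uIcc]
    ring
  · let Om : ℝ → ℝ := fun y => ∫ x in (0 : ℝ)..y, Ps a x
    have hOm : ∀ y, HasDerivAt Om (Ps a y) y := by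
      intro y
      exact intervalIntegral.integral_hasDerivAt_right (hc.intervalIntegrable _ _)
        hc.aestronglyMeasurable.stronglyMeasurableAtFilter hc.continuousAt
    have hOd : ∀ s y : ℝ, Om (y + s) - Om (y - s) = ∫ x in (y - s)..(y + s), Ps a x := by
      intro s y
      exact intervalIntegral.integral_interval_sub_left (hc.intervalIntegrable _ _)
        (hc.intervalIntegrable _ _)
    refine ⟨fun y => 1 / (2 * a) * (Om (y + a) - Om (y - a)) -
      1 / (2 * (6 * a)) * (Om (y + 6 * a) - Om (y - 6 * a)), ?_, ?_, ?_⟩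
    · intro y
      rw [hPS]
      have h1 : ∀ s : ℝ, HasDerivAt (fun y => Om (y + s)) (Ps a (y + s)) y := fun s =>
        (hOm (y + s)).comp_add_const y s
      have h2 : ∀ s : ℝ, HasDerivAt (fun y => Om (y - s)) (Ps a (y - s)) y := fun s =>
        (hOm (y - s)).comp_sub_const y s
      exact (((h1 a).sub (h2 a)).const_mul _).sub (((h1 (6 * a)).sub (h2 (6 * a))).const_mul _)
    · intro y
      have h1 : ∀ s : ℝ, 0 < s → |1 / (2 * s) * (Om (y + s) - Om (y - s))| ≤ 1 / 2 := by
        intro s hs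
        rw [hOd, abs_mul, abs_of_pos (by positivity : (0 : ℝ) < 1 / (2 * s))]
        have h3 : ‖∫ x in (y - s)..(y + s), Ps a x‖ ≤ 1 / 2 * |y + s - (y - s)| :=
          intervalIntegral.norm_integral_le_of_norm_le_const fun x _ => Ps_bd ha0 x
        rw [show y + s - (y - s) = 2 * s by ring, abs_of_pos (by linarith : 0 < 2 * s)] at h3
        have h4 : |∫ x in (y - s)..(y + s), Ps a x| ≤ s := by
          have := h3
          rw [Real.norm_eq_abs] at this
          linarith
        calc 1 / (2 * s) * |∫ x in (y - s)..(y + s), Ps a x| ≤ 1 / (2 * s) * s :=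
              mul_le_mul_of_nonneg_left h4 (by positivity)
          _ = 1 / 2 := by field_simp
      refine le_trans (abs_sub _ _) ?_
      linarith [h1 a ha0, h1 (6 * a) (by linarith)]
    · intro y hy
      have h1 : ∀ s : ℝ, 0 ≤ s → s ≤ 6 * a → Om (y + s) - Om (y - s) = 0 := by
        intro s hs0 hs
        rw [hOd, intervalIntegral.integral_congr (g := fun _ => 0) (hz s y hs0 hs hy)]
        simp
      show 1 / (2 * a) * (Om (y + a) - Om (y - a)) -
        1 / (2 * (6 * a)) * (Om (y + 6 * a) - Om (y - 6 * a)) = 0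
      rw [h1 a ha0.le (by linarith), h1 (6 * a) (by linarith) le_rfl]
      ring

end

end Pool.Agent.CRT.H55
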