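import Pool.Agent.Helper55_CRT.Stmt

/-!
# MP_6bfaa3_an: module RIG, part 1: derivative of an equivariant map along a root direction
-/

open Matrix Topology Filter
open scoped ContDiff Matrix.Norms.Operator

namespace Pool.Agent.CRT

theorem entry_le {n : ℕ} (A : Mat n) (i j : Fin n) : |A i j| ≤ ‖A‖ := by
  have h := Matrix.linfty_opNorm_def A
  rw [h]
  have h1 : (‖A i j‖₊ : ℝ) ≤ ((∑ j : Fin n, ‖A i j‖₊ : NNReal) : ℝ) := by
    exact_mod_cast Finset.single_le_sum (f := fun j => ‖A i j‖₊) (fun _ _ => bot_le) (Finset.mem_univ j)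
  have h2 : (∑ j : Fin n, ‖A i j‖₊ : NNReal) ≤ Finset.univ.sup fun i : Fin n => ∑ j : Fin n, ‖A i j‖₊ :=
    Finset.le_sup (f := fun i : Fin n => ∑ j : Fin n, ‖A i j‖₊) (Finset.mem_univ i)
  calc |A i j| = (‖A i j‖₊ : ℝ) := by simp
    _ ≤ ((∑ j : Fin n, ‖A i j‖₊ : NNReal) : ℝ) := h1
    _ ≤ _ := by exact_mod_cast h2

theorem mem_Gam {n : ℕ} {γ : G n} (h : γ ∈ Gam n) : ∀ i j, ∃ z : ℤ, (γ : Mat n) i j = z := by
  obtain ⟨δ, rfl⟩ := h
  intro i j
  exact ⟨(δ : Matrix (Fin n) (Fin n) ℤ) i j, by simp⟩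

theorem gam_discrete {n : ℕ} {γ γ' : G n} (h : γ ∈ Gam n) (h' : γ' ∈ Gam n)
    (hd : ‖(γ : Mat n) - (γ' : Mat n)‖ < 1) : γ = γ' := by
  apply Subtype.ext
  ext i j
  obtain ⟨z, hz⟩ := mem_Gam h i j
  obtain ⟨z', hz'⟩ := mem_Gam h' i j
  have h1 : |(γ : Mat n) i j - (γ' : Mat n) i j| < 1 := by
    have := entry_le ((γ : Mat n) - (γ' : Mat n)) i j
    rw [Matrix.sub_apply] at this
    exact lt_of_le_of_lt this hd
  rw [hz, hz'] at h1
  have h2 : |z - z'| < 1 := by
    have : ((|z - z'| : ℤ) : ℝ) < 1 := by push_cast; exact h1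
    exact_mod_cast this
  have h3 : z - z' = 0 := Int.abs_lt_one_iff.mp h2
  change (γ : Mat n) i j = (γ' : Mat n) i j
  rw [hz, hz']
  congr 1
  linarith

theorem mk_eq_mk {n : ℕ} {k k' : G n} : mk k = mk k' ↔ k⁻¹ * k' ∈ Gam n := by
  unfold mk
  exact QuotientGroup.eq

theorem mk_mul_gam {n : ℕ} (k γ : G n) (h : γ ∈ Gam n) : mk (k * γ) = mk k := by
  rw [eq_comm, mk_eq_mk, inv_mul_cancel_left]
  exact h

theorem smul_mk {n : ℕ} (a g : G n) : a • mk g = mk (a * g) := rfl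

theorem coe_inv_mul {n : ℕ} (k : G n) : ((k⁻¹ : G n) : Mat n) * (k : Mat n) = 1 := by
  rw [← Matrix.SpecialLinearGroup.coe_mul, inv_mul_cancel]; rfl

theorem coe_mul_inv {n : ℕ} (k : G n) : (k : Mat n) * ((k⁻¹ : G n) : Mat n) = 1 := by
  rw [← Matrix.SpecialLinearGroup.coe_mul, mul_inv_cancel]; rfl

theorem coe_inv_eq {n : ℕ} (k : G n) : ((k : Mat n))⁻¹ = ((k⁻¹ : G n) : Mat n) :=
  Matrix.inv_eq_left_inv (coe_inv_mul k)

/-- A C^1 local lift of a map defined on G. -/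
def LiftAt {n : ℕ} (F : G n → X n) (Θ : Mat n → Mat n) (g : G n) : Prop :=
  ContDiffAt ℝ 1 Θ (g : Mat n) ∧ ∀ᶠ g' : G n in 𝓝 g, ∃ k : G n, (k : Mat n) = Θ (g' : Mat n) ∧ F g' = mk k

theorem continuous_coe {n : ℕ} : Continuous (fun g : G n => (g : Mat n)) := continuous_subtype_val

theorem lift_unique {n : ℕ} {F : G n → X n} {Θ Θ' : Mat n → Mat n} {g : G n}
    (h : ContinuousAt Θ (g : Mat n)) (h' : ContinuousAt Θ' (g : Mat n))
    (hl : ∀ᶠ g' : G n in 𝓝 g, ∃ k : G n, (k : Mat n) = Θ (g' : Mat n) ∧ F g' = mk k)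
    (hl' : ∀ᶠ g' : G n in 𝓝 g, ∃ k : G n, (k : Mat n) = Θ' (g' : Mat n) ∧ F g' = mk k) :
    ∃ γ ∈ Gam n, ∀ᶠ g' : G n in 𝓝 g, Θ' (g' : Mat n) = Θ (g' : Mat n) * (γ : Mat n) := by
  obtain ⟨k, hk, hF⟩ := hl.self_of_nhds
  obtain ⟨k', hk', hF'⟩ := hl'.self_of_nhds
  have hγ : k⁻¹ * k' ∈ Gam n := by
    rw [← mk_eq_mk, ← hF, ← hF']
  refine ⟨k⁻¹ * k', hγ, ?_⟩
  have hc : ContinuousAt (fun g' : G n => (Θ (g' : Mat n)).adjugate * Θ' (g' : Mat n)) g := by
    have h1 : ContinuousAt (fun g' : G n => Θ (g' : Mat n)) g :=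
      ContinuousAt.comp (f := fun g' : G n => (g' : Mat n)) (g := Θ) h continuous_coe.continuousAt
    have h2 : ContinuousAt (fun g' : G n => Θ' (g' : Mat n)) g :=
      ContinuousAt.comp (f := fun g' : G n => (g' : Mat n)) (g := Θ') h' continuous_coe.continuousAt
    have h3 : ContinuousAt (fun g' : G n => (Θ (g' : Mat n)).adjugate) g :=
      ContinuousAt.comp (f := fun g' : G n => Θ (g' : Mat n)) (g := fun B : Mat n => B.adjugate)
        (continuous_id.matrix_adjugate).continuousAt h1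
    exact h3.mul h2
  have hb : ∀ᶠ g' : G n in 𝓝 g, ‖(Θ (g' : Mat n)).adjugate * Θ' (g' : Mat n) -
      (Θ (g : Mat n)).adjugate * Θ' (g : Mat n)‖ < 1 := by
    have := Metric.tendsto_nhds.mp hc 1 one_pos
    simpa only [dist_eq_norm] using this
  filter_upwards [hl, hl', hb] with g' h1 h2 h3
  obtain ⟨l, hl1, hl2⟩ := h1
  obtain ⟨l', hl1', hl2'⟩ := h2
  rw [← hl1, ← hl1', ← hk, ← hk', ← Matrix.SpecialLinearGroup.coe_inv, ← Matrix.SpecialLinearGroup.coe_inv,
    ← Matrix.SpecialLinearGroup.coe_mul, ← Matrix.SpecialLinearGroup.coe_mul] at h3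
  have h4 : l⁻¹ * l' ∈ Gam n := by rw [← mk_eq_mk, ← hl2, ← hl2']
  have h5 := gam_discrete h4 hγ h3
  rw [← hl1, ← hl1', ← h5, ← Matrix.SpecialLinearGroup.coe_mul, mul_inv_cancel_left]

theorem LiftAt.eventually {n : ℕ} {F : G n → X n} {Θ : Mat n → Mat n} {g : G n} (h : LiftAt F Θ g) :
    ∀ᶠ g' : G n in 𝓝 g, LiftAt F Θ g' := by
  have h1 : ∀ᶠ B : Mat n in 𝓝 (g : Mat n), ContDiffAt ℝ 1 Θ B := h.1.eventually (by simp)
  have h2 : ∀ᶠ g' : G n in 𝓝 g, ContDiffAt ℝ 1 Θ (g' : Mat n) :=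
    continuous_coe.continuousAt.eventually h1
  filter_upwards [h2, h.2.eventually_nhds] with g' h3 h4
  exact ⟨h3, h4⟩

/-- the root vector -/
noncomputable def rootE {n : ℕ} (i j : Fin n) : Mat n := Matrix.single i j 1

theorem rootG_coe {n : ℕ} {i j : Fin n} (hij : i ≠ j) (t : ℝ) :
    ((rootG hij t : G n) : Mat n) = 1 + t • rootE i j := by
  change Matrix.transvection i j t = _
  rw [Matrix.transvection, rootE, Matrix.smul_single, smul_eq_mul, mul_one]

theorem rootG_add {n : ℕ} {i j : Fin n} (hij : i ≠ j) (s t : ℝ) :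
    rootG hij (s + t) = rootG hij s * rootG hij t := by
  apply Subtype.ext
  change Matrix.transvection i j (s + t) = Matrix.transvection i j s * Matrix.transvection i j t
  rw [Matrix.transvection_mul_transvection_same (h := hij)]

theorem rootG_zero {n : ℕ} {i j : Fin n} (hij : i ≠ j) : rootG hij 0 = (1 : G n) := by
  apply Subtype.ext
  rw [rootG_coe]; simp

theorem continuous_rootG {n : ℕ} {i j : Fin n} (hij : i ≠ j) : Continuous (rootG hij : ℝ → G n) := by
  apply Continuous.subtype_mk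
  have : (fun t : ℝ => Matrix.transvection i j t) = fun t : ℝ => 1 + t • rootE i j := by
    funext t
    exact rootG_coe hij t
  change Continuous (fun t : ℝ => Matrix.transvection i j t)
  rw [this]
  fun_prop

/-- velocity of a lift in the root direction, in the right trivialization -/
noncomputable def vel {n : ℕ} (i j : Fin n) (Θ : Mat n → Mat n) (g : G n) : Mat n :=
  fderiv ℝ Θ (g : Mat n) (rootE i j * (g : Mat n)) * (Θ (g : Mat n))⁻¹

theorem hasDerivAt_root {n : ℕ} {i j : Fin n} (hij : i ≠ j) {Θ : Mat n → Mat n} {g : G n}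
    (h : DifferentiableAt ℝ Θ (g : Mat n)) :
    HasDerivAt (fun t : ℝ => Θ ((rootG hij t * g : G n) : Mat n))
      (fderiv ℝ Θ (g : Mat n) (rootE i j * (g : Mat n))) 0 := by
  have h1 : HasDerivAt (fun t : ℝ => ((rootG hij t * g : G n) : Mat n)) (rootE i j * (g : Mat n)) 0 := by
    have : (fun t : ℝ => ((rootG hij t * g : G n) : Mat n)) =
        fun t : ℝ => (g : Mat n) + t • (rootE i j * (g : Mat n)) := by
      funext t
      rw [Matrix.SpecialLinearGroup.coe_mul, rootG_coe, add_mul, one_mul, smul_mul_assoc]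
    rw [this]
    have h2 : HasDerivAt (fun t : ℝ => t • (rootE i j * (g : Mat n)))
        ((1 : ℝ) • (rootE i j * (g : Mat n))) 0 := (hasDerivAt_id (0 : ℝ)).smul_const _
    rw [one_smul] at h2
    exact h2.const_add _
  have h0 : ((rootG hij 0 * g : G n) : Mat n) = (g : Mat n) := by rw [rootG_zero, one_mul]
  have h3 : HasFDerivAt Θ (fderiv ℝ Θ (g : Mat n)) ((rootG hij 0 * g : G n) : Mat n) := by
    rw [h0]; exact h.hasFDerivAt
  exact h3.comp_hasDerivAt (0 : ℝ) h1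

theorem vel_eq {n : ℕ} {i j : Fin n} (hij : i ≠ j) {F : G n → X n} {Θ Θ' : Mat n → Mat n} {g : G n}
    (h : LiftAt F Θ g) (h' : LiftAt F Θ' g) : vel i j Θ g = vel i j Θ' g := by
  obtain ⟨γ, -, hγ⟩ := lift_unique h.1.continuousAt h'.1.continuousAt h.2 h'.2
  have hd := hasDerivAt_root hij (h.1.differentiableAt one_ne_zero)
  have hd' := hasDerivAt_root hij (h'.1.differentiableAt one_ne_zero)
  have hev : (fun t : ℝ => Θ' ((rootG hij t * g : G n) : Mat n)) =ᶠ[𝓝 0]
      fun t : ℝ => Θ ((rootG hij t * g : G n) : Mat n) * (γ : Mat n) := by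
    have hc : ContinuousAt (fun t : ℝ => rootG hij t * g) 0 :=
      ((continuous_rootG hij).mul continuous_const).continuousAt
    have h0 : rootG hij 0 * g = g := by rw [rootG_zero, one_mul]
    have := hc.tendsto
    rw [h0] at this
    exact this.eventually hγ
  have hd2 := (hd.mul_const (γ : Mat n)).congr_of_eventuallyEq hev
  have e1 := hd'.unique hd2
  have e2 : Θ' (g : Mat n) = Θ (g : Mat n) * (γ : Mat n) := hγ.self_of_nhds
  obtain ⟨k, hk, -⟩ := h.2.self_of_nhds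
  unfold vel
  rw [e1, e2, ← hk, ← Matrix.SpecialLinearGroup.coe_mul, coe_inv_eq, coe_inv_eq, _root_.mul_inv_rev,
    Matrix.SpecialLinearGroup.coe_mul, mul_assoc, ← mul_assoc (γ : Mat n), coe_mul_inv, one_mul]

variable {n : ℕ}

/-- A map G to X which has C^1 local lifts everywhere. -/
def HasLifts (F : G n → X n) : Prop := ∀ g, ∃ Θ, LiftAt F Θ g

noncomputable def vm (i j : Fin n) {F : G n → X n} (hF : HasLifts F) (g : G n) : Mat n :=
  vel i j (hF g).choose g

theorem vm_eq {i j : Fin n} (hij : i ≠ j) {F : G n → X n} (hF : HasLifts F) {Θ : Mat n → Mat n} {g : G n}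
    (h : LiftAt F Θ g) : vm i j hF g = vel i j Θ g := vel_eq hij (hF g).choose_spec h

theorem vm_continuous {i j : Fin n} (hij : i ≠ j) {F : G n → X n} (hF : HasLifts F) :
    Continuous (vm i j hF) := by
  rw [continuous_iff_continuousAt]
  intro g
  obtain ⟨Θ, hΘ⟩ := hF g
  have hev : vm i j hF =ᶠ[𝓝 g] vel i j Θ := by
    filter_upwards [hΘ.eventually] with g' h
    exact vm_eq hij hF h
  rw [continuousAt_congr hev]
  have h1 : ContinuousAt (fun B : Mat n => fderiv ℝ Θ B) (g : Mat n) :=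
    (hΘ.1.fderiv_right (m := 0) (by simp)).continuousAt
  have h2 : ContinuousAt (fun g' : G n => fderiv ℝ Θ (g' : Mat n)) g :=
    ContinuousAt.comp (f := fun g' : G n => (g' : Mat n)) (g := fun B : Mat n => fderiv ℝ Θ B) h1
      continuous_coe.continuousAt
  have h3 : ContinuousAt (fun g' : G n => Θ (g' : Mat n)) g :=
    ContinuousAt.comp (f := fun g' : G n => (g' : Mat n)) (g := Θ) hΘ.1.continuousAt
      continuous_coe.continuousAt
  have h4 : ContinuousAt (fun g' : G n => (Θ (g' : Mat n)).adjugate) g :=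
    ContinuousAt.comp (f := fun g' : G n => Θ (g' : Mat n)) (g := fun B : Mat n => B.adjugate)
      (continuous_id.matrix_adjugate).continuousAt h3
  have h5 : ContinuousAt (fun g' : G n => rootE i j * (g' : Mat n)) g :=
    (continuous_const.mul continuous_coe).continuousAt
  have h6 : ContinuousAt (fun g' : G n => fderiv ℝ Θ (g' : Mat n) (rootE i j * (g' : Mat n)) *
      (Θ (g' : Mat n)).adjugate) g := (h2.clm_apply h5).mul h4
  have hev2 : vel i j Θ =ᶠ[𝓝 g] fun g' : G n => fderiv ℝ Θ (g' : Mat n) (rootE i j * (g' : Mat n)) *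
      (Θ (g' : Mat n)).adjugate := by
    filter_upwards [hΘ.2] with g' h
    obtain ⟨k, hk, -⟩ := h
    unfold vel
    rw [← hk, coe_inv_eq, Matrix.SpecialLinearGroup.coe_inv]
  rw [continuousAt_congr hev2]
  exact h6

theorem vm_right {i j : Fin n} (hij : i ≠ j) {F : G n → X n} (hF : HasLifts F)
    (hinv : ∀ g γ : G n, γ ∈ Gam n → F (g * γ) = F g) (g γ : G n) (hγ : γ ∈ Gam n) :
    vm i j hF (g * γ) = vm i j hF g := by
  obtain ⟨Θ, hΘ⟩ := hF g
  have hL : LiftAt F (fun B => Θ (B * ((γ⁻¹ : G n) : Mat n))) (g * γ) := by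
    constructor
    · have h1 : ContDiffAt ℝ 1 (fun B : Mat n => B * ((γ⁻¹ : G n) : Mat n)) ((g * γ : G n) : Mat n) :=
        (contDiff_id.mul contDiff_const).contDiffAt
      have h2 : ContDiffAt ℝ 1 Θ (((g * γ : G n) : Mat n) * ((γ⁻¹ : G n) : Mat n)) := by
        rw [← Matrix.SpecialLinearGroup.coe_mul, mul_inv_cancel_right]
        exact hΘ.1
      exact ContDiffAt.comp (f := fun B : Mat n => B * ((γ⁻¹ : G n) : Mat n)) _ h2 h1
    · have hc : Tendsto (fun g' : G n => g' * γ⁻¹) (𝓝 (g * γ)) (𝓝 g) := by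
        have h0 : Continuous (fun g' : G n => g' * γ⁻¹) := continuous_id.mul continuous_const
        have := h0.tendsto (g * γ)
        simp only [mul_inv_cancel_right] at this
        exact this
      filter_upwards [hc.eventually hΘ.2] with g' h
      obtain ⟨k, hk, hk2⟩ := h
      refine ⟨k, ?_, ?_⟩
      · rw [hk, Matrix.SpecialLinearGroup.coe_mul]
      · rw [← hk2, hinv _ _ (inv_mem hγ)]
  rw [vm_eq hij hF hΘ, vm_eq hij hF hL]
  unfold vel
  have hgg : ((g * γ : G n) : Mat n) * ((γ⁻¹ : G n) : Mat n) = (g : Mat n) := by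
    rw [← Matrix.SpecialLinearGroup.coe_mul, mul_inv_cancel_right]
  have hf : fderiv ℝ (fun B : Mat n => Θ (B * ((γ⁻¹ : G n) : Mat n))) ((g * γ : G n) : Mat n)
      (rootE i j * ((g * γ : G n) : Mat n)) = fderiv ℝ Θ (g : Mat n) (rootE i j * (g : Mat n)) := by
    have h1 : HasFDerivAt (fun B : Mat n => B * ((γ⁻¹ : G n) : Mat n))
        ((ContinuousLinearMap.mul ℝ (Mat n)).flip ((γ⁻¹ : G n) : Mat n)) ((g * γ : G n) : Mat n) :=
      ((ContinuousLinearMap.mul ℝ (Mat n)).flip ((γ⁻¹ : G n) : Mat n)).hasFDerivAt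
    have h2 : HasFDerivAt Θ (fderiv ℝ Θ (g : Mat n)) (((g * γ : G n) : Mat n) * ((γ⁻¹ : G n) : Mat n)) := by
      rw [hgg]
      exact (hΘ.1.differentiableAt one_ne_zero).hasFDerivAt
    have h3 := HasFDerivAt.comp (f := fun B : Mat n => B * ((γ⁻¹ : G n) : Mat n)) _ h2 h1
    have h4 := h3.fderiv
    change fderiv ℝ (fun B : Mat n => Θ (B * ((γ⁻¹ : G n) : Mat n))) ((g * γ : G n) : Mat n) = _ at h4
    rw [h4]
    change fderiv ℝ Θ (g : Mat n) (rootE i j * ((g * γ : G n) : Mat n) * ((γ⁻¹ : G n) : Mat n)) = _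
    rw [mul_assoc, hgg]
  rw [hf]
  change _ * (Θ (((g * γ : G n) : Mat n) * ((γ⁻¹ : G n) : Mat n)))⁻¹ = _
  rw [hgg]

/-- The linear map of the left equivariance. -/
noncomputable def TT (c : ℝ) (r : G n) : Mat n →L[ℝ] Mat n :=
  c • ((ContinuousLinearMap.mul ℝ (Mat n) (r : Mat n)).comp
    ((ContinuousLinearMap.mul ℝ (Mat n)).flip ((r⁻¹ : G n) : Mat n)))

theorem TT_apply (c : ℝ) (r : G n) (v : Mat n) :
    TT c r v = c • ((r : Mat n) * (v * ((r⁻¹ : G n) : Mat n))) := rfl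

theorem vm_left {i j : Fin n} (hij : i ≠ j) {F : G n → X n} (hF : HasLifts F)
    (a r : G n) (c : ℝ) (hc : ((a⁻¹ : G n) : Mat n) * rootE i j * (a : Mat n) = c • rootE i j)
    (hinv : ∀ g : G n, F (a * g) = r • F g) (g : G n) :
    vm i j hF (a * g) = TT c r (vm i j hF g) := by
  obtain ⟨Θ, hΘ⟩ := hF g
  have hL : LiftAt F (fun B => (r : Mat n) * Θ (((a⁻¹ : G n) : Mat n) * B)) (a * g) := by
    constructor
    · have h1 : ContDiffAt ℝ 1 (fun B : Mat n => ((a⁻¹ : G n) : Mat n) * B) ((a * g : G n) : Mat n) :=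
        (contDiff_const.mul contDiff_id).contDiffAt
      have h2 : ContDiffAt ℝ 1 Θ (((a⁻¹ : G n) : Mat n) * ((a * g : G n) : Mat n)) := by
        rw [← Matrix.SpecialLinearGroup.coe_mul, inv_mul_cancel_left]
        exact hΘ.1
      exact contDiffAt_const.mul (ContDiffAt.comp (f := fun B : Mat n => ((a⁻¹ : G n) : Mat n) * B) _ h2 h1)
    · have hc : Tendsto (fun g' : G n => a⁻¹ * g') (𝓝 (a * g)) (𝓝 g) := by
        have h0 : Continuous (fun g' : G n => a⁻¹ * g') := continuous_const.mul continuous_id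
        have := h0.tendsto (a * g)
        simp only [inv_mul_cancel_left] at this
        exact this
      filter_upwards [hc.eventually hΘ.2] with g' h
      obtain ⟨k, hk, hk2⟩ := h
      refine ⟨r * k, ?_, ?_⟩
      · rw [Matrix.SpecialLinearGroup.coe_mul, hk, Matrix.SpecialLinearGroup.coe_mul]
      · have := hinv (a⁻¹ * g')
        rw [mul_inv_cancel_left] at this
        rw [this, hk2, smul_mk]
  rw [vm_eq hij hF hΘ, vm_eq hij hF hL, TT_apply]
  unfold vel
  have hgg : ((a⁻¹ : G n) : Mat n) * ((a * g : G n) : Mat n) = (g : Mat n) := by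
    rw [← Matrix.SpecialLinearGroup.coe_mul, inv_mul_cancel_left]
  have hf : fderiv ℝ (fun B : Mat n => (r : Mat n) * Θ (((a⁻¹ : G n) : Mat n) * B)) ((a * g : G n) : Mat n)
      (rootE i j * ((a * g : G n) : Mat n)) =
      (r : Mat n) * (c • fderiv ℝ Θ (g : Mat n) (rootE i j * (g : Mat n))) := by
    have h1 : HasFDerivAt (fun B : Mat n => ((a⁻¹ : G n) : Mat n) * B)
        (ContinuousLinearMap.mul ℝ (Mat n) ((a⁻¹ : G n) : Mat n)) ((a * g : G n) : Mat n) :=
      (ContinuousLinearMap.mul ℝ (Mat n) ((a⁻¹ : G n) : Mat n)).hasFDerivAt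
    have h2 : HasFDerivAt Θ (fderiv ℝ Θ (g : Mat n)) (((a⁻¹ : G n) : Mat n) * ((a * g : G n) : Mat n)) := by
      rw [hgg]
      exact (hΘ.1.differentiableAt one_ne_zero).hasFDerivAt
    have h3 := HasFDerivAt.comp (f := fun B : Mat n => ((a⁻¹ : G n) : Mat n) * B) _ h2 h1
    have h3' := (ContinuousLinearMap.mul ℝ (Mat n) (r : Mat n)).hasFDerivAt.comp
      ((a * g : G n) : Mat n) h3
    have h4 := h3'.fderiv
    change fderiv ℝ (fun B : Mat n => (r : Mat n) * Θ (((a⁻¹ : G n) : Mat n) * B))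
      ((a * g : G n) : Mat n) = _ at h4
    rw [h4]
    change (r : Mat n) * (fderiv ℝ Θ (g : Mat n)
      (((a⁻¹ : G n) : Mat n) * (rootE i j * ((a * g : G n) : Mat n)))) = _
    rw [Matrix.SpecialLinearGroup.coe_mul, ← mul_assoc, ← mul_assoc, hc, smul_mul_assoc, map_smul]
  rw [hf]
  change _ * ((r : Mat n) * Θ (((a⁻¹ : G n) : Mat n) * ((a * g : G n) : Mat n)))⁻¹ = _
  rw [hgg]
  obtain ⟨k, hk, -⟩ := hΘ.2.self_of_nhds
  rw [← hk, ← Matrix.SpecialLinearGroup.coe_mul, coe_inv_eq, coe_inv_eq, _root_.mul_inv_rev,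
    Matrix.SpecialLinearGroup.coe_mul]
  rw [mul_smul_comm, smul_mul_assoc]
  congr 1
  simp only [mul_assoc]

end Pool.Agent.CRT
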