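import Pool.Agent.Helper55_CRT.VolB
import Pool.Agent.Helper55_CRT.Rig1

/-!
# MP_6bfaa3_an: module PIG: recurrence of open sets
-/

open Matrix Topology Filter MeasureTheory

namespace Pool.Agent.CRT

open scoped Matrix.Norms.Operator in
theorem sep {n : ℕ} (g₀ : G n) : ∃ V ∈ 𝓝 g₀, ∀ x ∈ V, ∀ y ∈ V, ∀ γ ∈ Gam n, y = x * γ → γ = 1 := by
  have hc : Continuous (fun p : G n × G n => ((p.1⁻¹ * p.2 : G n) : Mat n)) :=
    continuous_coe.comp (continuous_fst.inv.mul continuous_snd)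
  have h1 : ∀ᶠ p : G n × G n in 𝓝 (g₀, g₀), ‖((p.1⁻¹ * p.2 : G n) : Mat n) - ((1 : G n) : Mat n)‖ < 1 := by
    have h2 := hc.tendsto (g₀, g₀)
    simp only [inv_mul_cancel] at h2
    have := Metric.tendsto_nhds.mp h2 1 one_pos
    simpa only [dist_eq_norm] using this
  rw [nhds_prod_eq] at h1
  obtain ⟨V, hV, h3⟩ := (Filter.eventually_prod_self_iff (r := fun x y : G n =>
    ‖((x⁻¹ * y : G n) : Mat n) - ((1 : G n) : Mat n)‖ < 1)).mp h1
  refine ⟨V, hV, fun x hx y hy γ hγ hxy => ?_⟩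
  have h4 := h3 x hx y hy
  have h5 : x⁻¹ * y = γ := by rw [hxy, inv_mul_cancel_left]
  rw [h5] at h4
  exact gam_discrete hγ (one_mem _) h4

/-- integer matrices with unit determinant -/
abbrev Gpm (n : ℕ) := {γ : Matrix (Fin n) (Fin n) ℤ // IsUnit γ.det}

instance (n : ℕ) : Countable (Matrix (Fin n) (Fin n) ℤ) := inferInstanceAs (Countable (Fin n → Fin n → ℤ))

namespace Gpm

variable {n : ℕ}

noncomputable def R (γ : Gpm n) : Mat n := γ.1.map (Int.cast : ℤ → ℝ)
noncomputable def R' (γ : Gpm n) : Mat n := (γ.1⁻¹).map (Int.cast : ℤ → ℝ)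

theorem map_mul' (A B : Matrix (Fin n) (Fin n) ℤ) :
    (A * B).map (Int.cast : ℤ → ℝ) = A.map (Int.cast : ℤ → ℝ) * B.map (Int.cast : ℤ → ℝ) := by
  have := (Int.castRingHom ℝ).mapMatrix.map_mul A B
  simpa using this

theorem map_one' : (1 : Matrix (Fin n) (Fin n) ℤ).map (Int.cast : ℤ → ℝ) = 1 := by
  exact Matrix.map_one _ (by simp) (by simp)

theorem det_map' (A : Matrix (Fin n) (Fin n) ℤ) : (A.map (Int.cast : ℤ → ℝ)).det = ((A.det : ℤ) : ℝ) := by
  have := (Int.castRingHom ℝ).map_det A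
  rw [RingHom.mapMatrix_apply] at this
  exact this.symm

theorem R_R' (γ : Gpm n) : γ.R * γ.R' = 1 := by
  rw [R, R', ← map_mul', Matrix.mul_nonsing_inv _ γ.2, map_one']

theorem R'_R (γ : Gpm n) : γ.R' * γ.R = 1 := by
  rw [R, R', ← map_mul', Matrix.nonsing_inv_mul _ γ.2, map_one']

theorem abs_det_R (γ : Gpm n) : |γ.R.det| = 1 := by
  rw [R, det_map']
  rcases Int.isUnit_iff.mp γ.2 with h | h <;> rw [h] <;> simp

/-- an integer matrix with positive unit determinant is in the lattice -/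
theorem mem_of_pos (A : Matrix (Fin n) (Fin n) ℤ) (hA : IsUnit A.det)
    (hp : 0 < (A.map (Int.cast : ℤ → ℝ)).det) : ∃ ε ∈ Gam n, ((ε : G n) : Mat n) = A.map (Int.cast : ℤ → ℝ) := by
  rw [det_map'] at hp
  have hA1 : A.det = 1 := by
    rcases Int.isUnit_iff.mp hA with h | h
    · exact h
    · rw [h] at hp; norm_num at hp
  refine ⟨Matrix.SpecialLinearGroup.map (Int.castRingHom ℝ) ⟨A, hA1⟩, ⟨_, rfl⟩, ?_⟩
  rfl

end Gpm

/-- two sided multiplication -/
noncomputable def two {n : ℕ} (M N : Mat n) (B : Fin n → Fin n → ℝ) : Fin n → Fin n → ℝ :=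
  fun i j => (M * Matrix.of B * N) i j

theorem of_two {n : ℕ} (M N : Mat n) (B : Fin n → Fin n → ℝ) :
    Matrix.of (two M N B) = M * Matrix.of B * N := rfl

theorem measurePreserving_two {n : ℕ} (M N : Mat n) (hM : |M.det| = 1) (hN : |N.det| = 1) :
    MeasurePreserving (two M N) := by
  have h := (measurePreserving_right (p := n) N hN).comp (measurePreserving_left (m := n) M hM)
  have e : two M N = (fun (W : Fin n → Fin n → ℝ) (i : Fin n) (j : Fin n) => ∑ k, W i k * N k j) ∘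
      (fun (W : Fin n → Fin n → ℝ) (i : Fin n) (j : Fin n) => ∑ k, M i k * W k j) := by
    funext B i j
    change (M * Matrix.of B * N) i j = _
    rw [Matrix.mul_apply]
    simp only [Function.comp, Matrix.mul_apply, Matrix.of_apply]
  rw [e]
  exact h

/-- normalization of the determinant -/
noncomputable def nu {n : ℕ} (B : Mat n) : Mat n := (B.det ^ (-(1 : ℝ) / n)) • B

theorem det_nu {n : ℕ} (hn : n ≠ 0) {B : Mat n} (h : 0 < B.det) : (nu B).det = 1 := by
  rw [nu, Matrix.det_smul, Fintype.card_fin, ← Real.rpow_natCast, ← Real.rpow_mul h.le]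
  have : -(1 : ℝ) / n * n = -1 := by
    have : (n : ℝ) ≠ 0 := by exact_mod_cast hn
    field_simp
  rw [this, Real.rpow_neg_one, inv_mul_cancel₀ h.ne']

theorem nu_mul {n : ℕ} {B M N : Mat n} (h : (M * B * N).det = B.det) : nu (M * B * N) = M * nu B * N := by
  rw [nu, nu, h, mul_smul_comm, smul_mul_assoc]

theorem pig : PigStmt := by
  classical
  intro n a U hU hUne N
  obtain ⟨g₀, hg₀⟩ := hUne
  rcases Nat.eq_zero_or_pos n with hn | hn
  · subst hn
    refine ⟨N, le_rfl, g₀, hg₀, 1, one_mem _, ?_⟩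
    have : a ^ N * g₀ * 1 = g₀ := by
      apply Subtype.ext
      ext i
      exact i.elim0
    rw [this]
    exact hg₀
  by_contra hcon
  push Not at hcon
  obtain ⟨V, hV, hsep⟩ := sep g₀
  -- the small open set, as a preimage of an open set of matrices
  obtain ⟨V', hV'V, hV'o, hg₀V'⟩ := mem_nhds_iff.mp hV
  obtain ⟨O, hO, hOeq⟩ := isOpen_induced_iff.mp (hU.inter hV'o)
  have hOmem : ∀ g : G n, (g : Mat n) ∈ O ↔ g ∈ U ∩ V' := by
    intro g
    rw [← hOeq]
    rfl
  obtain ⟨F, hFm, hFv, hF⟩ := vol n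
  let E := Fin n → Fin n → ℝ
  let Vh : Set E := {B | 0 < (Matrix.of B).det ∧ (Matrix.of B).det < 1 ∧ nu (Matrix.of B) ∈ O}
  have hof : Continuous (fun B : E => (Matrix.of B : Mat n)) := continuous_id
  have hdetc : Continuous (fun B : E => (Matrix.of B : Mat n).det) := hof.matrix_det
  have hVho : IsOpen Vh := by
    rw [isOpen_iff_mem_nhds]
    rintro B ⟨h1, h2, h3⟩
    have e1 : ∀ᶠ B' : E in 𝓝 B, 0 < (Matrix.of B' : Mat n).det :=
      (hdetc.tendsto B).eventually (lt_mem_nhds h1)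
    have e2 : ∀ᶠ B' : E in 𝓝 B, (Matrix.of B' : Mat n).det < 1 :=
      (hdetc.tendsto B).eventually (gt_mem_nhds h2)
    have e3 : ContinuousAt (fun B' : E => nu (Matrix.of B' : Mat n)) B := by
      unfold nu
      exact (hdetc.continuousAt.rpow_const (Or.inl h1.ne')).smul hof.continuousAt
    have e4 : ∀ᶠ B' : E in 𝓝 B, nu (Matrix.of B' : Mat n) ∈ O := e3.tendsto.eventually (hO.mem_nhds h3)
    filter_upwards [e1, e2, e4] with B' f1 f2 f3
    exact ⟨f1, f2, f3⟩
  have hVhne : Vh.Nonempty := by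
    refine ⟨fun i j => (1 / 2 : ℝ) * (g₀ : Mat n) i j, ?_⟩
    have e0 : (Matrix.of fun i j => (1 / 2 : ℝ) * (g₀ : Mat n) i j) = (1 / 2 : ℝ) • (g₀ : Mat n) := by
      ext i j; rfl
    have e1 : ((1 / 2 : ℝ) • (g₀ : Mat n)).det = (1 / 2 : ℝ) ^ n := by
      rw [Matrix.det_smul, Fintype.card_fin, g₀.2, mul_one]
    refine ⟨?_, ?_, ?_⟩
    · rw [e0, e1]; positivity
    · rw [e0, e1]
      exact pow_lt_one₀ (by norm_num) (by norm_num) hn.ne'
    · rw [e0]
      have e2 : nu ((1 / 2 : ℝ) • (g₀ : Mat n)) = (g₀ : Mat n) := by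
        rw [nu, e1, smul_smul, ← Real.rpow_natCast, ← Real.rpow_mul (by norm_num)]
        have : (n : ℝ) * (-(1 : ℝ) / n) = -1 := by
          have : (n : ℝ) ≠ 0 := by exact_mod_cast hn.ne'
          field_simp
        rw [this, Real.rpow_neg_one]
        norm_num
      rw [e2, hOmem]
      exact ⟨hg₀, hg₀V'⟩
  have hVh0 : volume Vh ≠ 0 := hVho.measure_ne_zero volume hVhne
  -- points of Vh
  have hpt : ∀ B ∈ Vh, ∃ g : G n, g ∈ U ∩ V' ∧ (g : Mat n) = nu (Matrix.of B) := by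
    rintro B ⟨h1, h2, h3⟩
    refine ⟨⟨nu (Matrix.of B), det_nu hn.ne' h1⟩, ?_, rfl⟩
    rw [← hOmem]
    exact h3
  set N' := N + 1 with hN'
  set b : G n := a ^ N' with hb
  -- the pieces
  let f : ℕ × Gpm n → E → E := fun p => two ((b ^ p.1 : G n) : Mat n) p.2.R'
  let h : ℕ × Gpm n → E → E := fun p => two (((b ^ p.1)⁻¹ : G n) : Mat n) p.2.R
  have hdetG : ∀ g : G n, |(g : Mat n).det| = 1 := fun g => by rw [g.2, abs_one]
  have hdetR' : ∀ γ : Gpm n, |γ.R'.det| = 1 := by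
    intro γ
    have h1 := congrArg (fun M : Mat n => |M.det|) γ.R_R'
    simp only [Matrix.det_mul, abs_mul, γ.abs_det_R, one_mul, Matrix.det_one, abs_one] at h1
    exact h1
  have hfm : ∀ p, MeasurePreserving (f p) := fun p => measurePreserving_two _ _ (hdetG _) (hdetR' _)
  have hhm : ∀ p, MeasurePreserving (h p) := fun p => measurePreserving_two _ _ (hdetG _) p.2.abs_det_R
  have hfh : ∀ p B, f p (h p B) = B := by
    intro p B
    have : Matrix.of (f p (h p B)) = Matrix.of B := by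
      change ((b ^ p.1 : G n) : Mat n) * ((((b ^ p.1)⁻¹ : G n) : Mat n) * Matrix.of B * p.2.R) * p.2.R' = _
      calc ((b ^ p.1 : G n) : Mat n) * ((((b ^ p.1)⁻¹ : G n) : Mat n) * Matrix.of B * p.2.R) * p.2.R'
          = (((b ^ p.1 : G n) : Mat n) * (((b ^ p.1)⁻¹ : G n) : Mat n)) * Matrix.of B * (p.2.R * p.2.R') := by
            simp only [mul_assoc]
        _ = Matrix.of B := by rw [coe_mul_inv, p.2.R_R', one_mul, mul_one]
    exact this
  let P : ℕ × Gpm n → Set E := fun p => F ∩ f p ⁻¹' Vh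
  have hPm : ∀ p, MeasurableSet (P p) := fun p => hFm.inter ((hfm p).measurable hVho.measurableSet)
  have hPF : (⋃ p, P p) ⊆ F := Set.iUnion_subset fun p => Set.inter_subset_left
  -- disjointness
  have key : ∀ (i j : ℕ) (γ δ : Gpm n) (B : E), i ≤ j → f (i, γ) B ∈ Vh → f (j, δ) B ∈ Vh →
      (i, γ) = (j, δ) := by
    intro i j γ δ B hij h1 h2
    set B1 := f (i, γ) B with hB1
    set B2 := f (j, δ) B with hB2
    -- integer matrix
    let A : Matrix (Fin n) (Fin n) ℤ := γ.1 * δ.1⁻¹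
    have hAu : IsUnit A.det := by
      rw [Matrix.det_mul]
      exact γ.2.mul (by
        rw [Matrix.det_nonsing_inv]
        exact (Ring.inverse_unit δ.2.unit ▸ (δ.2.unit⁻¹).isUnit))
    have hAR : A.map (Int.cast : ℤ → ℝ) = γ.R * δ.R' := Gpm.map_mul' _ _
    have hrel : (Matrix.of B2 : Mat n) = ((b ^ (j - i) : G n) : Mat n) * Matrix.of B1 *
        A.map (Int.cast : ℤ → ℝ) := by
      rw [hAR]
      change ((b ^ j : G n) : Mat n) * Matrix.of B * δ.R' = ((b ^ (j - i) : G n) : Mat n) *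
        (((b ^ i : G n) : Mat n) * Matrix.of B * γ.R') * (γ.R * δ.R')
      have e1 : ((b ^ j : G n) : Mat n) = ((b ^ (j - i) : G n) : Mat n) * ((b ^ i : G n) : Mat n) := by
        rw [← Matrix.SpecialLinearGroup.coe_mul, ← pow_add, Nat.sub_add_cancel hij]
      calc ((b ^ j : G n) : Mat n) * Matrix.of B * δ.R'
          = ((b ^ (j - i) : G n) : Mat n) * ((b ^ i : G n) : Mat n) * Matrix.of B * ((γ.R' * γ.R) * δ.R') := by
            rw [e1, γ.R'_R, one_mul]
        _ = _ := by simp only [mul_assoc]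
    have hdetrel : (Matrix.of B2 : Mat n).det = (Matrix.of B1 : Mat n).det *
        (A.map (Int.cast : ℤ → ℝ)).det := by
      rw [hrel, Matrix.det_mul, Matrix.det_mul, (b ^ (j - i)).2, one_mul]
    have hApos : 0 < (A.map (Int.cast : ℤ → ℝ)).det := by
      have := h2.1
      rw [hdetrel] at this
      exact (mul_pos_iff_of_pos_left h1.1).mp this
    obtain ⟨ε, hε, hεA⟩ := Gpm.mem_of_pos A hAu hApos
    have hdeteq : (Matrix.of B2 : Mat n).det = (Matrix.of B1 : Mat n).det := by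
      rw [hdetrel, ← hεA, ε.2, mul_one]
    obtain ⟨g1, hg1, hg1'⟩ := hpt B1 h1
    obtain ⟨g2, hg2, hg2'⟩ := hpt B2 h2
    have hg : g2 = b ^ (j - i) * g1 * ε := by
      apply Subtype.ext
      change (g2 : Mat n) = ((b ^ (j - i) * g1 * ε : G n) : Mat n)
      rw [Matrix.SpecialLinearGroup.coe_mul, Matrix.SpecialLinearGroup.coe_mul, hg2', hg1', hεA, hrel]
      apply nu_mul
      rw [← hrel]
      exact hdeteq
    rcases Nat.eq_or_lt_of_le hij with heq | hlt
    · subst heq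
      rw [Nat.sub_self, pow_zero, one_mul] at hg
      have hε1 := hsep g1 (hV'V hg1.2) g2 (hV'V hg2.2) ε hε hg
      have hA1 : A.map (Int.cast : ℤ → ℝ) = 1 := by
        rw [← hεA, hε1, Matrix.SpecialLinearGroup.coe_one]
      have hγδ : γ = δ := by
        apply Subtype.ext
        have hR : γ.R = δ.R := by
          calc γ.R = γ.R * (δ.R' * δ.R) := by rw [δ.R'_R, mul_one]
            _ = (γ.R * δ.R') * δ.R := by rw [mul_assoc]
            _ = δ.R := by rw [← hAR, hA1, one_mul]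
        ext r s
        have := congrFun (congrFun hR r) s
        unfold Gpm.R at this
        rw [Matrix.map_apply, Matrix.map_apply] at this
        exact_mod_cast this
      rw [hγδ]
    · exfalso
      have hk : N ≤ N' * (j - i) := by
        have : 1 ≤ j - i := by omega
        nlinarith
      have h5 := hcon (N' * (j - i)) hk g1 hg1.1 ε hε
      apply h5
      have h6 : a ^ (N' * (j - i)) = b ^ (j - i) := by rw [hb, ← pow_mul]
      rw [h6, ← hg]
      exact hg2.1
  have hdisj : Pairwise (Function.onFun Disjoint P) := by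
    rintro ⟨i, γ⟩ ⟨j, δ⟩ hne
    rw [Function.onFun, Set.disjoint_left]
    rintro B ⟨-, h1⟩ ⟨-, h2⟩
    rcases le_total i j with hij | hij
    · exact hne (key i j γ δ B hij h1 h2)
    · exact hne (key j i δ γ B hij h2 h1).symm
  -- covering
  have hcov : ∀ i : ℕ, volume Vh ≤ ∑' γ : Gpm n, volume (P (i, γ)) := by
    intro i
    have hsub : Vh ⊆ ⋃ γ : Gpm n, h (i, γ) ⁻¹' (P (i, γ)) := by
      intro B hB
      have hd : ((((b ^ i)⁻¹ : G n) : Mat n) * Matrix.of B).det = (Matrix.of B : Mat n).det := by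
        rw [Matrix.det_mul, ((b ^ i)⁻¹).2, one_mul]
      obtain ⟨γ, hγ, hm⟩ := hF ((((b ^ i)⁻¹ : G n) : Mat n) * Matrix.of B)
        (by rw [hd]; exact hB.1.ne') (by rw [hd, abs_of_pos hB.1]; exact hB.2.1.le)
      refine Set.mem_iUnion.mpr ⟨⟨γ, hγ⟩, ?_, ?_⟩
      · exact hm
      · change f (i, ⟨γ, hγ⟩) (h (i, ⟨γ, hγ⟩) B) ∈ Vh
        rw [hfh]
        exact hB
    calc volume Vh ≤ volume (⋃ γ : Gpm n, h (i, γ) ⁻¹' (P (i, γ))) := measure_mono hsub
      _ ≤ ∑' γ : Gpm n, volume (h (i, γ) ⁻¹' (P (i, γ))) := measure_iUnion_le _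
      _ = ∑' γ : Gpm n, volume (P (i, γ)) := by
        congr 1
        funext γ
        exact (hhm (i, γ)).measure_preimage (hPm _).nullMeasurableSet
  have htot : ∑' i : ℕ, volume Vh ≤ volume F := by
    calc ∑' i : ℕ, volume Vh ≤ ∑' i : ℕ, ∑' γ : Gpm n, volume (P (i, γ)) := ENNReal.tsum_le_tsum hcov
      _ = ∑' p : ℕ × Gpm n, volume (P p) := ENNReal.tsum_prod.symm
      _ = volume (⋃ p, P p) := (measure_iUnion hdisj hPm).symm
      _ ≤ volume F := measure_mono hPF
  rw [ENNReal.tsum_const_eq_top_of_ne_zero hVh0] at htot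
  exact absurd hFv (not_lt.mpr htot)

end Pool.Agent.CRT
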