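import Pool.Agent.Helper55_CRT.Rig1

/-!
# MP_6bfaa3_an: module RIG, part 2
-/

open Matrix Topology Filter
open scoped ContDiff Matrix.Norms.Operator

namespace Pool.Agent.CRT

theorem hasDerivAt_abs_cube (t : ℝ) : HasDerivAt (fun t : ℝ => |t| ^ 3) (3 * (t * |t|)) t := by
  rcases lt_trichotomy t 0 with h | h | h
  · have h1 : (fun t : ℝ => |t| ^ 3) =ᶠ[𝓝 t] fun t => -t ^ 3 := by
      filter_upwards [gt_mem_nhds h] with s hs
      rw [abs_of_neg hs]; ring
    have h2 : HasDerivAt (fun t : ℝ => -t ^ 3) (-(((3 : ℕ) : ℝ) * t ^ 2)) t := (hasDerivAt_pow 3 t).neg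
    refine (h2.congr_of_eventuallyEq h1).congr_deriv ?_
    rw [abs_of_neg h]; push_cast; ring
  · subst h
    have h2 : HasDerivAt (fun t : ℝ => |t| ^ 3) 0 0 := by
      rw [hasDerivAt_iff_isLittleO]
      have h3 : (fun t : ℝ => t ^ 2) =o[𝓝 0] fun t : ℝ => t := by
        have := Asymptotics.isLittleO_pow_pow (𝕜 := ℝ) (m := 1) (n := 2) (by norm_num)
        simpa using this
      have h4 : (fun t : ℝ => |t| ^ 3) =O[𝓝 0] fun t : ℝ => t ^ 2 := by
        refine Asymptotics.IsBigO.of_bound 1 ?_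
        filter_upwards [Metric.ball_mem_nhds (0 : ℝ) one_pos] with s hs
        rw [Metric.mem_ball, dist_zero_right, Real.norm_eq_abs] at hs
        rw [Real.norm_eq_abs, Real.norm_eq_abs, one_mul, abs_pow, abs_abs, abs_pow]
        exact pow_le_pow_of_le_one (abs_nonneg s) hs.le (by norm_num)
      simpa using h4.trans_isLittleO h3
    simpa using h2
  · have h1 : (fun t : ℝ => |t| ^ 3) =ᶠ[𝓝 t] fun t => t ^ 3 := by
      filter_upwards [lt_mem_nhds h] with s hs
      rw [abs_of_pos hs]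
    have h2 : HasDerivAt (fun t : ℝ => t ^ 3) (((3 : ℕ) : ℝ) * t ^ 2) t := hasDerivAt_pow 3 t
    refine (h2.congr_of_eventuallyEq h1).congr_deriv ?_
    rw [abs_of_pos h]; push_cast; ring

theorem hasDerivAt_mul_abs (t : ℝ) : HasDerivAt (fun t : ℝ => t * |t|) (2 * |t|) t := by
  rcases lt_trichotomy t 0 with h | h | h
  · have h1 : (fun t : ℝ => t * |t|) =ᶠ[𝓝 t] fun t => -t ^ 2 := by
      filter_upwards [gt_mem_nhds h] with s hs
      rw [abs_of_neg hs]; ring
    have h2 : HasDerivAt (fun t : ℝ => -t ^ 2) (-(((2 : ℕ) : ℝ) * t ^ 1)) t := (hasDerivAt_pow 2 t).neg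
    refine (h2.congr_of_eventuallyEq h1).congr_deriv ?_
    rw [abs_of_neg h]; push_cast; ring
  · subst h
    have h2 : HasDerivAt (fun t : ℝ => t * |t|) 0 0 := by
      rw [hasDerivAt_iff_isLittleO]
      have h3 : (fun t : ℝ => t ^ 2) =o[𝓝 0] fun t : ℝ => t := by
        have := Asymptotics.isLittleO_pow_pow (𝕜 := ℝ) (m := 1) (n := 2) (by norm_num)
        simpa using this
      have h4 : (fun t : ℝ => t * |t|) =O[𝓝 0] fun t : ℝ => t ^ 2 := by
        refine Asymptotics.IsBigO.of_bound 1 ?_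
        filter_upwards with s
        rw [Real.norm_eq_abs, Real.norm_eq_abs, one_mul, abs_mul, abs_abs, abs_pow, sq]
      simpa using h4.trans_isLittleO h3
    simpa using h2
  · have h1 : (fun t : ℝ => t * |t|) =ᶠ[𝓝 t] fun t => t ^ 2 := by
      filter_upwards [lt_mem_nhds h] with s hs
      rw [abs_of_pos hs]; ring
    have h2 : HasDerivAt (fun t : ℝ => t ^ 2) (((2 : ℕ) : ℝ) * t ^ 1) t := hasDerivAt_pow 2 t
    refine (h2.congr_of_eventuallyEq h1).congr_deriv ?_
    rw [abs_of_pos h]; push_cast; ring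

theorem contDiffAt_deriv {f : ℝ → ℝ} {m : ℕ} {x : ℝ} (h : ContDiffAt ℝ ((m + 1 : ℕ) : ℕ∞ω) f x) :
    ContDiffAt ℝ (m : ℕ∞ω) (deriv f) x := by
  have h1 : ContDiffAt ℝ (m : ℕ∞ω) (fderiv ℝ f) x := h.fderiv_right (by push_cast; exact le_rfl)
  have h2 : deriv f = fun x => (fderiv ℝ f x) 1 := by
    funext y
    exact (fderiv_apply_one_eq_deriv).symm
  rw [h2]
  exact h1.clm_apply contDiffAt_const

theorem not_contDiffAt_abs_cube : ¬ ContDiffAt ℝ 3 (fun t : ℝ => |t| ^ 3) 0 := by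
  intro h
  have h1 : ContDiffAt ℝ ((2 + 1 : ℕ) : ℕ∞ω) (fun t : ℝ => |t| ^ 3) 0 := by simpa using h
  have h2 := contDiffAt_deriv h1
  have e1 : deriv (fun t : ℝ => |t| ^ 3) = fun t => 3 * (t * |t|) := by
    funext t
    exact (hasDerivAt_abs_cube t).deriv
  rw [e1] at h2
  have h3 : ContDiffAt ℝ ((1 + 1 : ℕ) : ℕ∞ω) (fun t : ℝ => 3 * (t * |t|)) 0 := by simpa using h2
  have h4 := contDiffAt_deriv h3
  have e2 : deriv (fun t : ℝ => 3 * (t * |t|)) = fun t => 3 * (2 * |t|) := by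
    funext t
    exact ((hasDerivAt_mul_abs t).const_mul 3).deriv
  rw [e2] at h4
  have h5 : DifferentiableAt ℝ (fun t : ℝ => 3 * (2 * |t|)) 0 := h4.differentiableAt (by simp)
  have h6 : DifferentiableAt ℝ (fun t : ℝ => (1 / 6 : ℝ) * (3 * (2 * |t|))) 0 := h5.const_mul _
  have e3 : (fun t : ℝ => (1 / 6 : ℝ) * (3 * (2 * |t|))) = fun t => |t| := by
    funext t; ring
  rw [e3] at h6
  exact not_differentiableAt_abs_zero h6

variable {n : ℕ}

instance : FirstCountableTopology (G n) :=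
  haveI : FirstCountableTopology (Matrix (Fin n) (Fin n) ℝ) :=
    inferInstanceAs (FirstCountableTopology (Fin n → Fin n → ℝ))
  (Matrix.SpecialLinearGroup.isClosedEmbedding_val (n := Fin n) (R := ℝ)).isInducing.firstCountableTopology

theorem Rec.seq {a g : G n} (h : Rec a g) : ∃ (k : ℕ → ℕ) (γ : ℕ → G n), (∀ j, j ≤ k j) ∧
    (∀ j, γ j ∈ Gam n) ∧ Tendsto (fun j => a ^ (k j) * g * γ j) atTop (𝓝 g) := by
  obtain ⟨U, hU⟩ := (𝓝 g).exists_antitone_basis
  have hx : ∀ j : ℕ, ∃ k : ℕ, j ≤ k ∧ ∃ γ ∈ Gam n, a ^ k * g * γ ∈ U j :=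
    fun j => h (U j) (hU.1.mem_of_mem trivial) j
  choose k hk γ hγ hm using hx
  exact ⟨k, γ, hk, hγ, hU.tendsto hm⟩

theorem root_conj {i j : Fin n} (hij : i ≠ j) {a : G n} {c : ℝ} (hc0 : c ≠ 0)
    (hc : ((a⁻¹ : G n) : Mat n) * rootE i j * (a : Mat n) = c • rootE i j) (t : ℝ) :
    a * rootG hij t = rootG hij (c⁻¹ * t) * a := by
  have h1 : rootE i j * (a : Mat n) = c • ((a : Mat n) * rootE i j) := by
    calc rootE i j * (a : Mat n)
        = ((a : Mat n) * ((a⁻¹ : G n) : Mat n)) * (rootE i j * (a : Mat n)) := by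
          rw [coe_mul_inv, one_mul]
      _ = (a : Mat n) * (((a⁻¹ : G n) : Mat n) * rootE i j * (a : Mat n)) := by
          simp only [mul_assoc]
      _ = c • ((a : Mat n) * rootE i j) := by rw [hc, mul_smul_comm]
  apply Subtype.ext
  change ((a * rootG hij t : G n) : Mat n) = ((rootG hij (c⁻¹ * t) * a : G n) : Mat n)
  rw [Matrix.SpecialLinearGroup.coe_mul, Matrix.SpecialLinearGroup.coe_mul, rootG_coe, rootG_coe,
    mul_add, add_mul, mul_one, one_mul, smul_mul_assoc, h1, smul_smul, mul_smul_comm]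
  congr 2
  field_simp

theorem root_conj_pow {i j : Fin n} (hij : i ≠ j) {a : G n} {c : ℝ} (hc0 : c ≠ 0)
    (hc : ((a⁻¹ : G n) : Mat n) * rootE i j * (a : Mat n) = c • rootE i j) (t : ℝ) (k : ℕ) :
    a ^ k * rootG hij t = rootG hij ((c⁻¹) ^ k * t) * a ^ k := by
  induction k with
  | zero => simp
  | succ k ih =>
    rw [pow_succ', mul_assoc, ih, ← mul_assoc, root_conj hij hc0 hc, mul_assoc]
    congr 2
    ring

theorem vm_pow {i j : Fin n} (hij : i ≠ j) {F : G n → X n} (hF : HasLifts F)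
    (a r : G n) (c : ℝ) (hc : ((a⁻¹ : G n) : Mat n) * rootE i j * (a : Mat n) = c • rootE i j)
    (hinv : ∀ g : G n, F (a * g) = r • F g) (g : G n) (k : ℕ) :
    vm i j hF (a ^ k * g) = (TT c r ^ k) (vm i j hF g) := by
  induction k with
  | zero => simp
  | succ k ih =>
    rw [pow_succ', mul_assoc, vm_left hij hF a r c hc hinv, ih, pow_succ']
    rfl

theorem vm_rec {i j : Fin n} (hij : i ≠ j) {F : G n → X n} (hF : HasLifts F)
    (hinvR : ∀ g γ : G n, γ ∈ Gam n → F (g * γ) = F g)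
    (a r : G n) (c : ℝ) (hc1 : 1 < c)
    (hc : ((a⁻¹ : G n) : Mat n) * rootE i j * (a : Mat n) = c • rootE i j)
    (hinv : ∀ g : G n, F (a * g) = r • F g) (x : G n) (t : ℝ) (hx : Rec a x)
    (hy : Rec a (rootG hij t * x)) : vm i j hF (rootG hij t * x) = vm i j hF x := by
  have hc0 : c ≠ 0 := by positivity
  obtain ⟨k, γ, hk, hγ, hlim⟩ := hx.seq
  obtain ⟨k', γ', hk', hγ', hlim'⟩ := hy.seq
  have hmc := vm_continuous hij hF
  have hpow : ∀ l : ℕ → ℕ, (∀ j, j ≤ l j) → Tendsto (fun j => (c⁻¹) ^ (l j)) atTop (𝓝 0) := by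
    intro l hl
    have h1 : Tendsto l atTop atTop := tendsto_atTop_mono hl tendsto_id
    exact (tendsto_pow_atTop_nhds_zero_of_lt_one (by positivity)
      (inv_lt_one_of_one_lt₀ hc1)).comp h1
  have e1 : ∀ l : ℕ, ∀ g δ : G n, δ ∈ Gam n → (TT c r ^ l) (vm i j hF g) = vm i j hF (a ^ l * g * δ) := by
    intro l g δ hδ
    rw [vm_right hij hF hinvR _ _ hδ, vm_pow hij hF a r c hc hinv]
  -- general: along a sequence where z is recurrent, the value at a root translate has the same limit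
  have key : ∀ (z : G n) (s : ℝ) (l : ℕ → ℕ) (δ : ℕ → G n), (∀ j, j ≤ l j) → (∀ j, δ j ∈ Gam n) →
      Tendsto (fun j => a ^ (l j) * z * δ j) atTop (𝓝 z) →
      Tendsto (fun p => (TT c r ^ (l p)) (vm i j hF (rootG hij s * z))) atTop (𝓝 (vm i j hF z)) := by
    intro z s l δ hl hδ hz
    have h1 : Tendsto (fun p => rootG hij ((c⁻¹) ^ (l p) * s) * (a ^ (l p) * z * δ p)) atTop
        (𝓝 (rootG hij (0 * s) * z)) :=
      ((continuous_rootG hij).tendsto _ |>.comp ((hpow l hl).mul_const s)).mul hz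
    rw [zero_mul, rootG_zero, one_mul] at h1
    have h2 := (hmc.tendsto z).comp h1
    refine h2.congr (fun p => ?_)
    rw [e1 (l p) _ (δ p) (hδ p)]
    simp only [Function.comp]
    congr 1
    rw [← mul_assoc (a ^ l p), root_conj_pow hij hc0 hc]
    simp only [mul_assoc]
  have hxx : Tendsto (fun p => (TT c r ^ (k p)) (vm i j hF x)) atTop (𝓝 (vm i j hF x)) := by
    have := key x 0 k γ hk hγ hlim
    rwa [rootG_zero, one_mul] at this
  have hxy := key x t k γ hk hγ hlim
  have hyx : Tendsto (fun p => (TT c r ^ (k' p)) (vm i j hF x)) atTop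
      (𝓝 (vm i j hF (rootG hij t * x))) := by
    have := key (rootG hij t * x) (-t) k' γ' hk' hγ' hlim'
    rwa [← mul_assoc, ← rootG_add, neg_add_cancel, rootG_zero, one_mul] at this
  let S : Submodule ℝ (Mat n) :=
    { carrier := {v | Tendsto (fun p => (TT c r ^ (k p)) v) atTop (𝓝 v)}
      zero_mem' := by
        change Tendsto (fun p => (TT c r ^ (k p)) 0) atTop (𝓝 0)
        simp only [map_zero]
        exact tendsto_const_nhds
      add_mem' := by
        intro v w hv hw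
        change Tendsto (fun p => (TT c r ^ (k p)) (v + w)) atTop (𝓝 (v + w))
        simp only [map_add]
        exact Tendsto.add hv hw
      smul_mem' := by
        intro q v hv
        change Tendsto (fun p => (TT c r ^ (k p)) (q • v)) atTop (𝓝 (q • v))
        simp only [map_smul]
        exact Tendsto.const_smul hv q }
  have hSc : IsClosed (S : Set (Mat n)) := S.closed_of_finiteDimensional
  have hSx : vm i j hF x ∈ S := hxx
  have hST : ∀ v ∈ S, ∀ l : ℕ, (TT c r ^ l) v ∈ S := by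
    intro v hv l
    change Tendsto (fun p => (TT c r ^ (k p)) ((TT c r ^ l) v)) atTop (𝓝 ((TT c r ^ l) v))
    have h1 : Tendsto (fun p => (TT c r ^ (k p)) v) atTop (𝓝 v) := hv
    have h2 := ((TT c r ^ l).continuous.tendsto v).comp h1
    refine h2.congr (fun p => ?_)
    change (TT c r ^ l) ((TT c r ^ (k p)) v) = (TT c r ^ (k p)) ((TT c r ^ l) v)
    have h3 : (TT c r ^ l) * (TT c r ^ (k p)) = (TT c r ^ (k p)) * (TT c r ^ l) := by
      rw [← pow_add, ← pow_add, add_comm]
    exact congrArg (fun M : Mat n →L[ℝ] Mat n => M v) h3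
  have hSy : vm i j hF (rootG hij t * x) ∈ S :=
    hSc.mem_of_tendsto hyx (Filter.Eventually.of_forall fun p => hST _ hSx (k' p))
  exact tendsto_nhds_unique (hSy : Tendsto _ _ _) hxy

theorem vm_const {i j : Fin n} (hij : i ≠ j) {F : G n → X n} (hF : HasLifts F)
    (hinvR : ∀ g γ : G n, γ ∈ Gam n → F (g * γ) = F g)
    (a r : G n) (c : ℝ) (hc1 : 1 < c)
    (hc : ((a⁻¹ : G n) : Mat n) * rootE i j * (a : Mat n) = c • rootE i j)
    (hinv : ∀ g : G n, F (a * g) = r • F g)
    (hd : Dense {p : G n × ℝ | Rec a p.1 ∧ Rec a (rootG hij p.2 * p.1)}) (x : G n) (t : ℝ) :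
    vm i j hF (rootG hij t * x) = vm i j hF x := by
  have hmc := vm_continuous hij hF
  have hcl : IsClosed {p : G n × ℝ | vm i j hF (rootG hij p.2 * p.1) = vm i j hF p.1} :=
    isClosed_eq (hmc.comp (((continuous_rootG hij).comp continuous_snd).mul continuous_fst))
      (hmc.comp continuous_fst)
  have hsub : {p : G n × ℝ | Rec a p.1 ∧ Rec a (rootG hij p.2 * p.1)} ⊆
      {p : G n × ℝ | vm i j hF (rootG hij p.2 * p.1) = vm i j hF p.1} := by
    rintro ⟨y, s⟩ ⟨h1, h2⟩
    exact vm_rec hij hF hinvR a r c hc1 hc hinv y s h1 h2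
  have huniv := (hd.mono hsub).closure_eq
  rw [hcl.closure_eq] at huniv
  have : (x, t) ∈ {p : G n × ℝ | vm i j hF (rootG hij p.2 * p.1) = vm i j hF p.1} := by
    rw [huniv]; trivial
  exact this

/-- the image of a root orbit is a one parameter orbit -/
theorem root_orbit {i j : Fin n} (hij : i ≠ j) {F : G n → X n} (hF : HasLifts F) (g : G n)
    (hconst : ∀ t : ℝ, vm i j hF (rootG hij t * g) = vm i j hF g) :
    ∃ (Z k₀ : Mat n), ∀ᶠ t : ℝ in 𝓝 0, ∃ k : G n, (k : Mat n) = NormedSpace.exp (t • Z) * k₀ ∧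
      F (rootG hij t * g) = mk k := by
  obtain ⟨Θ, hΘ⟩ := hF g
  have htend : Tendsto (fun t : ℝ => rootG hij t * g) (𝓝 0) (𝓝 g) := by
    have hc : Continuous (fun t : ℝ => rootG hij t * g) := (continuous_rootG hij).mul continuous_const
    have := hc.tendsto 0
    simpa only [rootG_zero, one_mul] using this
  have hev : ∀ᶠ t : ℝ in 𝓝 0, LiftAt F Θ (rootG hij t * g) := htend.eventually hΘ.eventually
  refine ⟨vm i j hF g, Θ (g : Mat n), ?_⟩
  set Z := vm i j hF g with hZ
  have hder : ∀ᶠ t : ℝ in 𝓝 0, HasDerivAt (fun t : ℝ => Θ ((rootG hij t * g : G n) : Mat n))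
      (Z * Θ ((rootG hij t * g : G n) : Mat n)) t := by
    filter_upwards [hev] with t ht
    have h1 := hasDerivAt_root hij (ht.1.differentiableAt one_ne_zero)
    have h2 : fderiv ℝ Θ ((rootG hij t * g : G n) : Mat n)
        (rootE i j * ((rootG hij t * g : G n) : Mat n)) = Z * Θ ((rootG hij t * g : G n) : Mat n) := by
      rw [← hconst t, vm_eq hij hF ht]
      unfold vel
      obtain ⟨k, hk, -⟩ := ht.2.self_of_nhds
      rw [← hk, coe_inv_eq, mul_assoc, coe_inv_mul, mul_one]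
    rw [h2] at h1
    have h3 : HasDerivAt (fun s : ℝ => s - t) 1 t := (hasDerivAt_id t).sub_const t
    have h1' : HasDerivAt (fun s : ℝ => Θ ((rootG hij s * (rootG hij t * g) : G n) : Mat n))
        (Z * Θ ((rootG hij t * g : G n) : Mat n)) (t - t) := by rw [sub_self]; exact h1
    have h4 := HasDerivAt.scomp (h := fun s : ℝ => s - t) t h1' h3
    rw [one_smul] at h4
    refine h4.congr_of_eventuallyEq (Filter.Eventually.of_forall fun s => ?_)
    change _ = Θ ((rootG hij (s - t) * (rootG hij t * g) : G n) : Mat n)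
    rw [← mul_assoc, ← rootG_add, sub_add_cancel]
  obtain ⟨δ, hδ, hball⟩ := Metric.eventually_nhds_iff_ball.mp hder
  have hw : ∀ t ∈ Metric.ball (0 : ℝ) δ, HasDerivAt
      (fun t : ℝ => NormedSpace.exp (t • (-Z)) * Θ ((rootG hij t * g : G n) : Mat n)) 0 t := by
    intro t ht
    have h1 : HasDerivAt (fun t : ℝ => NormedSpace.exp (t • (-Z)))
        (NormedSpace.exp (t • (-Z)) * (-Z)) t := hasDerivAt_exp_smul_const (-Z) t
    refine (h1.mul (hball t ht)).congr_deriv ?_
    rw [mul_neg, neg_mul, mul_assoc, neg_add_cancel]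
  have hcst : ∀ t ∈ Metric.ball (0 : ℝ) δ,
      NormedSpace.exp (t • (-Z)) * Θ ((rootG hij t * g : G n) : Mat n) = Θ (g : Mat n) := by
    intro t ht
    have h1 := Metric.isOpen_ball.is_const_of_deriv_eq_zero (𝕜 := ℝ)
      (f := fun t : ℝ => NormedSpace.exp (t • (-Z)) * Θ ((rootG hij t * g : G n) : Mat n))
      (convex_ball (0 : ℝ) δ).isPreconnected
      (fun s hs => (hw s hs).differentiableAt.differentiableWithinAt)
      (fun s hs => (hw s hs).deriv) ht (Metric.mem_ball_self hδ)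
    simp only [zero_smul, NormedSpace.exp_zero, one_mul, rootG_zero] at h1
    exact h1
  filter_upwards [Metric.ball_mem_nhds (0 : ℝ) hδ, htend.eventually hΘ.2] with t ht h2
  obtain ⟨k, hk, hk2⟩ := h2
  refine ⟨k, ?_, hk2⟩
  rw [hk, ← hcst t ht, ← mul_assoc]
  have h5 : NormedSpace.exp (t • Z) * NormedSpace.exp (t • (-Z)) = 1 := by
    have hcm : Commute (t • Z) (t • (-Z)) := by
      rw [smul_neg]; exact (Commute.refl _).neg_right
    rw [← Matrix.exp_add_of_commute _ _ hcm, smul_neg, add_neg_cancel, NormedSpace.exp_zero]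
  rw [h5, one_mul]

end Pool.Agent.CRT
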