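import Pool.Agent.Helper55_CRT.Rig2

/-!
# MP_6bfaa3_an: module RIG, part 3
-/

open Matrix Topology Filter
open scoped ContDiff Matrix.Norms.Operator

namespace Pool.Agent.CRT

variable {n : ℕ}

/-- ambient version of the shear -/
noncomputable def shearM (H : Fin n → ℝ) (κ : ℝ) (u : Mat n → ℝ) (B : Mat n) : Mat n :=
  tauMat H (κ * u B) * B

theorem shear_coe (H : Fin n → ℝ) (hH : ∑ i, H i = 0) (κ : ℝ) (u : Mat n → ℝ) (g : G n) :
    ((shear H hH κ u g : G n) : Mat n) = shearM H κ u (g : Mat n) := by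
  rw [shear, Matrix.SpecialLinearGroup.coe_mul]; rfl

theorem contDiff_tauMat (H : Fin n → ℝ) {m : ℕ∞ω} : ContDiff ℝ m (tauMat H) := by
  have h1 : ContDiff ℝ m (fun s : ℝ => fun i : Fin n => Real.exp (s * H i)) := by
    rw [contDiff_pi]
    intro i
    exact (contDiff_id.mul contDiff_const).exp
  have h2 : ContDiff ℝ m (fun v : Fin n → ℝ => Matrix.diagonal v) := by
    have : (fun v : Fin n → ℝ => Matrix.diagonal v) =
        fun v => (Matrix.diagonalLinearMap (Fin n) ℝ ℝ).toContinuousLinearMap v := rfl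
    rw [this]
    exact ((Matrix.diagonalLinearMap (Fin n) ℝ ℝ).toContinuousLinearMap).contDiff
  exact h2.comp h1

theorem contDiffAt_shearM (H : Fin n → ℝ) (κ : ℝ) {u : Mat n → ℝ} {m : ℕ∞ω} {B : Mat n}
    (h : ContDiffAt ℝ m u B) : ContDiffAt ℝ m (shearM H κ u) B := by
  have h1 : ContDiffAt ℝ m (fun B => tauMat H (κ * u B)) B :=
    ContDiffAt.comp (f := fun B => κ * u B) (g := tauMat H) B (contDiff_tauMat H).contDiffAt
      (contDiffAt_const.mul h)
  exact h1.mul contDiffAt_id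

theorem shear_continuous (H : Fin n → ℝ) (hH : ∑ i, H i = 0) (κ : ℝ) {u : Mat n → ℝ}
    (hu : ∀ g : G n, ContDiffAt ℝ 1 u (g : Mat n)) : Continuous (shear H hH κ u) := by
  apply Topology.IsInducing.subtypeVal.continuous_iff.mpr
  rw [continuous_iff_continuousAt]
  intro g
  have h1 : ContinuousAt (shearM H κ u) (g : Mat n) := (contDiffAt_shearM H κ (hu g)).continuousAt
  have h2 : ContinuousAt (fun g : G n => shearM H κ u (g : Mat n)) g :=
    ContinuousAt.comp (f := fun g' : G n => (g' : Mat n)) (g := shearM H κ u) h1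
      continuous_coe.continuousAt
  exact h2

theorem FF_lifts (H : Fin n → ℝ) (hH : ∑ i, H i = 0) (κ : ℝ) {u : Mat n → ℝ}
    (hu : ∀ g : G n, ContDiffAt ℝ 1 u (g : Mat n)) (h : X n → X n) (hh : Smooth h) :
    HasLifts (fun g => h (mk (shear H hH κ u g))) := by
  intro g
  obtain ⟨Φ, hΦ, hl⟩ := hh (shear H hH κ u g)
  refine ⟨fun B => Φ (shearM H κ u B), ?_, ?_⟩
  · have h1 : ContDiffAt ℝ 1 Φ (shearM H κ u (g : Mat n)) := by
      rw [← shear_coe H hH]
      exact hΦ.of_le (by simp)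
    exact ContDiffAt.comp (f := shearM H κ u) (g := Φ) _ h1 (contDiffAt_shearM H κ (hu g))
  · have h1 := ((shear_continuous H hH κ hu).tendsto g).eventually hl
    filter_upwards [h1] with g' hg'
    obtain ⟨k, hk, hk2⟩ := hg'
    exact ⟨k, by rw [hk, shear_coe], hk2⟩

theorem shear_mul_gam (H : Fin n → ℝ) (hH : ∑ i, H i = 0) (κ : ℝ) {u : Mat n → ℝ} (g γ : G n)
    (hinv : u ((g * γ : G n) : Mat n) = u (g : Mat n)) :
    shear H hH κ u (g * γ) = shear H hH κ u g * γ := by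
  rw [shear, shear, hinv, mul_assoc]

theorem FF_right (H : Fin n → ℝ) (hH : ∑ i, H i = 0) (κ : ℝ) {u : Mat n → ℝ}
    (hinv : ∀ (g : G n) (γ : G n), γ ∈ Gam n → u ((g * γ : G n) : Mat n) = u (g : Mat n))
    (h : X n → X n) (g γ : G n) (hγ : γ ∈ Gam n) :
    h (mk (shear H hH κ u (g * γ))) = h (mk (shear H hH κ u g)) := by
  rw [shear_mul_gam H hH κ g γ (hinv g γ hγ), mk_mul_gam _ _ hγ]

/-- local constancy of the discrepancy along a filter -/
theorem disc {ι : Type*} (l : Filter ι) (c₁ c₂ : ι → G n) (k₁ k₂ : G n)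
    (h₁ : Tendsto (fun t => (c₁ t : Mat n)) l (𝓝 (k₁ : Mat n)))
    (h₂ : Tendsto (fun t => (c₂ t : Mat n)) l (𝓝 (k₂ : Mat n)))
    (he : ∀ᶠ t in l, mk (c₁ t) = mk (c₂ t)) (hk : mk k₁ = mk k₂) :
    ∀ᶠ t in l, c₂ t = c₁ t * (k₁⁻¹ * k₂) := by
  have h3 : Tendsto (fun t => ((c₁ t)⁻¹ * c₂ t : G n).1) l (𝓝 ((k₁⁻¹ * k₂ : G n) : Mat n)) := by
    have h4 : Tendsto (fun t => (c₁ t : Mat n).adjugate) l (𝓝 (k₁ : Mat n).adjugate) :=
      ((continuous_id.matrix_adjugate).tendsto (k₁ : Mat n)).comp h₁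
    have h5 := h4.mul h₂
    rw [← Matrix.SpecialLinearGroup.coe_inv, ← Matrix.SpecialLinearGroup.coe_mul] at h5
    refine h5.congr (fun t => ?_)
    rw [← Matrix.SpecialLinearGroup.coe_inv, ← Matrix.SpecialLinearGroup.coe_mul]
  have hb : ∀ᶠ t in l, ‖((c₁ t)⁻¹ * c₂ t : G n).1 - ((k₁⁻¹ * k₂ : G n) : Mat n)‖ < 1 := by
    have := Metric.tendsto_nhds.mp h3 1 one_pos
    simpa only [dist_eq_norm] using this
  filter_upwards [he, hb] with t ht1 ht2
  have h6 := gam_discrete (mk_eq_mk.mp ht1) (mk_eq_mk.mp hk) ht2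
  rw [← h6, mul_inv_cancel_left]

theorem rig_contra (H : Fin n → ℝ) (hH : ∑ i, H i = 0) (hH0 : H ≠ 0) {κ : ℝ} (hκ : 0 < κ)
    {u : Mat n → ℝ} (hu : ∀ g : G n, ContDiffAt ℝ 1 u (g : Mat n)) {i j : Fin n} (hij : i ≠ j)
    (hroot : ∀ᶠ t : ℝ in 𝓝 0, u ((rootG hij t : G n) : Mat n) = |t| ^ 3)
    (h : X n ≃ X n) (hh : Smooth h) (hs : Smooth h.symm)
    (hconst : ∀ t : ℝ, vm i j (FF_lifts H hH κ hu h hh) (rootG hij t * 1) =
      vm i j (FF_lifts H hH κ hu h hh) 1) : False := by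
  obtain ⟨Z, k₀, hev⟩ := root_orbit hij (FF_lifts H hH κ hu h hh) 1 hconst
  simp only [mul_one] at hev
  obtain ⟨i₀, hi₀⟩ : ∃ i, H i ≠ 0 := by
    by_contra hcon
    push Not at hcon
    exact hH0 (funext hcon)
  obtain ⟨k1, hk1, hk1'⟩ := hev.self_of_nhds
  rw [zero_smul, NormedSpace.exp_zero, one_mul] at hk1
  subst hk1
  obtain ⟨Φ, hΦ, hl⟩ := hs k1
  -- smoothness of t ↦ exp (t Z) * k1
  have hexp : ContDiff ℝ 3 (fun t : ℝ => NormedSpace.exp (t • Z) * (k1 : Mat n)) := by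
    have h1 : ContDiff ℝ 3 (fun t : ℝ => NormedSpace.exp (t • Z)) := by
      have h2 : ContDiff ℝ 3 (NormedSpace.exp : Mat n → Mat n) := by
        rw [contDiff_iff_contDiffAt]
        intro x
        exact (NormedSpace.exp_analytic (𝕂 := ℝ) x).contDiffAt
      exact h2.comp (contDiff_id.smul contDiff_const)
    exact h1.mul contDiff_const
  have hcont : Tendsto (fun t : ℝ => NormedSpace.exp (t • Z) * (k1 : Mat n)) (𝓝 0) (𝓝 (k1 : Mat n)) := by
    have h1 := hexp.continuous.tendsto 0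
    have h2 : NormedSpace.exp ((0 : ℝ) • Z) * (k1 : Mat n) = (k1 : Mat n) := by
      rw [zero_smul, NormedSpace.exp_zero, one_mul]
    rw [h2] at h1
    exact h1
  -- pull back the local lift property
  have hl' : ∀ᶠ B : Mat n in 𝓝 (k1 : Mat n), ∀ g' : G n, (g' : Mat n) = B →
      ∃ k : G n, (k : Mat n) = Φ B ∧ h.symm (mk g') = mk k := by
    have h1 : ∀ᶠ g' : G n in comap (fun g : G n => (g : Mat n)) (𝓝 (k1 : Mat n)),
        ∃ k : G n, (k : Mat n) = Φ (g' : Mat n) ∧ h.symm (mk g') = mk k := by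
      have h0 : 𝓝 k1 = comap (fun g : G n => (g : Mat n)) (𝓝 (k1 : Mat n)) :=
        Topology.IsInducing.subtypeVal.nhds_eq_comap k1
      rw [← h0]
      exact hl
    rw [Filter.eventually_comap] at h1
    filter_upwards [h1] with B hB g' hg'
    obtain ⟨k, hk, hk2⟩ := hB g' hg'
    exact ⟨k, by rw [hk, hg'], hk2⟩
  have hev2 : ∀ᶠ t : ℝ in 𝓝 0, ∃ l : G n,
      (l : Mat n) = Φ (NormedSpace.exp (t • Z) * (k1 : Mat n)) ∧
      mk (shear H hH κ u (rootG hij t)) = mk l := by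
    filter_upwards [hev, hcont.eventually hl'] with t ht1 ht2
    obtain ⟨k, hk, hk2⟩ := ht1
    obtain ⟨l, hl1, hl2⟩ := ht2 k hk
    refine ⟨l, hl1, ?_⟩
    rw [← hl2, ← hk2, Equiv.symm_apply_apply]
  -- choose l
  classical
  let c₁ : ℝ → G n := fun t => if ht : ∃ l : G n,
      (l : Mat n) = Φ (NormedSpace.exp (t • Z) * (k1 : Mat n)) ∧
      mk (shear H hH κ u (rootG hij t)) = mk l then ht.choose else 1
  have hc₁ : ∀ᶠ t : ℝ in 𝓝 0, (c₁ t : Mat n) = Φ (NormedSpace.exp (t • Z) * (k1 : Mat n)) ∧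
      mk (shear H hH κ u (rootG hij t)) = mk (c₁ t) := by
    filter_upwards [hev2] with t ht
    have : c₁ t = ht.choose := dif_pos ht
    rw [this]
    exact ht.choose_spec
  obtain ⟨hc0, hc0'⟩ := hc₁.self_of_nhds
  have hΦc : ContDiffAt ℝ 3 (fun t : ℝ => Φ (NormedSpace.exp (t • Z) * (k1 : Mat n))) 0 := by
    have h1 : ContDiffAt ℝ 3 Φ (NormedSpace.exp ((0 : ℝ) • Z) * (k1 : Mat n)) := by
      rw [zero_smul, NormedSpace.exp_zero, one_mul]
      exact hΦ.of_le (by exact WithTop.coe_le_coe.mpr le_top)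
    exact ContDiffAt.comp (f := fun t : ℝ => NormedSpace.exp (t • Z) * (k1 : Mat n)) (g := Φ) _ h1
      hexp.contDiffAt
  have ht1 : Tendsto (fun t => (c₁ t : Mat n)) (𝓝 0) (𝓝 (c₁ 0 : Mat n)) := by
    rw [hc0]
    have h1 := hΦc.continuousAt.tendsto
    refine h1.congr' ?_
    filter_upwards [hc₁] with t ht
    exact ht.1.symm
  have ht2 : Tendsto (fun t => ((shear H hH κ u (rootG hij t) : G n) : Mat n)) (𝓝 0)
      (𝓝 ((shear H hH κ u (rootG hij 0) : G n) : Mat n)) :=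
    (continuous_coe.comp ((shear_continuous H hH κ hu).comp (continuous_rootG hij))).tendsto 0
  have hd := disc (𝓝 0) c₁ (fun t => shear H hH κ u (rootG hij t)) (c₁ 0)
    (shear H hH κ u (rootG hij 0)) ht1 ht2 (by filter_upwards [hc₁] with t ht; exact ht.2.symm) hc0'.symm
  set γ : G n := (c₁ 0)⁻¹ * shear H hH κ u (rootG hij 0) with hγ
  -- the entry
  have hsm : ContDiffAt ℝ 3 (fun t : ℝ =>
      (Φ (NormedSpace.exp (t • Z) * (k1 : Mat n)) * (γ : Mat n)) i₀ i₀) 0 := by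
    have h1 : ContDiffAt ℝ 3 (fun t : ℝ =>
      (Φ (NormedSpace.exp (t • Z) * (k1 : Mat n)) * (γ : Mat n))) 0 := hΦc.mul contDiffAt_const
    have h2 : ContDiff ℝ 3 (fun B : Mat n => B i₀ i₀) := by
      have : (fun B : Mat n => B i₀ i₀) = fun B => (Matrix.entryLinearMap ℝ ℝ i₀ i₀).toContinuousLinearMap B := rfl
      rw [this]
      exact ((Matrix.entryLinearMap ℝ ℝ i₀ i₀).toContinuousLinearMap).contDiff
    exact h2.contDiffAt.comp 0 h1
  have heq : (fun t : ℝ => (Φ (NormedSpace.exp (t • Z) * (k1 : Mat n)) * (γ : Mat n)) i₀ i₀) =ᶠ[𝓝 0]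
      fun t => Real.exp (κ * |t| ^ 3 * H i₀) := by
    filter_upwards [hc₁, hd, hroot] with t h1 h2 h3
    rw [← h1.1, ← Matrix.SpecialLinearGroup.coe_mul, ← h2, shear_coe, shearM, h3, rootG_coe]
    rw [tauMat, Matrix.diagonal_mul, Matrix.add_apply, Matrix.smul_apply, rootE,
      Matrix.one_apply_eq]
    have : Matrix.single i j (1 : ℝ) i₀ i₀ = 0 := by
      apply Matrix.single_apply_of_ne
      rintro ⟨h1, h2⟩
      exact hij (h1.trans h2.symm)
    rw [this]; simp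
  have hsm2 : ContDiffAt ℝ 3 (fun t : ℝ => Real.exp (κ * |t| ^ 3 * H i₀)) 0 :=
    hsm.congr_of_eventuallyEq heq.symm
  have hsm3 : ContDiffAt ℝ 3 (fun t : ℝ => Real.log (Real.exp (κ * |t| ^ 3 * H i₀))) 0 :=
    hsm2.log (Real.exp_ne_zero _)
  have hsm4 : ContDiffAt ℝ 3 (fun t : ℝ => |t| ^ 3) 0 := by
    have h1 : ContDiffAt ℝ 3 (fun t : ℝ => (κ * H i₀)⁻¹ * Real.log (Real.exp (κ * |t| ^ 3 * H i₀))) 0 :=
      contDiffAt_const.mul hsm3
    have h2 : (fun t : ℝ => (κ * H i₀)⁻¹ * Real.log (Real.exp (κ * |t| ^ 3 * H i₀))) =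
        fun t => |t| ^ 3 := by
      funext t
      rw [Real.log_exp]
      have : κ * H i₀ ≠ 0 := mul_ne_zero hκ.ne' hi₀
      field_simp
    rwa [h2] at h1
  exact not_contDiffAt_abs_cube hsm4

/-- a nontrivial positive diagonal matrix in SL contracts some root -/
theorem exists_root {a : G n} (ha : a ∈ D n) (h1 : a ≠ 1) :
    ∃ (i j : Fin n) (_ : i ≠ j) (c : ℝ), 1 < c ∧
      ((a⁻¹ : G n) : Mat n) * rootE i j * (a : Mat n) = c • rootE i j := by
  obtain ⟨hd, hp⟩ := ha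
  -- there are i, j with a_i < a_j
  have hex : ∃ i j : Fin n, (a : Mat n) i i < (a : Mat n) j j := by
    by_contra hcon
    push Not at hcon
    apply h1
    have hall : ∀ i j : Fin n, (a : Mat n) i i = (a : Mat n) j j := fun i j =>
      le_antisymm (hcon j i) (hcon i j)
    apply Subtype.ext
    change (a : Mat n) = ((1 : G n) : Mat n)
    rw [Matrix.SpecialLinearGroup.coe_one]
    have hdet : (a : Mat n).det = 1 := a.2
    have hdg : (a : Mat n) = Matrix.diagonal (fun i => (a : Mat n) i i) := by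
      ext i j
      by_cases h : i = j
      · subst h; simp
      · simp [h, hd i j h]
    rcases isEmpty_or_nonempty (Fin n) with he | ⟨⟨i₀⟩⟩
    · ext i j; exact (he.false i).elim
    · have h2 : (a : Mat n) i₀ i₀ ^ (Fintype.card (Fin n)) = 1 := by
        have h3 : ∏ i : Fin n, (a : Mat n) i i = 1 := by
          rw [hdg, Matrix.det_diagonal] at hdet
          exact hdet
        have h4 : ∏ i : Fin n, (a : Mat n) i i = ∏ i : Fin n, (a : Mat n) i₀ i₀ :=
          Finset.prod_congr rfl (fun i _ => hall i i₀)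
        rw [Finset.prod_const, Finset.card_univ] at h4
        exact h4.symm.trans h3
      have h3 : (a : Mat n) i₀ i₀ = 1 := by
        haveI : Nonempty (Fin n) := ⟨i₀⟩
        have hc : Fintype.card (Fin n) ≠ 0 := Fintype.card_ne_zero
        exact (pow_eq_one_iff_of_nonneg (hp i₀).le hc).mp h2
      rw [hdg]
      have : (fun i => (a : Mat n) i i) = fun _ => 1 := by
        funext i
        rw [hall i i₀, h3]
      rw [this]
      exact Matrix.diagonal_one
  obtain ⟨i, j, hlt⟩ := hex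
  have hij : i ≠ j := by rintro rfl; exact lt_irrefl _ hlt
  refine ⟨i, j, hij, (a : Mat n) j j / (a : Mat n) i i, ?_, ?_⟩
  · rw [lt_div_iff₀ (hp i), one_mul]; exact hlt
  · have hdg : (a : Mat n) = Matrix.diagonal (fun i => (a : Mat n) i i) := by
      ext i j
      by_cases h : i = j
      · subst h; simp
      · simp [h, hd i j h]
    have e1 : rootE i j * (a : Mat n) = ((a : Mat n) j j / (a : Mat n) i i) • ((a : Mat n) * rootE i j) := by
      rw [hdg, rootE]
      ext k l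
      rw [Matrix.smul_apply, Matrix.mul_diagonal, Matrix.diagonal_mul]
      by_cases hk : i = k ∧ j = l
      · obtain ⟨rfl, rfl⟩ := hk
        have := (hp i).ne'
        simp only [Matrix.diagonal_apply_eq, Matrix.single_apply_same, smul_eq_mul]
        field_simp
      · rw [Matrix.single_apply_of_ne _ _ _ _ _ hk]; simp
    rw [mul_assoc, e1, mul_smul_comm, ← mul_assoc, coe_inv_mul, one_mul]

theorem rig (hrec : RecStmt) : RigStmt := by
  intro n u C hn hu H hH hH0 κ hκ A hA hA1 ρ h hh hs hconj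
  obtain ⟨a, haA, ha1⟩ : ∃ a ∈ A, a ≠ 1 := by
    by_contra hcon
    push Not at hcon
    exact hA1 ((Subgroup.eq_bot_iff_forall A).mpr hcon)
  obtain ⟨i, j, hij, c, hc1, hc⟩ := exists_root (hA haA) ha1
  refine rig_contra H hH hH0 hκ hu.c1 hij (hu.root i j hij) h hh hs (fun t => ?_)
  exact vm_const hij _ (FF_right H hH κ hu.inv h) a (ρ ⟨a, haA⟩) c hc1 hc
    (fun g => hconj ⟨a, haA⟩ g) (hrec n a (rootG hij) (continuous_rootG hij)) 1 t

end Pool.Agent.CRT
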