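import Pool.Agent.Helper55_CRT.Defs

/-!
# MP_6bfaa3_an: statements of the modules
-/

open Matrix Topology Filter
open scoped ContDiff Matrix.Norms.Operator

namespace Pool.Agent.CRT

/-- One parameter subgroup of diagonal matrices. -/
noncomputable def tauMat {n : ℕ} (H : Fin n → ℝ) (s : ℝ) : Mat n := Matrix.diagonal fun i => Real.exp (s * H i)

theorem det_tauMat {n : ℕ} (H : Fin n → ℝ) (hH : ∑ i, H i = 0) (s : ℝ) : (tauMat H s).det = 1 := by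
  rw [tauMat, Matrix.det_diagonal, ← Real.exp_sum, ← Finset.mul_sum, hH, mul_zero, Real.exp_zero]

noncomputable def tau {n : ℕ} (H : Fin n → ℝ) (hH : ∑ i, H i = 0) (s : ℝ) : G n := ⟨tauMat H s, det_tauMat H hH s⟩

/-- The one parameter root group. -/
def rootG {n : ℕ} {i j : Fin n} (hij : i ≠ j) (t : ℝ) : G n :=
  ⟨Matrix.transvection i j t, Matrix.det_transvection_of_ne i j hij t⟩

/-- The function of the tube around the divergent orbit. -/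
structure Tube (n : ℕ) (u : Mat n → ℝ) (C : ℝ) : Prop where
  pos : 0 < C
  inv : ∀ (g : G n) (γ : G n), γ ∈ Gam n → u ((g * γ : G n) : Mat n) = u (g : Mat n)
  smooth : ∀ g : G n, (¬ ∃ γ ∈ Gam n, g * γ ∈ D n) → ContDiffAt ℝ ∞ u (g : Mat n)
  c1 : ∀ g : G n, ContDiffAt ℝ 1 u (g : Mat n)
  local_inv : ∀ a g : G n, a ∈ D n → (∃ γ ∈ Gam n, g * γ ∈ D n) →
    ∀ᶠ p : G n × G n in 𝓝 (a, g), p.1 ∈ D n → u ((p.1 * p.2 : G n) : Mat n) = u (p.2 : Mat n)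
  root : ∀ (i j : Fin n) (hij : i ≠ j), ∀ᶠ t : ℝ in 𝓝 0, u ((rootG hij t : G n) : Mat n) = |t| ^ 3
  bound : ∀ g : G n, |u (g : Mat n)| ≤ C
  bound' : ∀ (g : G n) (Y : Mat n), |fderiv ℝ u (g : Mat n) (Y * (g : Mat n))| ≤ C * ‖Y‖

def TubStmt : Prop := ∀ n : ℕ, 2 ≤ n → ∃ (u : Mat n → ℝ) (C : ℝ), Tube n u C

/-- The shear along the one parameter group tau. -/
noncomputable def shear {n : ℕ} (H : Fin n → ℝ) (hH : ∑ i, H i = 0) (κ : ℝ) (u : Mat n → ℝ) (g : G n) : G n :=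
  tau H hH (κ * u (g : Mat n)) * g

/-- The action of module INV. -/
def InvStmt : Prop := ∀ (n : ℕ) (u : Mat n → ℝ) (C : ℝ), 2 ≤ n → Tube n u C →
  ∀ (H : Fin n → ℝ) (hH : ∑ i, H i = 0), ∀ (K : Set (G n)), IsCompact K → K ⊆ D n → ∀ ε : ℝ, 0 < ε →
    ∃ κ : ℝ, 0 < κ ∧ ∃ α : SmoothAction (D n),
      (∀ (a : D n), (a : G n) ∈ K → C1Close ε (α.act a) (fun x => (a : G n) • x)) ∧
      ∀ (a : D n) (g : G n), α.act a (mk (shear H hH κ u g)) = mk (shear H hH κ u ((a : G n) * g))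

/-- Recurrence of g SL(n,Z) under left multiplication by a. -/
def Rec {n : ℕ} (a g : G n) : Prop :=
  ∀ U ∈ 𝓝 g, ∀ N : ℕ, ∃ k : ℕ, N ≤ k ∧ ∃ γ ∈ Gam n, a ^ k * g * γ ∈ U

/-- Module BAI. -/
def RecStmt : Prop := ∀ (n : ℕ) (a : G n) (L : ℝ → G n), Continuous L →
  Dense {p : G n × ℝ | Rec a p.1 ∧ Rec a (L p.2 * p.1)}

/-- Module PIG. -/
def PigStmt : Prop := ∀ (n : ℕ) (a : G n) (U : Set (G n)), IsOpen U → U.Nonempty → ∀ N : ℕ,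
  ∃ k : ℕ, N ≤ k ∧ ∃ g ∈ U, ∃ γ ∈ Gam n, a ^ k * g * γ ∈ U

/-- Module VOL: a set of finite Lebesgue measure meeting every class B GL(n,Z), 0 < |det B| <= 1. -/
def VolStmt : Prop := ∀ n : ℕ, ∃ F : Set (Fin n → Fin n → ℝ), MeasurableSet F ∧
  MeasureTheory.volume F < ⊤ ∧
  ∀ B : Mat n, B.det ≠ 0 → |B.det| ≤ 1 →
    ∃ γ : Matrix (Fin n) (Fin n) ℤ, IsUnit γ.det ∧
      (fun i j => (B * γ.map (Int.cast : ℤ → ℝ)) i j) ∈ F

/-- Module RIG. -/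
def RigStmt : Prop := ∀ (n : ℕ) (u : Mat n → ℝ) (C : ℝ), 2 ≤ n → Tube n u C →
  ∀ (H : Fin n → ℝ) (hH : ∑ i, H i = 0), H ≠ 0 → ∀ (κ : ℝ), 0 < κ →
  ∀ (A : Subgroup (G n)), A ≤ D n → A ≠ ⊥ →
  ∀ (ρ : A →* G n) (h : X n ≃ X n), Smooth h → Smooth h.symm →
    ¬ ∀ (a : A) (g : G n), h (mk (shear H hH κ u ((a : G n) * g))) =
      ρ a • h (mk (shear H hH κ u g))

/-- The final statement. -/
def FinStmt : Prop := ∀ n : ℕ, 2 ≤ n → ∀ A : Subgroup (G n), A ≤ D n → A ≠ ⊥ →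
  ∀ K : Set A, IsCompact K → ∀ ε : ℝ, 0 < ε →
    ∃ α : SmoothAction A, (∀ a ∈ K, C1Close ε (α.act a) (fun x => (a : G n) • x)) ∧
      ∀ (ρ : A →* G n) (h : X n ≃ X n), Smooth h → Smooth h.symm →
        ¬ ∀ (a : A) (x : X n), h (α.act a x) = ρ a • h x

end Pool.Agent.CRT
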