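import Pool.Agent.CRT.Stmts

/-!
# Squad CRT, row THB: Theorem B
-/

namespace Pool.Agent.CRT.H55

open Set Filter Topology MeasureTheory

noncomputable section

theorem thb (cel : CelStmt) : ThbStmt := by
  intro m hm
  obtain ⟨C, hC, h⟩ := cel m hm
  refine ⟨C, hC, fun Φ e L he hL hG => ?_⟩
  obtain ⟨C₁, T₀, hC₁, hT₀, hb⟩ := h Φ e L he hL hG
  obtain ⟨j₀, hj₀⟩ := pow_unbounded_of_one_lt T₀ (one_lt_two : (1 : ℝ) < 2)
  let S : ℕ → Set (ℝ × ℝ) := fun j => {w | w ∈ Reg m ∧ ∃ t : ℝ, (2 : ℝ) ^ (j + j₀) ≤ t ∧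
    t ≤ 2 * (2 : ℝ) ^ (j + j₀) ∧ volume (Exc Φ w t) < ENNReal.ofReal (1 / 2500)}
  have hS : ∀ j, volume (S j) ≤ ENNReal.ofReal (C₁ * ((2 : ℝ) ^ (-(1 / 10) : ℝ)) ^ (j + j₀)) := by
    intro j
    have h1 : T₀ ≤ (2 : ℝ) ^ (j + j₀) := by
      refine le_trans hj₀.le ?_
      exact pow_le_pow_right₀ one_le_two (Nat.le_add_left _ _)
    refine le_trans (hb _ h1) (le_of_eq ?_)
    congr 2
    rw [← Real.rpow_natCast, ← Real.rpow_mul zero_le_two, ← Real.rpow_natCast,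
      ← Real.rpow_mul zero_le_two, mul_comm]
  have hq0 : (0 : ℝ) < (2 : ℝ) ^ (-(1 / 10) : ℝ) := Real.rpow_pos_of_pos two_pos _
  have hq1 : (2 : ℝ) ^ (-(1 / 10) : ℝ) < 1 :=
    Real.rpow_lt_one_of_one_lt_of_neg one_lt_two (by norm_num)
  have hsum : Summable fun j : ℕ => C₁ * ((2 : ℝ) ^ (-(1 / 10) : ℝ)) ^ (j + j₀) := by
    refine Summable.mul_left C₁ ?_
    exact (summable_nat_add_iff j₀).2 (summable_geometric_of_lt_one hq0.le hq1)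
  have hfin : ∑' j, volume (S j) ≠ ⊤ := by
    refine ne_top_of_le_ne_top ?_ (ENNReal.tsum_le_tsum hS)
    rw [← ENNReal.ofReal_tsum_of_nonneg (fun j => by positivity) hsum]
    exact ENNReal.ofReal_ne_top
  filter_upwards [ae_eventually_notMem hfin] with w hw hR
  obtain ⟨J, hJ⟩ := eventually_atTop.1 hw
  rw [eventually_atTop]
  refine ⟨(2 : ℝ) ^ (J + j₀), fun t ht => ?_⟩
  have ht1 : 1 ≤ t := le_trans (one_le_pow₀ one_le_two) ht
  obtain ⟨k, hk1, hk2⟩ := exists_nat_pow_near ht1 (one_lt_two : (1 : ℝ) < 2)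
  have hk3 : J + j₀ < k + 1 := by
    have h1 : (2 : ℝ) ^ (J + j₀) < 2 ^ (k + 1) := lt_of_le_of_lt ht hk2
    exact (pow_lt_pow_iff_right₀ (one_lt_two : (1 : ℝ) < 2)).1 h1
  obtain ⟨j, rfl⟩ : ∃ j, k = j + j₀ := ⟨k - j₀, by omega⟩
  have hj : J ≤ j := by omega
  have h2 := hJ j hj
  by_contra h3
  apply h2
  refine ⟨hR, t, hk1, ?_, not_le.1 h3⟩
  rw [pow_succ] at hk2
  linarith

end

end Pool.Agent.CRT.H55
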