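import Pool.Agent.Helper55_CRT.Inv3

/-!
# MP_6bfaa3_an: module TUB, part A: algebra of the tube
-/

open Matrix Topology Filter
open scoped ContDiff Matrix.Norms.Operator

namespace Pool.Agent.CRT

variable {n : ℕ}

/-- square of the normalized off diagonal part -/
noncomputable def qq (B : Mat n) : ℝ := ∑ i, ∑ j, if i = j then 0 else (B i j / B i i) ^ 2

/-- weight -/
noncomputable def SS (B : Mat n) : ℝ := ∑ i, (B i i ^ 2 + ((B i i)⁻¹) ^ 2)

def Pos (B : Mat n) : Prop := ∀ i, 0 < B i i

theorem qq_nonneg (B : Mat n) : 0 ≤ qq B := by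
  unfold qq
  refine Finset.sum_nonneg fun i _ => Finset.sum_nonneg fun j _ => ?_
  split_ifs
  · exact le_rfl
  · positivity

theorem SS_nonneg (B : Mat n) : 0 ≤ SS B := by
  unfold SS
  exact Finset.sum_nonneg fun i _ => by positivity

theorem term_le_SS (B : Mat n) (i : Fin n) : B i i ^ 2 + ((B i i)⁻¹) ^ 2 ≤ SS B :=
  Finset.single_le_sum (f := fun i => B i i ^ 2 + ((B i i)⁻¹) ^ 2)
    (fun i _ => by positivity) (Finset.mem_univ i)

theorem ratio_le_SS {B : Mat n} (_hB : Pos B) (k l : Fin n) : B k k / B l l ≤ SS B := by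
  have h1 := term_le_SS B k
  have h2 := term_le_SS B l
  have h3 : B k k * (B l l)⁻¹ ≤ (B k k ^ 2 + ((B l l)⁻¹) ^ 2) / 2 := by nlinarith [sq_nonneg (B k k - (B l l)⁻¹)]
  rw [div_eq_mul_inv]
  have h4 : 0 ≤ ((B k k)⁻¹) ^ 2 := by positivity
  have h5 : 0 ≤ B l l ^ 2 := by positivity
  linarith

theorem one_le_SS {B : Mat n} (hB : Pos B) (i : Fin n) : 1 ≤ SS B := by
  have := ratio_le_SS hB i i
  rwa [div_self (hB i).ne'] at this

theorem r_le (B : Mat n) {i j : Fin n} (hij : i ≠ j) : (B i j / B i i) ^ 2 ≤ qq B := by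
  have h1 : (B i j / B i i) ^ 2 = if i = j then 0 else (B i j / B i i) ^ 2 := by rw [if_neg hij]
  rw [h1]
  unfold qq
  calc (if i = j then 0 else (B i j / B i i) ^ 2)
      ≤ ∑ j, (if i = j then 0 else (B i j / B i i) ^ 2) :=
        Finset.single_le_sum (f := fun j => if i = j then 0 else (B i j / B i i) ^ 2)
          (fun j _ => by split_ifs; exact le_rfl; positivity) (Finset.mem_univ j)
    _ ≤ _ := Finset.single_le_sum (f := fun i => ∑ j, if i = j then 0 else (B i j / B i i) ^ 2)
          (fun i _ => Finset.sum_nonneg fun j _ => by split_ifs; exact le_rfl; positivity)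
          (Finset.mem_univ i)

theorem abs_r_le (B : Mat n) {i j : Fin n} (hij : i ≠ j) : |B i j / B i i| ≤ Real.sqrt (qq B) :=
  Real.abs_le_sqrt (r_le B hij)

/-- the condition of being close to the diagonal, with constant c -/
structure Near (c : ℝ) (B : Mat n) : Prop where
  pos : Pos B
  small : Real.sqrt (qq B) * SS B ≤ c

theorem Near.off {c : ℝ} {B : Mat n} (h : Near c B) {i j : Fin n} (hij : i ≠ j) :
    |B i j| ≤ Real.sqrt (qq B) * B i i := by
  have h1 := abs_r_le B hij
  rw [abs_div, abs_of_pos (h.pos i), div_le_iff₀ (h.pos i)] at h1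
  exact h1

theorem Near.eta {c : ℝ} {B : Mat n} (h : Near c B) (i : Fin n) : Real.sqrt (qq B) ≤ c := by
  have h1 := one_le_SS h.pos i
  have h2 := Real.sqrt_nonneg (qq B)
  nlinarith [h.small]

/-- every entry of column j is at most the diagonal one -/
theorem Near.col {c : ℝ} (hc : c ≤ 1) {B : Mat n} (h : Near c B) (k j : Fin n) : |B k j| ≤ B j j := by
  by_cases hkj : k = j
  · subst hkj; rw [abs_of_pos (h.pos k)]
  · have h1 := h.off hkj
    have h2 := ratio_le_SS h.pos k j
    have hj := h.pos j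
    rw [div_le_iff₀ hj] at h2
    have h3 := Real.sqrt_nonneg (qq B)
    calc |B k j| ≤ Real.sqrt (qq B) * B k k := h1
      _ ≤ Real.sqrt (qq B) * (SS B * B j j) := by gcongr
      _ = (Real.sqrt (qq B) * SS B) * B j j := by ring
      _ ≤ 1 * B j j := by gcongr; exact h.small.trans hc
      _ = B j j := one_mul _

/-- Step A -/
theorem Near.stepA {c : ℝ} {h : Mat n} (hh : Near c h) (v : Fin n → ℝ) (M : ℝ)
    (hM : ∀ k, h k k * |v k| ≤ M) (i : Fin n) :
    |(h *ᵥ v) i - h i i * v i| ≤ n * c * M := by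
  have hη := Real.sqrt_nonneg (qq h)
  have e1 : (h *ᵥ v) i - h i i * v i = ∑ k ∈ Finset.univ.erase i, h i k * v k := by
    rw [Matrix.mulVec, dotProduct, ← Finset.add_sum_erase _ _ (Finset.mem_univ i)]
    ring
  rw [e1]
  have hM0 : 0 ≤ M := le_trans (mul_nonneg (hh.pos i).le (abs_nonneg _)) (hM i)
  have hc0 : 0 ≤ c := le_trans (mul_nonneg hη (SS_nonneg h)) hh.small
  calc |∑ k ∈ Finset.univ.erase i, h i k * v k|
      ≤ ∑ k ∈ Finset.univ.erase i, |h i k * v k| := Finset.abs_sum_le_sum_abs _ _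
    _ ≤ ∑ k ∈ Finset.univ.erase i, c * M := by
      refine Finset.sum_le_sum fun k hk => ?_
      have hki : i ≠ k := (Finset.ne_of_mem_erase hk).symm
      rw [abs_mul]
      have h1 := hh.off hki
      have hkp := hh.pos k
      have h2 : |v k| ≤ M / h k k := by
        rw [le_div_iff₀ hkp, mul_comm]; exact hM k
      have h3 := ratio_le_SS hh.pos i k
      calc |h i k| * |v k| ≤ (Real.sqrt (qq h) * h i i) * (M / h k k) := by
            gcongr
            exact mul_nonneg hη (hh.pos i).le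
        _ = Real.sqrt (qq h) * (h i i / h k k) * M := by ring
        _ ≤ Real.sqrt (qq h) * SS h * M := by gcongr
        _ ≤ c * M := by gcongr; exact hh.small
    _ = ((Finset.univ.erase i).card : ℝ) * (c * M) := by rw [Finset.sum_const, nsmul_eq_mul]
    _ ≤ n * (c * M) := by
      have : ((Finset.univ.erase i).card : ℝ) ≤ n := by
        rw [Finset.card_erase_of_mem (Finset.mem_univ i), Finset.card_univ, Fintype.card_fin]
        exact_mod_cast Nat.sub_le _ _
      gcongr
    _ = n * c * M := by ring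

/-- Steps B and C: g = h * δ -/
theorem stepBC {g h : Mat n} {c : ℝ} (hc : c * (16 * n) ≤ 1) (hg : Near c g) (hh : Near c h)
    (δ : Mat n) (hint : ∀ i j, ∃ z : ℤ, δ i j = z) (hgh : g = h * δ) (j : Fin n) :
    (∀ k, h k k * |δ k j| ≤ 2 * g j j) ∧ 1 ≤ δ j j ∧ h j j ≤ 2 * g j j := by
  have hn : 0 < (n : ℝ) := by exact_mod_cast (Fin.pos j)
  have hη := Real.sqrt_nonneg (qq h)
  have hc0 : 0 ≤ c := le_trans (mul_nonneg hη (SS_nonneg h)) hh.small
  have hn1 : (1 : ℝ) ≤ n := by exact_mod_cast (Fin.pos j)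
  have hc1 : c ≤ 1 := by nlinarith
  have hnc : n * c ≤ 1 / 16 := by linarith
  obtain ⟨k₀, -, hk₀⟩ := Finset.exists_max_image Finset.univ (fun k => h k k * |δ k j|)
    ⟨j, Finset.mem_univ j⟩
  set M := h k₀ k₀ * |δ k₀ j| with hM
  have hMle : ∀ k, h k k * |δ k j| ≤ M := fun k => hk₀ k (Finset.mem_univ k)
  have hM0 : 0 ≤ M := mul_nonneg (hh.pos k₀).le (abs_nonneg _)
  have hmul : ∀ i, (h *ᵥ (fun k => δ k j)) i = g i j := by
    intro i
    rw [hgh, Matrix.mul_apply, Matrix.mulVec, dotProduct]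
  have hA := fun i => hh.stepA (fun k => δ k j) M hMle i
  simp only [hmul] at hA
  have h1 := hA k₀
  have h2 := hg.col hc1 k₀ j
  have h3 : M = |h k₀ k₀ * δ k₀ j| := by rw [abs_mul, abs_of_pos (hh.pos k₀)]
  have hM2 : M ≤ 2 * g j j := by
    have h4 : |h k₀ k₀ * δ k₀ j| ≤ |g k₀ j| + |g k₀ j - h k₀ k₀ * δ k₀ j| := by
      have := abs_sub_abs_le_abs_sub (h k₀ k₀ * δ k₀ j) (g k₀ j)
      rw [abs_sub_comm] at this
      linarith
    rw [← h3] at h4
    nlinarith
  have hgj := hg.pos j
  have hhj := hh.pos j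
  have h5 := hA j
  have h6 : |g j j - h j j * δ j j| ≤ g j j / 8 := by
    refine h5.trans ?_
    nlinarith
  have h7 := abs_le.mp h6
  have h8 : 0 < δ j j := by
    have : 0 < h j j * δ j j := by linarith
    exact (mul_pos_iff_of_pos_left hhj).mp this
  have h9 : 1 ≤ δ j j := by
    obtain ⟨z, hz⟩ := hint j j
    rw [hz] at h8 ⊢
    have : (0 : ℤ) < z := by exact_mod_cast h8
    exact_mod_cast this
  refine ⟨fun k => (hMle k).trans hM2, h9, ?_⟩
  nlinarith

theorem dis {g h : Mat n} {c : ℝ} (hc : c * (16 * n) ≤ 1) (hg : Near c g) (hh : Near c h)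
    (γ : G n) (hγ : γ ∈ Gam n) (hgh : g = h * (γ : Mat n)) : γ = 1 := by
  have hint : ∀ i j, ∃ z : ℤ, (γ : Mat n) i j = z := mem_Gam hγ
  have hint' : ∀ i j, ∃ z : ℤ, ((γ⁻¹ : G n) : Mat n) i j = z := mem_Gam (inv_mem hγ)
  have hhg : h = g * ((γ⁻¹ : G n) : Mat n) := by
    rw [hgh, mul_assoc, coe_mul_inv, mul_one]
  have hoff : ∀ i j, i ≠ j → (γ : Mat n) i j = 0 := by
    intro i j hij
    have hn1 : (1 : ℝ) ≤ n := by exact_mod_cast (Fin.pos j)
    have hη := Real.sqrt_nonneg (qq h)
    have hη' := Real.sqrt_nonneg (qq g)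
    have hc0 : 0 ≤ c := le_trans (mul_nonneg hη (SS_nonneg h)) hh.small
    have hnc : n * c ≤ 1 / 16 := by linarith
    obtain ⟨hb, -, -⟩ := stepBC hc hg hh _ hint hgh j
    obtain ⟨-, -, hgi⟩ := stepBC hc hh hg _ hint' hhg i
    obtain ⟨-, -, hgj⟩ := stepBC hc hh hg _ hint' hhg j
    have hhi := hh.pos i
    have hhj := hh.pos j
    -- entry
    have e1 : h i i * (γ : Mat n) i j = g i j - ∑ k ∈ Finset.univ.erase i, h i k * (γ : Mat n) k j := by
      have : g i j = ∑ k, h i k * (γ : Mat n) k j := by rw [hgh, Matrix.mul_apply]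
      rw [this, ← Finset.add_sum_erase _ _ (Finset.mem_univ i)]
      ring
    have e2 : |∑ k ∈ Finset.univ.erase i, h i k * (γ : Mat n) k j| ≤ n * (4 * c * h i i) := by
      calc |∑ k ∈ Finset.univ.erase i, h i k * (γ : Mat n) k j|
          ≤ ∑ k ∈ Finset.univ.erase i, |h i k * (γ : Mat n) k j| := Finset.abs_sum_le_sum_abs _ _
        _ ≤ ∑ k ∈ Finset.univ.erase i, 4 * c * h i i := by
          refine Finset.sum_le_sum fun k hk => ?_
          have hki : i ≠ k := (Finset.ne_of_mem_erase hk).symm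
          have hkp := hh.pos k
          rw [abs_mul]
          have h1 := hh.off hki
          have h2 : |(γ : Mat n) k j| ≤ 4 * (h j j / h k k) := by
            have := hb k
            rw [← mul_div_assoc, le_div_iff₀ hkp, mul_comm]
            linarith
          have h3 := ratio_le_SS hh.pos j k
          calc |h i k| * |(γ : Mat n) k j| ≤ (Real.sqrt (qq h) * h i i) * (4 * (h j j / h k k)) := by
                gcongr
            _ ≤ (Real.sqrt (qq h) * h i i) * (4 * SS h) := by
                gcongr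
            _ = 4 * (Real.sqrt (qq h) * SS h) * h i i := by ring
            _ ≤ 4 * c * h i i := by gcongr; exact hh.small
        _ = ((Finset.univ.erase i).card : ℝ) * (4 * c * h i i) := by rw [Finset.sum_const, nsmul_eq_mul]
        _ ≤ n * (4 * c * h i i) := by
          have : ((Finset.univ.erase i).card : ℝ) ≤ n := by
            rw [Finset.card_erase_of_mem (Finset.mem_univ i), Finset.card_univ, Fintype.card_fin]
            exact_mod_cast Nat.sub_le _ _
          gcongr
    have e3 : |g i j| ≤ c * (2 * h i i) := by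
      have h1 := hg.off hij
      have h2 := hg.eta i
      calc |g i j| ≤ Real.sqrt (qq g) * g i i := h1
        _ ≤ c * (2 * h i i) := mul_le_mul h2 hgi (hg.pos i).le hc0
    have e4 : |h i i * (γ : Mat n) i j| ≤ c * (2 * h i i) + n * (4 * c * h i i) := by
      rw [e1]
      exact (abs_sub _ _).trans (add_le_add e3 e2)
    have e5 : |(γ : Mat n) i j| < 1 := by
      rw [abs_mul, abs_of_pos hhi] at e4
      have hc16 : c ≤ 1 / 16 := by nlinarith
      have p1 := mul_le_mul_of_nonneg_right hc16 hhi.le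
      have p2 := mul_le_mul_of_nonneg_right hnc hhi.le
      have e6 : h i i * |(γ : Mat n) i j| ≤ h i i * (1 / 2) := by
        refine e4.trans ?_
        have p3 : n * (4 * c * h i i) = 4 * (n * c * h i i) := by ring
        rw [p3]
        linarith
      have := le_of_mul_le_mul_left e6 hhi
      linarith
    obtain ⟨z, hz⟩ := hint i j
    rw [hz] at e5 ⊢
    have : |z| < 1 := by exact_mod_cast e5
    rw [Int.abs_lt_one_iff.mp this]; simp
  have hdiag : ∀ j, 1 ≤ (γ : Mat n) j j := fun j => (stepBC hc hg hh _ hint hgh j).2.1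
  have hdg : (γ : Mat n) = Matrix.diagonal (fun i => (γ : Mat n) i i) := by
    ext i j
    by_cases h : i = j
    · subst h; simp
    · simp [h, hoff i j h]
  have hprod : ∏ i, (γ : Mat n) i i = 1 := by
    have hdet : (γ : Mat n).det = 1 := γ.2
    rw [hdg, Matrix.det_diagonal] at hdet
    exact hdet
  have hle : ∀ j, (γ : Mat n) j j = 1 := by
    intro j
    refine le_antisymm ?_ (hdiag j)
    have h1 : (γ : Mat n) j j * ∏ i ∈ Finset.univ.erase j, (γ : Mat n) i i = 1 :=
      (Finset.mul_prod_erase Finset.univ (fun i => (γ : Mat n) i i) (Finset.mem_univ j)).trans hprod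
    have h2 : ∏ i ∈ Finset.univ.erase j, (1 : ℝ) ≤ ∏ i ∈ Finset.univ.erase j, (γ : Mat n) i i :=
      Finset.prod_le_prod (fun i _ => zero_le_one) (fun i _ => hdiag i)
    rw [Finset.prod_const_one] at h2
    nlinarith [hdiag j]
  apply Subtype.ext
  change (γ : Mat n) = ((1 : G n) : Mat n)
  rw [Matrix.SpecialLinearGroup.coe_one, hdg]
  have : (fun i => (γ : Mat n) i i) = fun _ => 1 := funext hle
  rw [this]
  exact Matrix.diagonal_one

end Pool.Agent.CRT
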