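import Pool.Agent.Helper55_CRT.TubA

/-!
# MP_6bfaa3_an: module TUB, part B: the function and its smoothness
-/

open Matrix Topology Filter
open scoped ContDiff Matrix.Norms.Operator

namespace Pool.Agent.CRT

variable {n : ℕ}

theorem norm_le_of_entries {R : Mat n} {ρ : ℝ} (hρ : 0 ≤ ρ) (h : ∀ i j, |R i j| ≤ ρ) : ‖R‖ ≤ n * ρ := by
  rw [Matrix.linfty_opNorm_def]
  have h1 : (Finset.univ.sup fun i : Fin n => ∑ j : Fin n, ‖R i j‖₊) ≤ (⟨n * ρ, by positivity⟩ : NNReal) := by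
    apply Finset.sup_le
    intro i _
    rw [← NNReal.coe_le_coe]
    push_cast
    calc ∑ j : Fin n, ‖R i j‖ ≤ ∑ j : Fin n, ρ := Finset.sum_le_sum fun j _ => h i j
      _ = n * ρ := by rw [Finset.sum_const, Finset.card_univ, Fintype.card_fin, nsmul_eq_mul]
  exact_mod_cast h1

/-- row sum bound -/
theorem row_sum_le (A : Mat n) (i : Fin n) : ∑ j, |A i j| ≤ ‖A‖ := by
  rw [Matrix.linfty_opNorm_def]
  have h2 : (∑ j : Fin n, ‖A i j‖₊ : NNReal) ≤ Finset.univ.sup fun i : Fin n => ∑ j : Fin n, ‖A i j‖₊ :=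
    Finset.le_sup (f := fun i : Fin n => ∑ j : Fin n, ‖A i j‖₊) (Finset.mem_univ i)
  calc ∑ j, |A i j| = ((∑ j : Fin n, ‖A i j‖₊ : NNReal) : ℝ) := by push_cast; rfl
    _ ≤ _ := by exact_mod_cast h2

theorem det_near_one (n : ℕ) : ∃ ρ : ℝ, 0 < ρ ∧ ∀ R : Mat n, (∀ i j, |R i j| ≤ ρ) →
    1 / 2 ≤ (1 + R).det := by
  have hc : Continuous (fun R : Mat n => (1 + R).det) := (continuous_const.add continuous_id).matrix_det
  have h1 : ∀ᶠ R : Mat n in 𝓝 0, 1 / 2 < (1 + R).det := by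
    have := hc.tendsto 0
    rw [add_zero, Matrix.det_one] at this
    exact this.eventually (lt_mem_nhds (by norm_num))
  obtain ⟨ε, hε, h2⟩ := Metric.eventually_nhds_iff_ball.mp h1
  refine ⟨ε / (2 * (n + 1)), by positivity, fun R hR => (h2 R ?_).le⟩
  rw [Metric.mem_ball, dist_zero_right]
  have h3 := norm_le_of_entries (by positivity) hR
  refine lt_of_le_of_lt h3 ?_
  have hn : (0 : ℝ) ≤ n := Nat.cast_nonneg n
  rw [← mul_div_assoc, div_lt_iff₀ (by positivity)]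
  nlinarith

/-- the constants -/
structure Cst (n : ℕ) where
  c : ℝ
  c_pos : 0 < c
  hc : c * (16 * n) ≤ 1
  hdet : ∀ R : Mat n, (∀ i j, |R i j| ≤ c) → 1 / 2 ≤ (1 + R).det
  hn : 1 ≤ n

theorem exists_Cst (hn : 1 ≤ n) : Nonempty (Cst n) := by
  obtain ⟨ρ, hρ, h⟩ := det_near_one n
  have hn' : (0 : ℝ) < n := by exact_mod_cast hn
  refine ⟨⟨min (1 / (16 * n)) ρ, lt_min (by positivity) hρ, ?_, ?_, hn⟩⟩
  · calc min (1 / (16 * (n : ℝ))) ρ * (16 * n) ≤ (1 / (16 * n)) * (16 * n) := by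
          gcongr
          exact min_le_left _ _
      _ = 1 := by field_simp
  · intro R hR
    exact h R fun i j => (hR i j).trans (min_le_right _ _)

theorem entry_contDiff (i j : Fin n) {m : ℕ∞ω} : ContDiff ℝ m (fun B : Mat n => B i j) := by
  have : (fun B : Mat n => B i j) = fun B => (Matrix.entryLinearMap ℝ ℝ i j).toContinuousLinearMap B := rfl
  rw [this]
  exact ((Matrix.entryLinearMap ℝ ℝ i j).toContinuousLinearMap).contDiff

theorem contDiffAt_qq {B : Mat n} (hB : Pos B) {m : ℕ∞ω} : ContDiffAt ℝ m qq B := by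
  unfold qq
  refine ContDiffAt.sum fun i _ => ContDiffAt.sum fun j _ => ?_
  by_cases h : i = j
  · simp only [h, if_true]
    exact contDiffAt_const
  · simp only [h, if_false]
    exact ((entry_contDiff i j).contDiffAt.div (entry_contDiff i i).contDiffAt (hB i).ne').pow 2

theorem contDiffAt_SS {B : Mat n} (hB : Pos B) {m : ℕ∞ω} : ContDiffAt ℝ m SS B := by
  unfold SS
  refine ContDiffAt.sum fun i _ => ?_
  exact ((entry_contDiff i i).contDiffAt.pow 2).add
    (((entry_contDiff i i).contDiffAt.inv (hB i).ne').pow 2)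

theorem pos_eventually {B : Mat n} (hB : Pos B) : ∀ᶠ B' : Mat n in 𝓝 B, Pos B' := by
  have h : ∀ i : Fin n, ∀ᶠ B' : Mat n in 𝓝 B, 0 < B' i i := fun i =>
    ((entry_contDiff (m := 0) i i).continuous.tendsto B).eventually (lt_mem_nhds (hB i))
  exact (Filter.eventually_all.mpr h)

namespace Cst

variable (k : Cst n)

noncomputable def Cw : ℝ := 2 / k.c ^ 2

theorem Cw_pos : 0 < k.Cw := by
  have := k.c_pos
  unfold Cw; positivity

theorem c_le : k.c ≤ 1 / 16 := by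
  have h1 : (1 : ℝ) ≤ n := by exact_mod_cast k.hn
  have h2 := k.hc
  have h3 := k.c_pos
  nlinarith

theorem Cw_ge : 2 ≤ k.Cw := by
  have h1 := k.c_pos
  have h2 := k.c_le
  unfold Cw
  rw [le_div_iff₀ (by positivity)]
  nlinarith

noncomputable def zz (B : Mat n) : ℝ := qq B * (k.Cw * SS B ^ 2)

def T (B : Mat n) : Prop := Pos B ∧ k.zz B < 2

theorem zz_nonneg (B : Mat n) : 0 ≤ k.zz B :=
  mul_nonneg (qq_nonneg B) (mul_nonneg k.Cw_pos.le (sq_nonneg _))

theorem near_of_T {B : Mat n} (h : k.T B) : Near k.c B := by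
  refine ⟨h.1, ?_⟩
  have h1 : qq B * SS B ^ 2 ≤ k.c ^ 2 := by
    have h2 := h.2.le
    unfold zz Cw at h2
    have hc := k.c_pos
    have h3 : qq B * (2 / k.c ^ 2 * SS B ^ 2) = (qq B * SS B ^ 2) * (2 / k.c ^ 2) := by ring
    rw [h3, ← le_div_iff₀ (by positivity)] at h2
    refine h2.trans (le_of_eq ?_)
    field_simp
  have h4 : Real.sqrt (qq B) * SS B = Real.sqrt (qq B * SS B ^ 2) := by
    rw [Real.sqrt_mul (qq_nonneg B), Real.sqrt_sq (SS_nonneg B)]
  rw [h4]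
  exact (Real.sqrt_le_sqrt h1).trans (le_of_eq (Real.sqrt_sq k.c_pos.le))

theorem contDiffAt_zz {B : Mat n} (hB : Pos B) {m : ℕ∞ω} : ContDiffAt ℝ m k.zz B :=
  (contDiffAt_qq hB).mul (contDiffAt_const.mul ((contDiffAt_SS hB).pow 2))

theorem T_eventually {B : Mat n} (hB : k.T B) : ∀ᶠ B' : Mat n in 𝓝 B, k.T B' := by
  have h1 : ∀ᶠ B' : Mat n in 𝓝 B, k.zz B' < 2 :=
    ((k.contDiffAt_zz (m := 0) hB.1).continuousAt.tendsto).eventually (gt_mem_nhds hB.2)
  filter_upwards [pos_eventually hB.1, h1] with B' h2 h3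
  exact ⟨h2, h3⟩

theorem uniq {B : Mat n} {γ γ' : G n} (hγ : γ ∈ Gam n) (hγ' : γ' ∈ Gam n)
    (h : k.T (B * (γ : Mat n))) (h' : k.T (B * (γ' : Mat n))) : γ = γ' := by
  have h1 : B * (γ' : Mat n) = (B * (γ : Mat n)) * ((γ⁻¹ * γ' : G n) : Mat n) := by
    rw [Matrix.SpecialLinearGroup.coe_mul, mul_assoc, ← mul_assoc (γ : Mat n), coe_mul_inv, one_mul]
  have h2 := dis k.hc (k.near_of_T h') (k.near_of_T h) (γ⁻¹ * γ') (mul_mem (inv_mem hγ) hγ') h1
  exact (inv_mul_eq_one.mp h2)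

open Classical in
noncomputable def UU (B : Mat n) : ℝ :=
  if Pos B then Real.smoothTransition (2 - 2 * k.zz B) * (qq B) ^ (3 / 2 : ℝ) else 0

open Classical in
noncomputable def uu (B : Mat n) : ℝ :=
  if h : ∃ γ : G n, γ ∈ Gam n ∧ k.T (B * (γ : Mat n)) then k.UU (B * (h.choose : Mat n)) else 0

theorem uu_eq {B : Mat n} {γ : G n} (hγ : γ ∈ Gam n) (h : k.T (B * (γ : Mat n))) :
    k.uu B = k.UU (B * (γ : Mat n)) := by
  have hex : ∃ γ : G n, γ ∈ Gam n ∧ k.T (B * (γ : Mat n)) := ⟨γ, hγ, h⟩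
  have h1 : hex.choose = γ := k.uniq hex.choose_spec.1 hγ hex.choose_spec.2 h
  unfold uu
  rw [dif_pos hex, h1]

theorem uu_zero {B : Mat n} (h : ∀ γ : G n, γ ∈ Gam n → ¬ (Pos (B * (γ : Mat n)) ∧
    k.zz (B * (γ : Mat n)) ≤ 1)) : k.uu B = 0 := by
  unfold uu
  split_ifs with hex
  · have h1 := h hex.choose hex.choose_spec.1
    unfold UU
    rw [if_pos hex.choose_spec.2.1]
    have h2 : 1 < k.zz (B * (hex.choose : Mat n)) := by
      by_contra hcon
      exact h1 ⟨hex.choose_spec.2.1, not_lt.mp hcon⟩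
    rw [Real.smoothTransition.zero_of_nonpos (by linarith), zero_mul]
  · rfl

theorem uu_inv (g γ : G n) (hγ : γ ∈ Gam n) : k.uu ((g * γ : G n) : Mat n) = k.uu (g : Mat n) := by
  by_cases hex : ∃ δ : G n, δ ∈ Gam n ∧ k.T ((g : Mat n) * (δ : Mat n))
  · obtain ⟨δ, hδ, hT⟩ := hex
    have e1 : ((g * γ : G n) : Mat n) * ((γ⁻¹ * δ : G n) : Mat n) = (g : Mat n) * (δ : Mat n) := by
      rw [← Matrix.SpecialLinearGroup.coe_mul, ← Matrix.SpecialLinearGroup.coe_mul]
      congr 1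
      group
    rw [k.uu_eq hδ hT, k.uu_eq (B := ((g * γ : G n) : Mat n)) (γ := γ⁻¹ * δ) (mul_mem (inv_mem hγ) hδ)
      (by rw [e1]; exact hT), e1]
  · have h1 : k.uu (g : Mat n) = 0 := by
      unfold uu
      rw [dif_neg hex]
    have hex' : ¬ ∃ δ : G n, δ ∈ Gam n ∧ k.T (((g * γ : G n) : Mat n) * (δ : Mat n)) := by
      rintro ⟨δ, hδ, hT⟩
      refine hex ⟨γ * δ, mul_mem hγ hδ, ?_⟩
      rw [Matrix.SpecialLinearGroup.coe_mul, ← mul_assoc, ← Matrix.SpecialLinearGroup.coe_mul]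
      exact hT
    rw [h1]
    unfold uu
    rw [dif_neg hex']

/-- entries of h in the tube are controlled below -/
theorem finite_gam (Q : ℝ) : {γ : G n | γ ∈ Gam n ∧ ∀ i j, |(γ : Mat n) i j| ≤ Q}.Finite := by
  have hfin : (Set.univ.pi fun _ : Fin n => Set.univ.pi fun _ : Fin n =>
      Set.Icc (-⌈Q⌉) ⌈Q⌉ : Set (Fin n → Fin n → ℤ)).Finite :=
    Set.Finite.pi fun _ => Set.Finite.pi fun _ => Set.finite_Icc _ _
  let f : G n → Fin n → Fin n → ℤ := fun γ i j => ⌊(γ : Mat n) i j⌋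
  refine Set.Finite.of_finite_image (f := f) (hfin.subset ?_) ?_
  · rintro _ ⟨γ, ⟨hγ, hb⟩, rfl⟩
    simp only [Set.mem_pi, Set.mem_univ, forall_true_left, Set.mem_Icc]
    intro i j
    obtain ⟨z, hz⟩ := mem_Gam hγ i j
    have h1 := hb i j
    rw [hz, abs_le] at h1
    change -⌈Q⌉ ≤ ⌊(γ : Mat n) i j⌋ ∧ ⌊(γ : Mat n) i j⌋ ≤ ⌈Q⌉
    rw [hz, Int.floor_intCast]
    constructor
    · have : (-(⌈Q⌉ : ℤ) : ℝ) ≤ z := by
        have := Int.le_ceil Q
        linarith
      exact_mod_cast this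
    · have : (z : ℝ) ≤ (⌈Q⌉ : ℤ) := h1.2.trans (Int.le_ceil Q)
      exact_mod_cast this
  · rintro γ ⟨hγ, -⟩ γ' ⟨hγ', -⟩ he
    apply Subtype.ext
    ext i j
    obtain ⟨z, hz⟩ := mem_Gam hγ i j
    obtain ⟨z', hz'⟩ := mem_Gam hγ' i j
    have h1 : ⌊(γ : Mat n) i j⌋ = ⌊(γ' : Mat n) i j⌋ := congrFun (congrFun he i) j
    rw [hz, hz', Int.floor_intCast, Int.floor_intCast] at h1
    change (γ : Mat n) i j = (γ' : Mat n) i j
    rw [hz, hz', h1]

theorem diag_bound {h : Mat n} (hh : Near k.c h) {M : ℝ} (hM1 : 1 ≤ M) (hM : ∀ j, 1 / M ≤ h j j)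
    (hdet : h.det ≤ 2) (j : Fin n) : h j j ≤ 4 * M ^ n := by
  have hM0 : 0 < M := by linarith
  -- h = diag (1 + R)
  let R : Mat n := fun i j => if i = j then 0 else h i j / h i i
  have hR : ∀ i j, |R i j| ≤ k.c := by
    intro i j
    change |if i = j then 0 else h i j / h i i| ≤ k.c
    split_ifs with hij
    · rw [abs_zero]; exact k.c_pos.le
    · exact (abs_r_le h hij).trans (hh.eta i)
  have hfac : h = Matrix.diagonal (fun i => h i i) * (1 + R) := by
    ext i l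
    rw [Matrix.diagonal_mul, Matrix.add_apply]
    change h i l = h i i * ((1 : Mat n) i l + if i = l then 0 else h i l / h i i)
    by_cases hil : i = l
    · subst hil; simp
    · rw [if_neg hil, Matrix.one_apply_ne hil, zero_add, mul_div_cancel₀ _ (hh.pos i).ne']
  have h1 := k.hdet R hR
  have h2 : h.det = (∏ i, h i i) * (1 + R).det := by
    conv_lhs => rw [hfac]
    rw [Matrix.det_mul, Matrix.det_diagonal]
  have hprod0 : 0 ≤ ∏ i, h i i := Finset.prod_nonneg fun i _ => (hh.pos i).le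
  have h3 : ∏ i, h i i ≤ 4 := by nlinarith
  have h4 : h j j * ∏ i ∈ Finset.univ.erase j, h i i = ∏ i, h i i :=
    Finset.mul_prod_erase Finset.univ (fun i => h i i) (Finset.mem_univ j)
  have h5 : ∏ i ∈ Finset.univ.erase j, (1 / M) ≤ ∏ i ∈ Finset.univ.erase j, h i i :=
    Finset.prod_le_prod (fun i _ => by positivity) (fun i _ => hM i)
  rw [Finset.prod_const, Finset.card_erase_of_mem (Finset.mem_univ j), Finset.card_univ,
    Fintype.card_fin] at h5
  have h6 : (1 / M) ^ n ≤ (1 / M) ^ (n - 1) :=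
    pow_le_pow_of_le_one (by positivity) (by rw [div_le_one hM0]; exact hM1) (Nat.sub_le _ _)
  have h7 : h j j * (1 / M) ^ n ≤ 4 := by
    calc h j j * (1 / M) ^ n ≤ h j j * ∏ i ∈ Finset.univ.erase j, h i i := by
          gcongr
          · exact (hh.pos j).le
          · exact h6.trans h5
      _ ≤ 4 := by rw [h4]; exact h3
  rw [one_div, inv_pow, ← div_eq_mul_inv, div_le_iff₀ (by positivity)] at h7
  exact h7

theorem proper (g₀ : G n) : ∃ Q : ℝ, ∀ᶠ B : Mat n in 𝓝 (g₀ : Mat n), ∀ γ : G n, γ ∈ Gam n →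
    k.T (B * (γ : Mat n)) → ∀ i j, |(γ : Mat n) i j| ≤ Q := by
  -- bound for the inverse
  set M : ℝ := 2 * ‖((g₀⁻¹ : G n) : Mat n)‖ + 2 with hM
  have hn0 : 0 ≤ ‖((g₀⁻¹ : G n) : Mat n)‖ := norm_nonneg _
  have hM1 : 1 ≤ M := by linarith
  have hM0 : 0 < M := by linarith
  refine ⟨M * (4 * M ^ n), ?_⟩
  have hadj : ContinuousAt (fun B : Mat n => ‖(B.det)⁻¹ • B.adjugate‖) (g₀ : Mat n) := by
    have h1 : ContinuousAt (fun B : Mat n => (B.det)⁻¹) (g₀ : Mat n) := by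
      apply ContinuousAt.inv₀ (continuous_id.matrix_det).continuousAt
      rw [id, g₀.2]; exact one_ne_zero
    exact (h1.smul (continuous_id.matrix_adjugate).continuousAt).norm
  have h0 : ‖((g₀ : Mat n).det)⁻¹ • (g₀ : Mat n).adjugate‖ = ‖((g₀⁻¹ : G n) : Mat n)‖ := by
    rw [g₀.2, inv_one, one_smul, ← Matrix.SpecialLinearGroup.coe_inv]
  have hev1 : ∀ᶠ B : Mat n in 𝓝 (g₀ : Mat n), ‖(B.det)⁻¹ • B.adjugate‖ < M := by
    have := hadj.tendsto
    rw [h0] at this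
    exact this.eventually (gt_mem_nhds (by linarith))
  have hev2 : ∀ᶠ B : Mat n in 𝓝 (g₀ : Mat n), B.det < 2 := by
    have := (continuous_id.matrix_det (n := Fin n) (R := ℝ)).tendsto (g₀ : Mat n)
    rw [id, g₀.2] at this
    exact this.eventually (gt_mem_nhds (by norm_num))
  have hev3 : ∀ᶠ B : Mat n in 𝓝 (g₀ : Mat n), 0 < B.det := by
    have := (continuous_id.matrix_det (n := Fin n) (R := ℝ)).tendsto (g₀ : Mat n)
    rw [id, g₀.2] at this
    exact this.eventually (lt_mem_nhds (by norm_num))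
  filter_upwards [hev1, hev2, hev3] with B hB1 hB2 hB3 γ hγ hT
  have hnear := k.near_of_T hT
  set h := B * (γ : Mat n) with hh
  set B' := (B.det)⁻¹ • B.adjugate with hB'
  have hinv : B' * B = 1 := by
    rw [hB', smul_mul_assoc, Matrix.adjugate_mul, smul_smul, inv_mul_cancel₀ hB3.ne', one_smul]
  have hγh : (γ : Mat n) = B' * h := by rw [hh, ← mul_assoc, hinv, one_mul]
  have hc1 : k.c ≤ 1 := k.c_le.trans (by norm_num)
  have hent : ∀ i j, |(γ : Mat n) i j| ≤ M * h j j := by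
    intro i j
    have e1 : (γ : Mat n) i j = ∑ l, B' i l * h l j := by
      conv_lhs => rw [hγh]
      rw [Matrix.mul_apply]
    rw [e1]
    calc |∑ l, B' i l * h l j| ≤ ∑ l, |B' i l * h l j| := Finset.abs_sum_le_sum_abs _ _
      _ ≤ ∑ l, |B' i l| * h j j := by
        refine Finset.sum_le_sum fun l _ => ?_
        rw [abs_mul]
        exact mul_le_mul_of_nonneg_left (hnear.col hc1 l j) (abs_nonneg _)
      _ = (∑ l, |B' i l|) * h j j := by rw [Finset.sum_mul]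
      _ ≤ M * h j j := by
        have := (hnear.pos j).le
        gcongr
        exact (row_sum_le B' i).trans hB1.le
  have hlow : ∀ j, 1 / M ≤ h j j := by
    intro j
    obtain ⟨i, hi⟩ : ∃ i, (γ : Mat n) i j ≠ 0 := by
      by_contra hcon
      push Not at hcon
      have : (γ : Mat n).det = 0 := Matrix.det_eq_zero_of_column_eq_zero j hcon
      rw [γ.2] at this
      exact one_ne_zero this
    obtain ⟨z, hz⟩ := mem_Gam hγ i j
    have h1 : 1 ≤ |(γ : Mat n) i j| := by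
      rw [hz] at hi ⊢
      have : z ≠ 0 := by intro h; apply hi; rw [h]; simp
      exact_mod_cast Int.one_le_abs this
    rw [div_le_iff₀ hM0, mul_comm]
    exact h1.trans (hent i j)
  have hdet : h.det ≤ 2 := by
    rw [hh, Matrix.det_mul, γ.2, mul_one]
    exact hB2.le
  intro i j
  have hb := k.diag_bound hnear hM1 hlow hdet j
  exact (hent i j).trans (mul_le_mul_of_nonneg_left hb hM0.le)

theorem closed_T (g₁ : G n) (h : ¬ (Pos (g₁ : Mat n) ∧ k.zz (g₁ : Mat n) ≤ 1)) :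
    ∀ᶠ B : Mat n in 𝓝 (g₁ : Mat n), ¬ (Pos B ∧ k.zz B ≤ 1) := by
  by_cases hp : Pos (g₁ : Mat n)
  · have h1 : 1 < k.zz (g₁ : Mat n) := by
      by_contra hcon
      exact h ⟨hp, not_lt.mp hcon⟩
    have h2 : ∀ᶠ B : Mat n in 𝓝 (g₁ : Mat n), 1 < k.zz B :=
      ((k.contDiffAt_zz (m := 0) hp).continuousAt.tendsto).eventually (lt_mem_nhds h1)
    filter_upwards [h2] with B hB h3
    linarith [h3.2]
  · unfold Pos at hp
    push Not at hp
    obtain ⟨i, hi⟩ := hp
    rcases lt_or_eq_of_le hi with hlt | heq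
    · have h2 : ∀ᶠ B : Mat n in 𝓝 (g₁ : Mat n), B i i < 0 :=
        ((entry_contDiff (m := 0) i i).continuous.tendsto _).eventually (gt_mem_nhds hlt)
      filter_upwards [h2] with B hB h3
      linarith [h3.1 i]
    · obtain ⟨j, hj⟩ : ∃ j, (g₁ : Mat n) i j ≠ 0 := by
        by_contra hcon
        push Not at hcon
        have : (g₁ : Mat n).det = 0 := Matrix.det_eq_zero_of_row_eq_zero i hcon
        rw [g₁.2] at this
        exact one_ne_zero this
      have hij : i ≠ j := by rintro rfl; exact hj heq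
      set δ := |(g₁ : Mat n) i j| / 2 with hδ
      have hδ0 : 0 < δ := by
        have := abs_pos.mpr hj
        positivity
      have h2 : ∀ᶠ B : Mat n in 𝓝 (g₁ : Mat n), δ < |B i j| := by
        have hc : ContinuousAt (fun B : Mat n => |B i j|) (g₁ : Mat n) :=
          ((entry_contDiff (m := 0) i j).continuous.continuousAt).abs
        exact hc.tendsto.eventually (lt_mem_nhds (by
          have := abs_pos.mpr hj
          rw [hδ]; linarith))
      have h3 : ∀ᶠ B : Mat n in 𝓝 (g₁ : Mat n), B i i < δ := by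
        have hc := (entry_contDiff (m := 0) i i).continuous.tendsto (g₁ : Mat n)
        rw [heq] at hc
        exact hc.eventually (gt_mem_nhds hδ0)
      filter_upwards [h2, h3] with B hB2 hB3 hB
      obtain ⟨hBp, hBz⟩ := hB
      have hBi := hBp i
      have h4 : 1 < (B i j / B i i) ^ 2 := by
        rw [← sq_abs, abs_div, abs_of_pos hBi]
        have : 1 < |B i j| / B i i := by
          rw [lt_div_iff₀ hBi, one_mul]; linarith
        nlinarith
      have h5 := r_le B hij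
      have h6 := one_le_SS hBp i
      have h7 := k.Cw_ge
      have h8 : 1 ≤ k.Cw * SS B ^ 2 := by nlinarith
      unfold zz at hBz
      nlinarith [qq_nonneg B]

theorem uu_zero_near {g₀ : G n} (h : ∀ γ : G n, γ ∈ Gam n → ¬ k.T ((g₀ : Mat n) * (γ : Mat n))) :
    ∀ᶠ B : Mat n in 𝓝 (g₀ : Mat n), k.uu B = 0 := by
  obtain ⟨Q, hQ⟩ := k.proper g₀
  have hfin := finite_gam (n := n) Q
  have h1 : ∀ γ ∈ {γ : G n | γ ∈ Gam n ∧ ∀ i j, |(γ : Mat n) i j| ≤ Q},
      ∀ᶠ B : Mat n in 𝓝 (g₀ : Mat n), ¬ (Pos (B * (γ : Mat n)) ∧ k.zz (B * (γ : Mat n)) ≤ 1) := by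
    rintro γ ⟨hγ, -⟩
    have h2 := k.closed_T (g₀ * γ) (by
      rintro ⟨h3, h4⟩
      apply h γ hγ
      rw [← Matrix.SpecialLinearGroup.coe_mul]
      exact ⟨h3, by linarith⟩)
    rw [Matrix.SpecialLinearGroup.coe_mul] at h2
    have hc : Continuous (fun B : Mat n => B * (γ : Mat n)) := continuous_id.mul continuous_const
    exact (hc.tendsto (g₀ : Mat n)).eventually h2
  have h2 := (Filter.eventually_all_finite hfin).mpr h1
  filter_upwards [hQ, h2] with B hB1 hB2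
  apply k.uu_zero
  intro γ hγ hcon
  have h3 : k.T (B * (γ : Mat n)) := ⟨hcon.1, by linarith [hcon.2]⟩
  exact hB2 γ ⟨hγ, hB1 γ hγ h3⟩ hcon

theorem uu_near {g₀ γ : G n} (hγ : γ ∈ Gam n) (h : k.T ((g₀ : Mat n) * (γ : Mat n))) :
    ∀ᶠ B : Mat n in 𝓝 (g₀ : Mat n), k.uu B = k.UU (B * (γ : Mat n)) := by
  have hc : Continuous (fun B : Mat n => B * (γ : Mat n)) := continuous_id.mul continuous_const
  filter_upwards [(hc.tendsto (g₀ : Mat n)).eventually (k.T_eventually h)] with B hB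
  exact k.uu_eq hγ hB

theorem UU_near {B : Mat n} (hB : Pos B) : k.UU =ᶠ[𝓝 B]
    fun B => Real.smoothTransition (2 - 2 * k.zz B) * (qq B) ^ (3 / 2 : ℝ) := by
  filter_upwards [pos_eventually hB] with B' hB'
  unfold UU
  rw [if_pos hB']

theorem UU_c1 {B : Mat n} (hB : Pos B) : ContDiffAt ℝ 1 k.UU B := by
  refine ContDiffAt.congr_of_eventuallyEq ?_ (k.UU_near hB)
  have h1 : ContDiffAt ℝ 1 (fun B => Real.smoothTransition (2 - 2 * k.zz B)) B :=
    Real.smoothTransition.contDiff.contDiffAt.comp B (contDiffAt_const.sub (contDiffAt_const.mul (k.contDiffAt_zz hB)))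
  have h2 : ContDiffAt ℝ 1 (fun B => (qq B) ^ (3 / 2 : ℝ)) B := by
    have h3 : ContDiff ℝ ((1 : ℕ) : ℕ∞ω) (fun x : ℝ => x ^ (3 / 2 : ℝ)) :=
      Real.contDiff_rpow_const_of_le (by norm_num)
    exact (h3.contDiffAt.comp B (contDiffAt_qq hB) : ContDiffAt ℝ ((1 : ℕ) : ℕ∞ω) _ B)
  exact h1.mul h2

theorem UU_smooth {B : Mat n} (hB : Pos B) (hq : qq B ≠ 0) : ContDiffAt ℝ ∞ k.UU B := by
  refine ContDiffAt.congr_of_eventuallyEq ?_ (k.UU_near hB)
  have h1 : ContDiffAt ℝ ∞ (fun B => Real.smoothTransition (2 - 2 * k.zz B)) B :=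
    Real.smoothTransition.contDiff.contDiffAt.comp B (contDiffAt_const.sub (contDiffAt_const.mul (k.contDiffAt_zz hB)))
  exact h1.mul ((contDiffAt_qq hB).rpow_const_of_ne hq)

theorem mem_D_of_qq {g : G n} (hp : Pos (g : Mat n)) (hq : qq (g : Mat n) = 0) : g ∈ D n := by
  refine ⟨fun i j hij => ?_, hp⟩
  have h1 := r_le (g : Mat n) hij
  rw [hq] at h1
  have h2 : ((g : Mat n) i j / (g : Mat n) i i) ^ 2 = 0 := le_antisymm h1 (sq_nonneg _)
  have h3 : (g : Mat n) i j / (g : Mat n) i i = 0 := by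
    rwa [sq_eq_zero_iff] at h2
  rcases div_eq_zero_iff.mp h3 with h | h
  · exact h
  · exact absurd h (hp i).ne'

theorem comp_right {f : Mat n → ℝ} {g γ : G n} {m : ℕ∞ω}
    (h : ContDiffAt ℝ m f ((g : Mat n) * (γ : Mat n))) :
    ContDiffAt ℝ m (fun B : Mat n => f (B * (γ : Mat n))) (g : Mat n) :=
  ContDiffAt.comp (f := fun B : Mat n => B * (γ : Mat n)) (g := f) _ h
    (contDiff_id.mul contDiff_const).contDiffAt

theorem uu_c1 (g : G n) : ContDiffAt ℝ 1 k.uu (g : Mat n) := by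
  by_cases hex : ∃ γ : G n, γ ∈ Gam n ∧ k.T ((g : Mat n) * (γ : Mat n))
  · obtain ⟨γ, hγ, hT⟩ := hex
    exact (comp_right (k.UU_c1 hT.1)).congr_of_eventuallyEq (k.uu_near hγ hT)
  · push Not at hex
    have h1 : k.uu =ᶠ[𝓝 (g : Mat n)] fun _ => (0 : ℝ) := k.uu_zero_near hex
    exact contDiffAt_const.congr_of_eventuallyEq h1

theorem uu_smooth (g : G n) (hg : ¬ ∃ γ ∈ Gam n, g * γ ∈ D n) : ContDiffAt ℝ ∞ k.uu (g : Mat n) := by
  by_cases hex : ∃ γ : G n, γ ∈ Gam n ∧ k.T ((g : Mat n) * (γ : Mat n))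
  · obtain ⟨γ, hγ, hT⟩ := hex
    have hq : qq ((g : Mat n) * (γ : Mat n)) ≠ 0 := by
      intro h
      apply hg
      refine ⟨γ, hγ, ?_⟩
      rw [← Matrix.SpecialLinearGroup.coe_mul] at h hT
      exact mem_D_of_qq hT.1 h
    exact (comp_right (k.UU_smooth hT.1 hq)).congr_of_eventuallyEq (k.uu_near hγ hT)
  · push Not at hex
    have h1 : k.uu =ᶠ[𝓝 (g : Mat n)] fun _ => (0 : ℝ) := k.uu_zero_near hex
    exact contDiffAt_const.congr_of_eventuallyEq h1

end Cst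

end Pool.Agent.CRT
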