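import Pool.Agent.Helper55_CRT.Stmt

/-!
# MP_6bfaa3_an: module VOL, part A: reduction of a real matrix by unimodular integer matrices
-/

open Matrix Topology Filter MeasureTheory
open scoped ContDiff Matrix.Norms.Operator

namespace Pool.Agent.CRT

theorem vec (m : ℕ) (v : Fin (m + 1) → ℤ) (hv : v ≠ 0) :
    ∃ γ : Matrix (Fin (m + 1)) (Fin (m + 1)) ℤ, IsUnit γ.det ∧ ∃ a : ℤ, a ≠ 0 ∧ ∀ i, v i = a * γ i 0 := by
  classical
  obtain ⟨k, snf⟩ := Submodule.smithNormalForm (Pi.basisFun ℤ (Fin (m + 1))) (Submodule.span ℤ {v})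
  have hk : k = 1 := by
    have h1 : Module.finrank ℤ (Submodule.span ℤ {v}) = k := by
      rw [Module.finrank_eq_card_basis snf.bN, Fintype.card_fin]
    have h2 : Module.finrank ℤ (Submodule.span ℤ {v}) = 1 := by
      rw [← (LinearEquiv.toSpanNonzeroSingleton ℤ (Fin (m + 1) → ℤ) v hv).finrank_eq]
      exact Module.finrank_self ℤ
    omega
  subst hk
  have hvm : v ∈ Submodule.span ℤ {v} := Submodule.mem_span_singleton_self v
  have h3 := snf.bN.sum_repr ⟨v, hvm⟩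
  rw [Fin.sum_univ_one] at h3
  have h4 : v = (snf.bN.repr ⟨v, hvm⟩ 0 * snf.a 0) • snf.bM (snf.f 0) := by
    have h5 := congrArg (fun x : Submodule.span ℤ {v} => (x : Fin (m + 1) → ℤ)) h3
    simp only [Submodule.coe_smul] at h5
    rw [snf.snf, smul_smul] at h5
    exact h5.symm
  set a := snf.bN.repr ⟨v, hvm⟩ 0 * snf.a 0 with ha
  have ha0 : a ≠ 0 := by
    intro h
    rw [h, zero_smul] at h4
    exact hv h4
  let b := snf.bM.reindex (Equiv.swap (snf.f 0) 0)
  have hb0 : b 0 = snf.bM (snf.f 0) := by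
    simp [b]
  refine ⟨(Pi.basisFun ℤ (Fin (m + 1))).toMatrix b, ?_, a, ha0, ?_⟩
  · have := (Pi.basisFun ℤ (Fin (m + 1))).isUnit_det b
    rwa [Module.Basis.det_apply] at this
  · intro i
    rw [Module.Basis.toMatrix_apply, hb0]
    conv_lhs => rw [h4]
    simp

theorem minkowski {n : ℕ} (hn : 1 ≤ n) (B : Mat n) (hB : B.det ≠ 0) (hB1 : |B.det| ≤ 1) :
    ∃ v : Fin n → ℤ, v ≠ 0 ∧ ∀ i, |(B *ᵥ (fun j => (v j : ℝ))) i| ≤ 1 := by
  classical
  have : Nonempty (Fin n) := ⟨⟨0, hn⟩⟩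
  have : Nontrivial (Fin n → ℝ) := inferInstance
  have hinv : Invertible B := Matrix.invertibleOfIsUnitDet B (isUnit_iff_ne_zero.mpr hB)
  let b : Module.Basis (Fin n) ℝ (Fin n → ℝ) := (Pi.basisFun ℝ (Fin n)).map (B.toLinearEquiv' hinv)
  have hb : ∀ j i, b j i = B i j := by
    intro j i
    change (Matrix.toLin' B ((Pi.basisFun ℝ (Fin n)) j)) i = B i j
    rw [Matrix.toLin'_apply, Pi.basisFun_apply, Matrix.mulVec_single_one]
    rfl
  have hof : (Matrix.of b) = Bᵀ := by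
    ext i j
    exact hb i j
  have hvol : volume (ZSpan.fundamentalDomain b) = ENNReal.ofReal |B.det| := by
    rw [ZSpan.volume_fundamentalDomain, hof, Matrix.det_transpose]
  have hcube : volume (Metric.closedBall (0 : Fin n → ℝ) 1) = 2 ^ n := by
    rw [Real.volume_pi_closedBall (0 : Fin n → ℝ) zero_le_one, mul_one, Fintype.card_fin]
    rw [ENNReal.ofReal_pow (by norm_num)]
    norm_num
  have hmeas : volume (ZSpan.fundamentalDomain b) * 2 ^ (Module.finrank ℝ (Fin n → ℝ)) ≤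
      volume (Metric.closedBall (0 : Fin n → ℝ) 1) := by
    rw [hvol, hcube, Module.finrank_fin_fun]
    calc ENNReal.ofReal |B.det| * 2 ^ n ≤ 1 * 2 ^ n := by
          gcongr
          exact ENNReal.ofReal_le_one.mpr hB1
      _ = 2 ^ n := one_mul _
  have hcnt : Countable (Submodule.span ℤ (Set.range b)).toAddSubgroup := by
    change Countable (Submodule.span ℤ (Set.range b))
    infer_instance
  have hdis : DiscreteTopology (Submodule.span ℤ (Set.range b)).toAddSubgroup := by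
    change DiscreteTopology (Submodule.span ℤ (Set.range b))
    infer_instance
  obtain ⟨x, hx0, hx⟩ := exists_ne_zero_mem_lattice_of_measure_mul_two_pow_le_measure
    (ZSpan.isAddFundamentalDomain' b volume) (s := Metric.closedBall (0 : Fin n → ℝ) 1)
    (fun x hx => by
      rw [mem_closedBall_zero_iff] at hx ⊢
      rwa [norm_neg]) (convex_closedBall _ _) (isCompact_closedBall _ _) hmeas
  have hxm : (x : Fin n → ℝ) ∈ Submodule.span ℤ (Set.range b) := x.2
  rw [Submodule.mem_span_range_iff_exists_fun] at hxm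
  obtain ⟨c, hc⟩ := hxm
  refine ⟨c, ?_, ?_⟩
  · rintro rfl
    apply hx0
    apply Subtype.ext
    rw [← hc]
    simp
  · intro i
    have h1 : (B *ᵥ (fun j => (c j : ℝ))) i = (x : Fin n → ℝ) i := by
      rw [← hc, Finset.sum_apply, Matrix.mulVec, dotProduct]
      refine Finset.sum_congr rfl fun j _ => ?_
      rw [Pi.smul_apply, hb, zsmul_eq_mul, mul_comm]
    rw [h1, ← Real.norm_eq_abs]
    rw [mem_closedBall_zero_iff] at hx
    exact (norm_le_pi_norm _ i).trans hx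

/-- block matrix [1, z; 0, γ] -/
def ext {m : ℕ} (z : Fin m → ℤ) (γ : Matrix (Fin m) (Fin m) ℤ) : Matrix (Fin (m + 1)) (Fin (m + 1)) ℤ :=
  fun i j => Fin.cases (Fin.cases 1 z j) (fun i' => Fin.cases 0 (fun j' => γ i' j') j) i

theorem ext_00 {m : ℕ} (z : Fin m → ℤ) (γ : Matrix (Fin m) (Fin m) ℤ) : ext z γ 0 0 = 1 := rfl
theorem ext_0s {m : ℕ} (z : Fin m → ℤ) (γ : Matrix (Fin m) (Fin m) ℤ) (j : Fin m) :
    ext z γ 0 j.succ = z j := rfl
theorem ext_s0 {m : ℕ} (z : Fin m → ℤ) (γ : Matrix (Fin m) (Fin m) ℤ) (i : Fin m) :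
    ext z γ i.succ 0 = 0 := rfl
theorem ext_ss {m : ℕ} (z : Fin m → ℤ) (γ : Matrix (Fin m) (Fin m) ℤ) (i j : Fin m) :
    ext z γ i.succ j.succ = γ i j := rfl

theorem det_ext {m : ℕ} (z : Fin m → ℤ) (γ : Matrix (Fin m) (Fin m) ℤ) : (ext z γ).det = γ.det := by
  rw [Matrix.det_succ_column_zero, Fin.sum_univ_succ]
  have h1 : (ext z γ).submatrix (Fin.succAbove 0) Fin.succ = γ := by
    ext i j
    rw [Matrix.submatrix_apply, Fin.zero_succAbove, ext_ss]
  rw [h1, ext_00]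
  have h2 : ∑ i : Fin m, (-1) ^ ((i.succ : Fin (m + 1)) : ℕ) * ext z γ i.succ 0 *
      ((ext z γ).submatrix (Fin.succAbove i.succ) Fin.succ).det = 0 := by
    refine Finset.sum_eq_zero fun i _ => ?_
    rw [ext_s0]; simp
  rw [h2]; simp

/-- scaling factor -/
noncomputable def lam (m : ℕ) (x : ℝ) : ℝ := |x| ^ ((1 : ℝ) / m)

/-- the scaled Schur complement -/
noncomputable def HH {m : ℕ} (B : Fin (m + 1) → Fin (m + 1) → ℝ) : Fin m → Fin m → ℝ :=
  fun i j => lam m (B 0 0) * (B i.succ j.succ - B i.succ 0 * (B 0 j.succ / B 0 0))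

theorem lam_pow {m : ℕ} (hm : m ≠ 0) (x : ℝ) : lam m x ^ m = |x| := by
  unfold lam
  rw [← Real.rpow_natCast, ← Real.rpow_mul (abs_nonneg x)]
  rw [one_div, inv_mul_cancel₀ (by exact_mod_cast hm), Real.rpow_one]

theorem lam_pos {m : ℕ} {x : ℝ} (hx : x ≠ 0) : 0 < lam m x :=
  Real.rpow_pos_of_pos (abs_pos.mpr hx) _

theorem det_schur {m : ℕ} (B : Mat (m + 1)) (h0 : B 0 0 ≠ 0) :
    B.det = B 0 0 * (Matrix.of fun i j : Fin m => B i.succ j.succ - B i.succ 0 * (B 0 j.succ / B 0 0)).det := by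
  set H : Matrix (Fin m) (Fin m) ℝ :=
    Matrix.of fun i j : Fin m => B i.succ j.succ - B i.succ 0 * (B 0 j.succ / B 0 0) with hH
  let L : Mat (m + 1) := fun i j => Fin.cases (Fin.cases (B 0 0) (fun _ => 0) j)
    (fun i' => Fin.cases (B i'.succ 0) (fun j' => (1 : Matrix (Fin m) (Fin m) ℝ) i' j') j) i
  let U : Mat (m + 1) := fun i j => Fin.cases (Fin.cases 1 (fun j' => B 0 j'.succ / B 0 0) j)
    (fun i' => Fin.cases 0 (fun j' => H i' j') j) i
  have hLU : B = L * U := by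
    ext i j
    rw [Matrix.mul_apply, Fin.sum_univ_succ]
    refine Fin.cases ?_ (fun i' => ?_) i
    · refine Fin.cases ?_ (fun j' => ?_) j
      · change B 0 0 = B 0 0 * 1 + ∑ k : Fin m, (0 : ℝ) * 0
        simp
      · change B 0 j'.succ = B 0 0 * (B 0 j'.succ / B 0 0) + ∑ k : Fin m, (0 : ℝ) * H k j'
        simp only [zero_mul, Finset.sum_const_zero, add_zero]
        field_simp
    · refine Fin.cases ?_ (fun j' => ?_) j
      · change B i'.succ 0 = B i'.succ 0 * 1 + ∑ k : Fin m, (1 : Matrix (Fin m) (Fin m) ℝ) i' k * 0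
        simp
      · change B i'.succ j'.succ = B i'.succ 0 * (B 0 j'.succ / B 0 0) +
          ∑ k : Fin m, (1 : Matrix (Fin m) (Fin m) ℝ) i' k * H k j'
        have h1 : ∑ k : Fin m, (1 : Matrix (Fin m) (Fin m) ℝ) i' k * H k j' = H i' j' := by
          rw [← Matrix.mul_apply, Matrix.one_mul]
        rw [h1, hH, Matrix.of_apply]
        ring
  have hL : L.det = B 0 0 := by
    rw [Matrix.det_succ_row_zero, Fin.sum_univ_succ]
    have h1 : L.submatrix Fin.succ (Fin.succAbove 0) = 1 := by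
      ext i j
      rw [Matrix.submatrix_apply, Fin.zero_succAbove]
      rfl
    rw [h1]
    have h2 : ∑ j : Fin m, (-1) ^ ((j.succ : Fin (m + 1)) : ℕ) * L 0 j.succ *
        (L.submatrix Fin.succ (Fin.succAbove j.succ)).det = 0 := by
      refine Finset.sum_eq_zero fun j _ => ?_
      change _ * (0 : ℝ) * _ = 0
      simp
    rw [h2]
    change (-1) ^ ((0 : Fin (m + 1)) : ℕ) * B 0 0 * _ + 0 = _
    simp
  have hU : U.det = H.det := by
    rw [Matrix.det_succ_column_zero, Fin.sum_univ_succ]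
    have h1 : U.submatrix (Fin.succAbove 0) Fin.succ = H := by
      ext i j
      rw [Matrix.submatrix_apply, Fin.zero_succAbove]
      rfl
    rw [h1]
    have h2 : ∑ i : Fin m, (-1) ^ ((i.succ : Fin (m + 1)) : ℕ) * U i.succ 0 *
        (U.submatrix (Fin.succAbove i.succ) Fin.succ).det = 0 := by
      refine Finset.sum_eq_zero fun j _ => ?_
      change _ * (0 : ℝ) * _ = 0
      simp
    rw [h2]
    change (-1) ^ ((0 : Fin (m + 1)) : ℕ) * (1 : ℝ) * _ + 0 = _
    simp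
  conv_lhs => rw [hLU]
  rw [Matrix.det_mul, hL, hU]

theorem det_HH {m : ℕ} (B : Mat (m + 1)) (h0 : B 0 0 ≠ 0) (hd : B.det ≠ 0) (hd1 : |B.det| ≤ 1) :
    (Matrix.of (HH B)).det ≠ 0 ∧ |(Matrix.of (HH B)).det| ≤ 1 := by
  rcases Nat.eq_zero_or_pos m with hm | hm
  · subst hm
    rw [Matrix.det_isEmpty]
    simp
  · have h1 : Matrix.of (HH B) = lam m (B 0 0) •
        (Matrix.of fun i j : Fin m => B i.succ j.succ - B i.succ 0 * (B 0 j.succ / B 0 0)) := by
      ext i j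
      rfl
    have h2 : |(Matrix.of (HH B)).det| = |B.det| := by
      rw [h1, Matrix.det_smul, Fintype.card_fin, lam_pow hm.ne', det_schur B h0, abs_mul, abs_abs, abs_mul]
    refine ⟨?_, h2.le.trans hd1⟩
    rw [← abs_pos, h2, abs_pos]
    exact hd

/-- the next reduced set -/
def Fnext {m : ℕ} (F : Set (Fin m → Fin m → ℝ)) : Set (Fin (m + 1) → Fin (m + 1) → ℝ) :=
  {B | B 0 0 = 0} ∪ {B | B 0 0 ≠ 0 ∧ (∀ i, |B i 0| ≤ 1) ∧ (∀ j : Fin m, B 0 j.succ / B 0 0 ∈ Set.Icc (0 : ℝ) 1) ∧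
    HH B ∈ F}

/-- the property of a reduced set -/
def Red {n : ℕ} (F : Set (Fin n → Fin n → ℝ)) : Prop :=
  ∀ B : Mat n, B.det ≠ 0 → |B.det| ≤ 1 →
    ∃ γ : Matrix (Fin n) (Fin n) ℤ, IsUnit γ.det ∧
      (fun i j => (B * γ.map (Int.cast : ℤ → ℝ)) i j) ∈ F

theorem red_next {m : ℕ} {F : Set (Fin m → Fin m → ℝ)} (hF : Red F) : Red (Fnext F) := by
  intro B hd hd1
  obtain ⟨v, hv, hv1⟩ := minkowski (by omega) B hd hd1
  obtain ⟨γ₁, hγ₁, a, ha, hva⟩ := vec m v hv
  set B₁ : Mat (m + 1) := B * γ₁.map (Int.cast : ℤ → ℝ) with hB₁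
  have hcol : ∀ i, |B₁ i 0| ≤ 1 := by
    intro i
    have h1 : (B *ᵥ (fun j => (v j : ℝ))) i = a * B₁ i 0 := by
      rw [hB₁, Matrix.mul_apply, Matrix.mulVec, dotProduct, Finset.mul_sum]
      refine Finset.sum_congr rfl fun j _ => ?_
      rw [hva j, Matrix.map_apply]
      push_cast
      ring
    have h2 := hv1 i
    rw [h1, abs_mul] at h2
    have h3 : (1 : ℝ) ≤ |(a : ℝ)| := by exact_mod_cast Int.one_le_abs ha
    nlinarith [abs_nonneg (B₁ i 0)]
  have hdetu : ∀ γ : Matrix (Fin (m + 1)) (Fin (m + 1)) ℤ, IsUnit γ.det →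
      |(γ.map (Int.cast : ℤ → ℝ)).det| = 1 := by
    intro γ hγ
    have h1 : (γ.map (Int.cast : ℤ → ℝ)).det = ((γ.det : ℤ) : ℝ) := by
      have := (Int.castRingHom ℝ).map_det γ
      rw [RingHom.mapMatrix_apply] at this
      exact this.symm
    rw [h1]
    rcases Int.isUnit_iff.mp hγ with h | h <;> rw [h] <;> simp
  have hd₁ : |B₁.det| = |B.det| := by
    rw [hB₁, Matrix.det_mul, abs_mul, hdetu γ₁ hγ₁, mul_one]
  have hd₁0 : B₁.det ≠ 0 := by rw [← abs_pos, hd₁, abs_pos]; exact hd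
  by_cases h0 : B₁ 0 0 = 0
  · exact ⟨γ₁, hγ₁, Or.inl h0⟩
  · obtain ⟨hH1, hH2⟩ := det_HH B₁ h0 hd₁0 (hd₁.le.trans hd1)
    obtain ⟨γ', hγ', hm⟩ := hF _ hH1 hH2
    -- the translation
    let y : Fin m → ℝ := fun j => ∑ k : Fin m, (B₁ 0 k.succ / B₁ 0 0) * (γ' k j : ℝ)
    let z : Fin m → ℤ := fun j => -⌊y j⌋
    refine ⟨γ₁ * ext z γ', ?_, ?_⟩
    · rw [Matrix.det_mul, det_ext]
      exact hγ₁.mul hγ'
    · have hmap : (γ₁ * ext z γ').map (Int.cast : ℤ → ℝ) =
          γ₁.map (Int.cast : ℤ → ℝ) * (ext z γ').map (Int.cast : ℤ → ℝ) := by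
        have := (Int.castRingHom ℝ).mapMatrix.map_mul γ₁ (ext z γ')
        simpa using this
      rw [hmap, ← mul_assoc, ← hB₁]
      set B₃ : Mat (m + 1) := B₁ * (ext z γ').map (Int.cast : ℤ → ℝ) with hB₃
      have e0 : ∀ i, B₃ i 0 = B₁ i 0 := by
        intro i
        rw [hB₃, Matrix.mul_apply, Fin.sum_univ_succ]
        simp only [Matrix.map_apply, ext_00, ext_s0]
        simp
      have es : ∀ i (j : Fin m), B₃ i j.succ = B₁ i 0 * (z j : ℝ) + ∑ k : Fin m, B₁ i k.succ * (γ' k j : ℝ) := by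
        intro i j
        rw [hB₃, Matrix.mul_apply, Fin.sum_univ_succ]
        simp only [Matrix.map_apply, ext_0s, ext_ss]
      refine Or.inr ⟨?_, ?_, ?_, ?_⟩
      · change B₃ 0 0 ≠ 0
        rw [e0]; exact h0
      · intro i
        change |B₃ i 0| ≤ 1
        rw [e0]; exact hcol i
      · intro j
        change B₃ 0 j.succ / B₃ 0 0 ∈ Set.Icc (0 : ℝ) 1
        have h1 : B₃ 0 j.succ / B₃ 0 0 = Int.fract (y j) := by
          rw [e0, es, add_div, mul_div_cancel_left₀ _ h0, Finset.sum_div]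
          change (((-⌊y j⌋ : ℤ) : ℝ)) + _ = y j - ⌊y j⌋
          have h2 : ∑ k : Fin m, B₁ 0 k.succ * (γ' k j : ℝ) / B₁ 0 0 = y j := by
            refine Finset.sum_congr rfl fun k _ => ?_
            ring
          rw [h2]
          push_cast
          ring
        rw [h1]
        exact ⟨Int.fract_nonneg _, (Int.fract_lt_one _).le⟩
      · have h1 : HH (fun i j => B₃ i j) =
            fun i j => (Matrix.of (HH B₁) * γ'.map (Int.cast : ℤ → ℝ)) i j := by
          funext i j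
          change lam m (B₃ 0 0) * (B₃ i.succ j.succ - B₃ i.succ 0 * (B₃ 0 j.succ / B₃ 0 0)) =
            (Matrix.of (HH B₁) * γ'.map (Int.cast : ℤ → ℝ)) i j
          rw [Matrix.mul_apply, e0, e0, es, es]
          unfold HH
          simp only [Matrix.of_apply, Matrix.map_apply]
          have h2 : (B₁ 0 0 * (z j : ℝ) + ∑ k : Fin m, B₁ 0 k.succ * (γ' k j : ℝ)) / B₁ 0 0 =
              z j + ∑ k : Fin m, (B₁ 0 k.succ / B₁ 0 0) * (γ' k j : ℝ) := by
            rw [add_div, mul_div_cancel_left₀ _ h0, Finset.sum_div]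
            congr 1
            refine Finset.sum_congr rfl fun k _ => ?_
            ring
          rw [h2]
          have h3 : ∑ k : Fin m, lam m (B₁ 0 0) * (B₁ i.succ k.succ - B₁ i.succ 0 * (B₁ 0 k.succ / B₁ 0 0)) *
              (γ' k j : ℝ) = lam m (B₁ 0 0) * ((∑ k : Fin m, B₁ i.succ k.succ * (γ' k j : ℝ)) -
                B₁ i.succ 0 * ∑ k : Fin m, (B₁ 0 k.succ / B₁ 0 0) * (γ' k j : ℝ)) := by
            rw [Finset.mul_sum, ← Finset.sum_sub_distrib, Finset.mul_sum]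
            refine Finset.sum_congr rfl fun k _ => ?_
            ring
          rw [h3]
          ring
        change HH (fun i j => B₃ i j) ∈ F
        rw [h1]
        exact hm

end Pool.Agent.CRT
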