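import Pool.Agent.Helper55_CRT.VolA

/-!
# MP_6bfaa3_an: module VOL, part B: volumes
-/

open Matrix Topology Filter MeasureTheory
open scoped ContDiff Matrix.Norms.Operator

namespace Pool.Agent.CRT

instance volHaar (m p : ℕ) : (volume : Measure (Fin m → Fin p → ℝ)).IsAddHaarMeasure := by
  have h : ∀ i : Fin m, (volume : Measure (Fin p → ℝ)).IsAddHaarMeasure := inferInstance
  exact Measure.pi.isAddHaarMeasure (fun _ => volume)

/-- exchange of the two indices -/
def swp (p m : ℕ) (W : Fin p → Fin m → ℝ) : Fin m → Fin p → ℝ := fun j i => W i j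

theorem measurePreserving_swp (p m : ℕ) : MeasurePreserving (swp p m) := by
  let e : (Fin p → Fin m → ℝ) ≃ₗ[ℝ] (Fin m → Fin p → ℝ) :=
    { toFun := swp p m
      invFun := swp m p
      left_inv := fun _ => rfl
      right_inv := fun _ => rfl
      map_add' := fun _ _ => rfl
      map_smul' := fun _ _ => rfl }
  let ec : (Fin p → Fin m → ℝ) ≃L[ℝ] (Fin m → Fin p → ℝ) := e.toContinuousLinearEquiv
  have hmeas : Measurable (swp p m) := ec.continuous.measurable
  refine ⟨hmeas, ?_⟩
  have h1 : (Measure.map (swp p m) (volume : Measure (Fin p → Fin m → ℝ))).IsAddHaarMeasure :=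
    ec.isAddHaarMeasure_map (volume : Measure (Fin p → Fin m → ℝ))
  have h2 := Measure.isAddLeftInvariant_eq_smul (Measure.map (swp p m) (volume : Measure (Fin p → Fin m → ℝ)))
    (volume : Measure (Fin m → Fin p → ℝ))
  have hball : ∀ p m : ℕ, volume (Metric.closedBall (0 : Fin p → Fin m → ℝ) 1) = 2 ^ (m * p) := by
    intro p m
    rw [volume_pi, Measure.pi_closedBall _ _ zero_le_one]
    have : ∀ i : Fin p, volume (Metric.closedBall ((0 : Fin p → Fin m → ℝ) i) 1) = 2 ^ m := by
      intro i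
      rw [Real.volume_pi_closedBall _ zero_le_one, mul_one, Fintype.card_fin, ENNReal.ofReal_pow (by norm_num)]
      norm_num
    rw [Finset.prod_congr rfl (fun i _ => this i), Finset.prod_const, Finset.card_univ, Fintype.card_fin,
      pow_mul]
  have hpre : swp p m ⁻¹' (Metric.closedBall (0 : Fin m → Fin p → ℝ) 1) =
      Metric.closedBall (0 : Fin p → Fin m → ℝ) 1 := by
    ext W
    rw [Set.mem_preimage, mem_closedBall_zero_iff, mem_closedBall_zero_iff, pi_norm_le_iff_of_nonneg zero_le_one,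
      pi_norm_le_iff_of_nonneg zero_le_one]
    constructor
    · intro h i
      rw [pi_norm_le_iff_of_nonneg zero_le_one]
      intro j
      exact (norm_le_pi_norm (swp p m W j) i).trans (h j)
    · intro h j
      rw [pi_norm_le_iff_of_nonneg zero_le_one]
      intro i
      exact (norm_le_pi_norm (W i) j).trans (h i)
  have h3 : Measure.map (swp p m) volume (Metric.closedBall (0 : Fin m → Fin p → ℝ) 1) = 2 ^ (m * p) := by
    rw [Measure.map_apply hmeas Metric.isClosed_closedBall.measurableSet, hpre, hball]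
  rw [h2, Measure.smul_apply, hball, mul_comm p m] at h3
  set c := Measure.addHaarScalarFactor (Measure.map (swp p m) (volume : Measure (Fin p → Fin m → ℝ)))
    (volume : Measure (Fin m → Fin p → ℝ)) with hc
  have hc1 : c = 1 := by
    have h4 : (c : ENNReal) * 2 ^ (m * p) = 1 * 2 ^ (m * p) := by
      rw [one_mul]; exact h3
    have h5 := (ENNReal.mul_left_inj (pow_ne_zero (m * p) two_ne_zero) (ENNReal.pow_ne_top ENNReal.ofNat_ne_top)).mp h4
    exact_mod_cast h5
  rw [h2, hc1, one_smul]

/-- multiplication of every row by a matrix -/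
theorem measurePreserving_rows {p m : ℕ} (M : Matrix (Fin m) (Fin m) ℝ) (hM : |M.det| = 1) :
    MeasurePreserving (fun (W : Fin p → Fin m → ℝ) (i : Fin p) => M *ᵥ (W i)) := by
  have hM0 : M.det ≠ 0 := by
    intro h
    rw [h, abs_zero] at hM
    exact zero_ne_one hM
  have h1 : MeasurePreserving (fun v : Fin m → ℝ => M *ᵥ v) := by
    have h2 := Real.map_matrix_volume_pi_eq_smul_volume_pi hM0
    rw [abs_inv, hM, inv_one, ENNReal.ofReal_one, one_smul] at h2
    exact ⟨(LinearMap.continuous_of_finiteDimensional (Matrix.toLin' M)).measurable, h2⟩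
  exact volume_preserving_pi (fun _ : Fin p => h1)

/-- left multiplication by a matrix -/
theorem measurePreserving_left {p m : ℕ} (M : Matrix (Fin p) (Fin p) ℝ) (hM : |M.det| = 1) :
    MeasurePreserving (fun (W : Fin p → Fin m → ℝ) (i : Fin p) (j : Fin m) => ∑ k, M i k * W k j) := by
  have h := (measurePreserving_swp m p).comp ((measurePreserving_rows (p := m) M hM).comp
    (measurePreserving_swp p m))
  exact h

/-- right multiplication by a matrix -/
theorem measurePreserving_right {p m : ℕ} (M : Matrix (Fin m) (Fin m) ℝ) (hM : |M.det| = 1) :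
    MeasurePreserving (fun (W : Fin p → Fin m → ℝ) (i : Fin p) (j : Fin m) => ∑ k, W i k * M k j) := by
  have h := measurePreserving_rows (p := p) Mᵀ (by rw [Matrix.det_transpose]; exact hM)
  have e : (fun (W : Fin p → Fin m → ℝ) (i : Fin p) (j : Fin m) => ∑ k, W i k * M k j) =
      fun (W : Fin p → Fin m → ℝ) (i : Fin p) => Mᵀ *ᵥ (W i) := by
    funext W i j
    rw [Matrix.mulVec, dotProduct]
    refine Finset.sum_congr rfl fun k _ => ?_
    rw [Matrix.transpose_apply, mul_comm]
  rw [e]
  exact h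

/-- split off the first column -/
def colSplit (m : ℕ) (B : Fin (m + 1) → Fin (m + 1) → ℝ) :
    (Fin (m + 1) → ℝ) × (Fin (m + 1) → Fin m → ℝ) := (fun i => B i 0, fun i j => B i j.succ)

theorem measurePreserving_colSplit (m : ℕ) : MeasurePreserving (colSplit m) := by
  have h1 : MeasurePreserving (fun v : Fin (m + 1) → ℝ => (v 0, fun j : Fin m => v j.succ)) := by
    have := volume_preserving_piFinSuccAbove (fun _ : Fin (m + 1) => ℝ) 0
    exact this
  have h2 := volume_preserving_pi (fun _ : Fin (m + 1) => h1)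
  have h3 := volume_measurePreserving_arrowProdEquivProdArrow ℝ (Fin m → ℝ) (Fin (m + 1))
  exact h3.comp h2

/-- split off the first row -/
def rowSplit (m : ℕ) (W : Fin (m + 1) → Fin m → ℝ) : (Fin m → ℝ) × (Fin m → Fin m → ℝ) :=
  (W 0, fun i => W i.succ)

theorem measurePreserving_rowSplit (m : ℕ) : MeasurePreserving (rowSplit m) := by
  have := volume_preserving_piFinSuccAbove (fun _ : Fin (m + 1) => (Fin m → ℝ)) 0
  exact this

/-- the matrix of the row operation for a given first column -/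
noncomputable def rowM (m : ℕ) (b : Fin (m + 1) → ℝ) : Matrix (Fin (m + 1)) (Fin (m + 1)) ℝ :=
  fun i j => Fin.cases (Fin.cases (1 / b 0) (fun _ => 0) j)
    (fun i' => Fin.cases (-(lam m (b 0) * b i'.succ / b 0))
      (fun j' => lam m (b 0) * (1 : Matrix (Fin m) (Fin m) ℝ) i' j') j) i

theorem det_rowM {m : ℕ} (hm : m ≠ 0) (b : Fin (m + 1) → ℝ) (hb : b 0 ≠ 0) : |(rowM m b).det| = 1 := by
  have hL : (rowM m b).det = (1 / b 0) * (lam m (b 0)) ^ m := by
    rw [Matrix.det_succ_row_zero, Fin.sum_univ_succ]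
    have h1 : (rowM m b).submatrix Fin.succ (Fin.succAbove 0) =
        lam m (b 0) • (1 : Matrix (Fin m) (Fin m) ℝ) := by
      ext i j
      rw [Matrix.submatrix_apply, Fin.zero_succAbove]
      rfl
    rw [h1, Matrix.det_smul, Matrix.det_one, Fintype.card_fin]
    have h2 : ∑ j : Fin m, (-1) ^ ((j.succ : Fin (m + 1)) : ℕ) * rowM m b 0 j.succ *
        ((rowM m b).submatrix Fin.succ (Fin.succAbove j.succ)).det = 0 := by
      refine Finset.sum_eq_zero fun j _ => ?_
      change _ * (0 : ℝ) * _ = 0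
      simp
    rw [h2]
    change (-1) ^ ((0 : Fin (m + 1)) : ℕ) * (1 / b 0) * _ + 0 = _
    simp
  rw [hL, lam_pow hm, abs_mul, abs_abs, abs_div, abs_one, one_div, inv_mul_cancel₀ (abs_pos.mpr hb).ne']

/-- the row operation -/
noncomputable def rowOp (m : ℕ) (b : Fin (m + 1) → ℝ) (W : Fin (m + 1) → Fin m → ℝ) :
    Fin (m + 1) → Fin m → ℝ := fun i j => ∑ k, rowM m b i k * W k j

theorem measurePreserving_rowOp (m : ℕ) (b : Fin (m + 1) → ℝ) (hb : b 0 ≠ 0) :
    MeasurePreserving (rowOp m b) := by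
  rcases eq_or_ne m 0 with hm | hm
  · subst hm
    have : rowOp 0 b = id := by
      funext W i j
      exact j.elim0
    rw [this]
    exact MeasurePreserving.id _
  · exact measurePreserving_left (rowM m b) (det_rowM hm b hb)

theorem rowOp_zero (m : ℕ) (b : Fin (m + 1) → ℝ) (W : Fin (m + 1) → Fin m → ℝ) (j : Fin m) :
    rowOp m b W 0 j = W 0 j / b 0 := by
  unfold rowOp
  rw [Fin.sum_univ_succ]
  change (1 / b 0) * W 0 j + ∑ k : Fin m, (0 : ℝ) * W k.succ j = _
  simp only [zero_mul, Finset.sum_const_zero, add_zero]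
  ring

theorem rowOp_succ (m : ℕ) (b : Fin (m + 1) → ℝ) (W : Fin (m + 1) → Fin m → ℝ) (i j : Fin m) :
    rowOp m b W i.succ j = lam m (b 0) * (W i.succ j - b i.succ * (W 0 j / b 0)) := by
  unfold rowOp
  rw [Fin.sum_univ_succ]
  change (-(lam m (b 0) * b i.succ / b 0)) * W 0 j +
    ∑ k : Fin m, (lam m (b 0) * (1 : Matrix (Fin m) (Fin m) ℝ) i k) * W k.succ j = _
  have h1 : ∑ k : Fin m, (lam m (b 0) * (1 : Matrix (Fin m) (Fin m) ℝ) i k) * W k.succ j =
      lam m (b 0) * W i.succ j := by
    rw [Finset.sum_eq_single i]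
    · rw [Matrix.one_apply_eq, mul_one]
    · intro k _ hk
      rw [Matrix.one_apply_ne (Ne.symm hk)]; simp
    · intro h; exact absurd (Finset.mem_univ i) h
  rw [h1]
  ring

theorem measurable_lam (m : ℕ) : Measurable (lam m) := by
  unfold lam
  fun_prop

theorem measurable_HH (m : ℕ) : Measurable (HH (m := m)) := by
  rw [measurable_pi_iff]
  intro i
  rw [measurable_pi_iff]
  intro j
  unfold HH
  have h0 : ∀ a b : Fin (m + 1), Measurable (fun B : Fin (m + 1) → Fin (m + 1) → ℝ => B a b) :=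
    fun a b => (measurable_pi_apply b).comp (measurable_pi_apply a)
  exact ((measurable_lam m).comp (h0 0 0)).mul ((h0 _ _).sub ((h0 _ _).mul ((h0 _ _).div (h0 _ _))))

/-- the nontrivial part -/
def Fmain {m : ℕ} (F : Set (Fin m → Fin m → ℝ)) : Set (Fin (m + 1) → Fin (m + 1) → ℝ) :=
  {B | B 0 0 ≠ 0 ∧ (∀ i, |B i 0| ≤ 1) ∧ (∀ j : Fin m, B 0 j.succ / B 0 0 ∈ Set.Icc (0 : ℝ) 1) ∧ HH B ∈ F}

theorem measurableSet_Fmain {m : ℕ} {F : Set (Fin m → Fin m → ℝ)} (hF : MeasurableSet F) :
    MeasurableSet (Fmain F) := by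
  have h0 : ∀ a b : Fin (m + 1), Measurable (fun B : Fin (m + 1) → Fin (m + 1) → ℝ => B a b) :=
    fun a b => (measurable_pi_apply b).comp (measurable_pi_apply a)
  have e1 : MeasurableSet {B : Fin (m + 1) → Fin (m + 1) → ℝ | B 0 0 ≠ 0} :=
    (h0 0 0) (measurableSet_singleton (0 : ℝ)).compl
  have e2 : MeasurableSet {B : Fin (m + 1) → Fin (m + 1) → ℝ | ∀ i, |B i 0| ≤ 1} := by
    have : {B : Fin (m + 1) → Fin (m + 1) → ℝ | ∀ i, |B i 0| ≤ 1} = ⋂ i, {B | |B i 0| ≤ 1} := by
      ext B; simp
    rw [this]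
    exact MeasurableSet.iInter fun i => measurableSet_le (measurable_abs.comp (h0 i 0)) measurable_const
  have e3 : MeasurableSet {B : Fin (m + 1) → Fin (m + 1) → ℝ |
      ∀ j : Fin m, B 0 j.succ / B 0 0 ∈ Set.Icc (0 : ℝ) 1} := by
    have : {B : Fin (m + 1) → Fin (m + 1) → ℝ | ∀ j : Fin m, B 0 j.succ / B 0 0 ∈ Set.Icc (0 : ℝ) 1} =
        ⋂ j : Fin m, {B | B 0 j.succ / B 0 0 ∈ Set.Icc (0 : ℝ) 1} := by
      ext B; simp
    rw [this]
    exact MeasurableSet.iInter fun j => ((h0 0 j.succ).div (h0 0 0)) measurableSet_Icc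
  have e4 : MeasurableSet {B : Fin (m + 1) → Fin (m + 1) → ℝ | HH B ∈ F} := (measurable_HH m) hF
  exact e1.inter (e2.inter (e3.inter e4))

theorem null_part (m : ℕ) : volume {B : Fin (m + 1) → Fin (m + 1) → ℝ | B 0 0 = 0} = 0 := by
  let s : Submodule ℝ (Fin (m + 1) → Fin (m + 1) → ℝ) :=
    { carrier := {B | B 0 0 = 0}
      zero_mem' := rfl
      add_mem' := by
        intro a b ha hb
        change a 0 0 + b 0 0 = 0
        rw [show a 0 0 = 0 from ha, show b 0 0 = 0 from hb, add_zero]
      smul_mem' := by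
        intro c a ha
        change c * a 0 0 = 0
        rw [show a 0 0 = 0 from ha, mul_zero] }
  have hs : s ≠ ⊤ := by
    intro h
    have h1 : (fun _ _ => (1 : ℝ)) ∈ s := by rw [h]; trivial
    exact one_ne_zero (show (1 : ℝ) = 0 from h1)
  exact Measure.addHaar_submodule volume s hs

theorem vol_main {m : ℕ} {F : Set (Fin m → Fin m → ℝ)} (hF : MeasurableSet F) (hFv : volume F < ⊤) :
    volume (Fmain F) < ⊤ := by
  -- the set in split coordinates
  let Q : Set (Fin (m + 1) → Fin m → ℝ) :=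
    rowSplit m ⁻¹' ((Set.univ.pi fun _ : Fin m => Set.Icc (0 : ℝ) 1) ×ˢ F)
  have hQm : MeasurableSet Q := (measurePreserving_rowSplit m).measurable
    ((MeasurableSet.univ_pi fun _ => measurableSet_Icc).prod hF)
  have hQv : volume Q = volume F := by
    rw [(measurePreserving_rowSplit m).measure_preimage
      ((MeasurableSet.univ_pi fun _ => measurableSet_Icc).prod hF).nullMeasurableSet]
    rw [Measure.volume_eq_prod, Measure.prod_prod, volume_pi, Measure.pi_pi]
    simp
  let S' : Set ((Fin (m + 1) → ℝ) × (Fin (m + 1) → Fin m → ℝ)) :=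
    {p | p.1 0 ≠ 0 ∧ (∀ i, |p.1 i| ≤ 1) ∧ rowOp m p.1 p.2 ∈ Q}
  have hpre : Fmain F = colSplit m ⁻¹' S' := by
    ext B
    change (B 0 0 ≠ 0 ∧ (∀ i, |B i 0| ≤ 1) ∧ (∀ j : Fin m, B 0 j.succ / B 0 0 ∈ Set.Icc (0 : ℝ) 1) ∧ HH B ∈ F) ↔
      (B 0 0 ≠ 0 ∧ (∀ i, |B i 0| ≤ 1) ∧
        ((rowOp m (fun i => B i 0) (fun i j => B i j.succ) 0) ∈ (Set.univ.pi fun _ : Fin m => Set.Icc (0 : ℝ) 1) ∧
        (fun i => rowOp m (fun i => B i 0) (fun i j => B i j.succ) (Fin.succ i)) ∈ F))
    have h1 : (fun i => rowOp m (fun i => B i 0) (fun i j => B i j.succ) (Fin.succ i)) = HH B := by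
      funext i j
      rw [rowOp_succ]
      rfl
    have h2 : (rowOp m (fun i => B i 0) (fun i j => B i j.succ) 0) ∈
        (Set.univ.pi fun _ : Fin m => Set.Icc (0 : ℝ) 1) ↔
        ∀ j : Fin m, B 0 j.succ / B 0 0 ∈ Set.Icc (0 : ℝ) 1 := by
      rw [Set.mem_univ_pi]
      refine forall_congr' fun j => ?_
      rw [rowOp_zero]
    rw [h1, h2]
  have hS'm : MeasurableSet S' := by
    have h0 : ∀ a : Fin (m + 1), Measurable
        (fun p : (Fin (m + 1) → ℝ) × (Fin (m + 1) → Fin m → ℝ) => p.1 a) :=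
      fun a => (measurable_pi_apply a).comp measurable_fst
    have h0' : ∀ (a : Fin (m + 1)) (b : Fin m), Measurable
        (fun p : (Fin (m + 1) → ℝ) × (Fin (m + 1) → Fin m → ℝ) => p.2 a b) :=
      fun a b => Measurable.comp (g := fun W : Fin (m + 1) → Fin m → ℝ => W a b)
        ((measurable_pi_apply b).comp (measurable_pi_apply a)) measurable_snd
    have e1 : MeasurableSet {p : (Fin (m + 1) → ℝ) × (Fin (m + 1) → Fin m → ℝ) | p.1 0 ≠ 0} :=
      (h0 0) (measurableSet_singleton (0 : ℝ)).compl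
    have e2 : MeasurableSet {p : (Fin (m + 1) → ℝ) × (Fin (m + 1) → Fin m → ℝ) | ∀ i, |p.1 i| ≤ 1} := by
      have : {p : (Fin (m + 1) → ℝ) × (Fin (m + 1) → Fin m → ℝ) | ∀ i, |p.1 i| ≤ 1} =
          ⋂ i, {p | |p.1 i| ≤ 1} := by
        ext B; simp
      rw [this]
      exact MeasurableSet.iInter fun i => measurableSet_le (measurable_abs.comp (h0 i)) measurable_const
    have e3 : Measurable (fun p : (Fin (m + 1) → ℝ) × (Fin (m + 1) → Fin m → ℝ) => rowOp m p.1 p.2) := by
      rw [measurable_pi_iff]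
      intro i
      rw [measurable_pi_iff]
      intro j
      refine Fin.cases ?_ (fun i' => ?_) i
      · simp only [rowOp_zero]
        exact (h0' 0 j).div (h0 0)
      · simp only [rowOp_succ]
        exact ((measurable_lam m).comp (h0 0)).mul ((h0' _ _).sub ((h0 _).mul ((h0' _ _).div (h0 _))))
    exact e1.inter (e2.inter (e3 hQm))
  rw [hpre, (measurePreserving_colSplit m).measure_preimage hS'm.nullMeasurableSet,
    Measure.volume_eq_prod, Measure.prod_apply hS'm]
  let box : Set (Fin (m + 1) → ℝ) := Metric.closedBall 0 1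
  have hle : ∀ b : Fin (m + 1) → ℝ, volume (Prod.mk b ⁻¹' S') ≤ box.indicator (fun _ => volume F) b := by
    intro b
    by_cases hb : b ∈ box
    · rw [Set.indicator_of_mem hb]
      by_cases hb0 : b 0 = 0
      · have : Prod.mk b ⁻¹' S' = ∅ := by
          ext W
          simp only [Set.mem_preimage, Set.mem_empty_iff_false, iff_false]
          rintro ⟨h, -⟩
          exact h hb0
        rw [this, measure_empty]
        exact zero_le
      · have hsub : Prod.mk b ⁻¹' S' ⊆ rowOp m b ⁻¹' Q := by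
          rintro W ⟨-, -, h⟩
          exact h
        calc volume (Prod.mk b ⁻¹' S') ≤ volume (rowOp m b ⁻¹' Q) := measure_mono hsub
          _ = volume Q := (measurePreserving_rowOp m b hb0).measure_preimage hQm.nullMeasurableSet
          _ = volume F := hQv
    · rw [Set.indicator_of_notMem hb]
      have : Prod.mk b ⁻¹' S' = ∅ := by
        ext W
        simp only [Set.mem_preimage, Set.mem_empty_iff_false, iff_false]
        rintro ⟨-, h, -⟩
        apply hb
        change b ∈ Metric.closedBall 0 1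
        rw [mem_closedBall_zero_iff, pi_norm_le_iff_of_nonneg zero_le_one]
        exact h
      rw [this, measure_empty]
  calc ∫⁻ b, volume (Prod.mk b ⁻¹' S') ≤ ∫⁻ b, box.indicator (fun _ => volume F) b := lintegral_mono hle
    _ = volume F * volume box := by
      rw [lintegral_indicator Metric.isClosed_closedBall.measurableSet, setLIntegral_const]
    _ < ⊤ := ENNReal.mul_lt_top hFv (isCompact_closedBall _ _).measure_lt_top

theorem vol : VolStmt := by
  intro n
  have key : ∃ F : Set (Fin n → Fin n → ℝ), MeasurableSet F ∧ volume F < ⊤ ∧ Red F := by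
    induction n with
    | zero =>
      refine ⟨Set.univ, MeasurableSet.univ, ?_, ?_⟩
      · rw [volume_pi, Measure.pi_univ]
        simp
      · intro B _ _
        exact ⟨1, by simp, Set.mem_univ _⟩
    | succ m ih =>
      obtain ⟨F, hF, hFv, hR⟩ := ih
      refine ⟨Fnext F, ?_, ?_, red_next hR⟩
      · have h0 : Measurable (fun B : Fin (m + 1) → Fin (m + 1) → ℝ => B 0 0) :=
          (measurable_pi_apply 0).comp (measurable_pi_apply 0)
        exact (h0 (measurableSet_singleton (0 : ℝ))).union (measurableSet_Fmain hF)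
      · calc volume (Fnext F) ≤ volume {B : Fin (m + 1) → Fin (m + 1) → ℝ | B 0 0 = 0} + volume (Fmain F) :=
              measure_union_le _ _
          _ < ⊤ := by
            rw [null_part, zero_add]
            exact vol_main hF hFv
  obtain ⟨F, h1, h2, h3⟩ := key
  exact ⟨F, h1, h2, h3⟩

end Pool.Agent.CRT
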